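import Pool.Agent.Lib.GradedPos.Def
import Pool.Agent.Lib.GradedFour.Fix

/-!
# Homogeneous subspaces and families of subspaces
-/

namespace GradedTop

namespace Pos

open Submodule Module GradedTop.Four GradedTop.Flag

section Blk

variable {F : Type} [Field F] {J : Type} {I : Type} {B : I → Type} (e : J ≃ Σ i, B i)

/-- restriction to a block -/
def bres (i : I) : (J → F) →ₗ[F] (B i → F) where
  toFun v b := v (e.symm ⟨i, b⟩)
  map_add' _ _ := rfl
  map_smul' _ _ := rfl

open Classical in
/-- extension by zero from a block -/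
noncomputable def bext (i : I) : (B i → F) →ₗ[F] (J → F) where
  toFun v x := if h : (e x).1 = i then v (h ▸ (e x).2) else 0
  map_add' v v' := by
    funext x
    by_cases h : (e x).1 = i <;> simp [h]
  map_smul' r v := by
    funext x
    by_cases h : (e x).1 = i <;> simp [h]

lemma bext_apply_symm (i : I) (v : B i → F) (b : B i) : bext e i v (e.symm ⟨i, b⟩) = v b := by
  simp only [bext, LinearMap.coe_mk, AddHom.coe_mk]
  have h : (e (e.symm ⟨i, b⟩)) = ⟨i, b⟩ := e.apply_symm_apply _
  rw [dif_pos (by rw [h])]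
  congr 1
  have : ∀ (s : Σ i, B i) (hs : s = ⟨i, b⟩) (h' : s.1 = i), (h' ▸ s.2 : B i) = b := by
    rintro s rfl h'; rfl
  exact this _ h _

lemma bext_apply_ne (i : I) (v : B i → F) (x : J) (h : (e x).1 ≠ i) : bext e i v x = 0 := by
  simp only [bext, LinearMap.coe_mk, AddHom.coe_mk]
  rw [dif_neg h]

lemma bres_bext (i : I) (v : B i → F) : bres e i (bext e i v) = v := by
  funext b
  exact bext_apply_symm e i v b

lemma bres_bext_ne {i i' : I} (h : i' ≠ i) (v : B i → F) : bres e i' (bext e i v) = 0 := by
  funext b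
  refine bext_apply_ne e i v _ ?_
  rw [e.apply_symm_apply]; exact h

lemma bext_bres (i : I) (v : J → F) (x : J) [Decidable ((e x).1 = i)] :
    bext e i (bres e i v) x = if (e x).1 = i then v x else 0 := by
  split_ifs with h
  · obtain ⟨s, rfl⟩ := e.symm.surjective x
    obtain ⟨i', b⟩ := s
    rw [e.apply_symm_apply] at h
    simp only at h
    subst h
    rw [bext_apply_symm]; rfl
  · exact bext_apply_ne e i _ x h

lemma sum_bext_bres [Fintype I] (v : J → F) : ∑ i, bext e i (bres e i v) = v := by
  classical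
  funext x
  rw [Finset.sum_apply, Finset.sum_congr rfl fun i _ => bext_bres e i v x,
    Finset.sum_ite_eq]
  simp

/-- the blocks of a subspace -/
noncomputable def toFam (N : Submodule F (J → F)) (i : I) : Submodule F (B i → F) :=
  N.comap (bext e i)

/-- the subspace with given blocks -/
def ofFam (N : ∀ i, Submodule F (B i → F)) : Submodule F (J → F) := ⨅ i, (N i).comap (bres e i)

lemma mem_ofFam {N : ∀ i, Submodule F (B i → F)} {v : J → F} :
    v ∈ ofFam e N ↔ ∀ i, bres e i v ∈ N i := by
  simp [ofFam, Submodule.mem_iInf]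

lemma bext_mem_ofFam {N : ∀ i, Submodule F (B i → F)} {i : I} {v : B i → F} (h : v ∈ N i) :
    bext e i v ∈ ofFam e N := by
  rw [mem_ofFam]
  intro i'
  by_cases hi : i' = i
  · subst hi; rw [bres_bext]; exact h
  · rw [bres_bext_ne e hi]; exact zero_mem _

lemma toFam_ofFam (N : ∀ i, Submodule F (B i → F)) : toFam e (ofFam e N) = N := by
  funext i
  ext v
  constructor
  · intro h
    have h1 := (mem_ofFam e).1 h i
    rwa [bres_bext] at h1
  · exact fun h => bext_mem_ofFam e h

variable {code : I → ℕ} (hc : Function.Injective code)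

include hc in
lemma cut_eq (i : I) (v : J → F) :
    cut (fun x => code (e x).1) (code i) v = bext e i (bres e i v) := by
  classical
  funext x
  rw [bext_bres]
  unfold cut
  by_cases h : (e x).1 = i
  · rw [if_pos h, if_pos (congrArg code h)]
  · rw [if_neg h, if_neg (fun h' => h (hc h'))]

include hc in
lemma hmg_ofFam (N : ∀ i, Submodule F (B i → F)) :
    Hmg (fun x => code (e x).1) (ofFam e N) := by
  intro v hv c
  by_cases h : ∃ i, code i = c
  · obtain ⟨i, rfl⟩ := h
    rw [cut_eq e hc]
    exact bext_mem_ofFam e ((mem_ofFam e).1 hv i)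
  · have : cut (fun x => code (e x).1) c v = 0 := by
      funext x
      unfold cut
      rw [if_neg (fun h' => h ⟨_, h'⟩)]; rfl
    rw [this]; exact zero_mem _

include hc in
lemma ofFam_toFam [Fintype I] {N : Submodule F (J → F)} (h : Hmg (fun x => code (e x).1) N) :
    ofFam e (toFam e N) = N := by
  ext v
  rw [mem_ofFam]
  constructor
  · intro h1
    rw [← sum_bext_bres e v]
    exact N.sum_mem fun i _ => h1 i
  · intro h1 i
    have h2 := h v h1 (code i)
    rwa [cut_eq e hc] at h2

lemma ofFam_mono {N N' : ∀ i, Submodule F (B i → F)} (h : ∀ i, N i ≤ N' i) :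
    ofFam e N ≤ ofFam e N' := by
  intro v hv
  rw [mem_ofFam] at hv ⊢
  exact fun i => h i (hv i)

lemma toFam_mono {N N' : Submodule F (J → F)} (h : N ≤ N') (i : I) : toFam e N i ≤ toFam e N' i :=
  Submodule.comap_mono h

lemma finrank_ofFam [Fintype J] [Fintype I] [∀ i, Fintype (B i)]
    (N : ∀ i, Submodule F (B i → F)) :
    finrank F (ofFam e N) = ∑ i, finrank F (N i) := by
  rw [← Module.finrank_pi_fintype]
  refine LinearEquiv.finrank_eq
    { toFun := fun v i => ⟨bres e i v.1, (mem_ofFam e).1 v.2 i⟩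
      map_add' := fun v v' => rfl
      map_smul' := fun r v => rfl
      invFun := fun g => ⟨∑ i, bext e i (g i).1,
        (ofFam e N).sum_mem fun i _ => bext_mem_ofFam e (g i).2⟩
      left_inv := ?_
      right_inv := ?_ }
  · intro v
    exact Subtype.ext (sum_bext_bres e v.1)
  · intro g
    funext i
    apply Subtype.ext
    change bres e i (∑ i', bext e i' (g i').1) = (g i).1
    rw [map_sum, Finset.sum_eq_single i]
    · exact bres_bext e i _
    · intro i' _ h; exact bres_bext_ne e (Ne.symm h) _
    · intro h; exact absurd (Finset.mem_univ i) h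

lemma map_ofFam_le [Fintype I] {J' I' : Type} {B' : I' → Type} (e' : J' ≃ Σ i, B' i)
    (A : (J → F) →ₗ[F] (J' → F)) (N : ∀ i, Submodule F (B i → F))
    (N' : ∀ i, Submodule F (B' i → F)) :
    (ofFam e N).map A ≤ ofFam e' N' ↔
      ∀ i i', (N i).map (bres e' i' ∘ₗ A ∘ₗ bext e i) ≤ N' i' := by
  constructor
  · rintro h i i' _ ⟨v, hv, rfl⟩
    exact (mem_ofFam e').1 (h ⟨_, bext_mem_ofFam e hv, rfl⟩) i'
  · rintro h _ ⟨v, hv, rfl⟩
    rw [mem_ofFam]
    intro i'
    rw [← sum_bext_bres e v, map_sum, map_sum]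
    exact (N' i').sum_mem fun i _ => h i i' ⟨_, (mem_ofFam e).1 hv i, rfl⟩

end Blk

end Pos

end GradedTop
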