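import Pool.Agent.Lib.GradedPos.Def

/-!
# Corollary P, module P9b: numbers of Lyndon words with given content (helper75)
-/

namespace GradedTop

namespace Pos

open Submodule Module GradedTop.Four GradedTop.Flag

/-- All words of length `n`. -/
def words75 (d : ℕ) : ℕ → List (List (Fin d))
  | 0 => [[]]
  | n + 1 => (words75 d n).flatMap fun w => (List.finRange d).map fun j => j :: w

lemma mem_words75 {d n : ℕ} {w : List (Fin d)} : w ∈ words75 d n ↔ w.length = n := by
  induction n generalizing w with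
  | zero => simp [words75, List.length_eq_zero_iff]
  | succ n ih =>
    rw [words75, List.mem_flatMap]
    constructor
    · rintro ⟨u, hu, hw⟩
      obtain ⟨j, -, rfl⟩ := List.mem_map.1 hw
      rw [List.length_cons, ih.1 hu]
    · intro h
      cases w with
      | nil => simp at h
      | cons x u =>
        exact ⟨u, ih.2 (by simpa using h), List.mem_map.2 ⟨x, List.mem_finRange x, rfl⟩⟩

lemma nodup_words75 (d n : ℕ) : (words75 d n).Nodup := by
  induction n with
  | zero => simp [words75]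
  | succ n ih =>
    rw [words75, List.nodup_flatMap]
    refine ⟨fun w _ => (List.nodup_finRange d).map fun i j h => (List.cons.inj h).1, ?_⟩
    refine ih.imp ?_
    intro u v huv
    rw [Function.onFun, List.disjoint_left]
    intro x hx hy
    obtain ⟨i, -, rfl⟩ := List.mem_map.1 hx
    obtain ⟨j, -, h⟩ := List.mem_map.1 hy
    exact huv (List.cons.inj h).2.symm

/-- Comparison of words. -/
def ltB75 {d : ℕ} : List (Fin d) → List (Fin d) → Bool
  | [], [] => false
  | [], _ :: _ => true
  | _ :: _, [] => false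
  | x :: u, y :: v => Nat.blt x.1 y.1 || (Nat.beq x.1 y.1 && ltB75 u v)

lemma ltB75_iff {d : ℕ} (u v : List (Fin d)) : ltB75 u v = true ↔ u < v := by
  induction u generalizing v with
  | nil => cases v <;> simp [ltB75]
  | cons x u ih =>
    cases v with
    | nil => simp [ltB75]
    | cons y v =>
      rw [ltB75, List.cons_lt_cons_iff, ← ih v, Bool.or_eq_true, Bool.and_eq_true, Nat.blt_eq,
        Nat.beq_eq, Fin.lt_def, Fin.ext_iff]

/-- Test for Lyndon words. -/
def lynB75 {d : ℕ} (w : List (Fin d)) : Bool :=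
  !w.isEmpty && (List.range w.length).all fun k => Nat.beq k 0 || ltB75 w (w.drop k)

lemma lynB75_iff {d : ℕ} (w : List (Fin d)) : lynB75 w = true ↔ IsLyn w := by
  rw [lynB75, IsLyn]
  simp only [Bool.and_eq_true, Bool.not_eq_true', List.all_eq_true, List.mem_range,
    Bool.or_eq_true, ltB75_iff, Nat.beq_eq]
  constructor
  · rintro ⟨h1, h2⟩
    refine ⟨by rintro rfl; simp at h1, fun u v hu hv h => ?_⟩
    have hl : u.length < w.length := by
      rw [h, List.length_append]
      have := List.length_pos_iff.2 hv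
      omega
    rcases h2 u.length hl with h3 | h3
    · exact absurd (List.length_eq_zero_iff.1 h3) hu
    · rwa [h, List.drop_left, ← h] at h3
  · rintro ⟨h1, h2⟩
    refine ⟨by cases w with
      | nil => exact absurd rfl h1
      | cons => rfl, fun k hk => ?_⟩
    rcases Nat.eq_zero_or_pos k with h3 | h3
    · exact Or.inl h3
    · refine Or.inr (h2 (w.take k) (w.drop k) ?_ ?_ (List.take_append_drop k w).symm)
      · intro h
        have := congrArg List.length h
        rw [List.length_take, List.length_nil] at this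
        omega
      · intro h
        have := congrArg List.length h
        rw [List.length_drop, List.length_nil] at this
        omega

/-- The number of Lyndon words with content `c`. -/
def cnt75 {d : ℕ} (c : Fin d → ℕ) (n : ℕ) : ℕ :=
  ((words75 d n).filter fun w =>
    (List.finRange d).all (fun i => Nat.beq (w.count i) (c i)) && lynB75 w).length

lemma card_LC75 {d a : ℕ} (κ : Cn d a) (n : ℕ) (hn : ∑ i, (κ i : ℕ) = n) :
    Fintype.card (LC κ) = cnt75 (fun i => (κ i : ℕ)) n := by
  rw [cnt75, ← List.toFinset_card_of_nodup ((nodup_words75 d _).filter _), ← Fintype.card_coe]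
  refine Fintype.card_congr (Equiv.subtypeEquivRight fun w => ?_)
  simp only [List.mem_toFinset, List.mem_filter, mem_words75, Bool.and_eq_true, List.all_eq_true,
    List.mem_finRange, forall_true_left, Nat.beq_eq, lynB75_iff]
  constructor
  · rintro ⟨h1, h2⟩
    exact ⟨(length_LC κ ⟨w, h1, h2⟩).trans hn, h2, h1⟩
  · rintro ⟨-, h2, h1⟩
    exact ⟨h1, h2⟩

/-! ### Numerical facts -/

/-- The number of Lyndon words of given content. -/
abbrev cn75 {d a : ℕ} (κ : Cn d a) : ℕ := cnt75 (fun i => (κ i : ℕ)) (∑ i, (κ i : ℕ))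

lemma card_LC75' {d a : ℕ} (κ : Cn d a) : Fintype.card (LC κ) = cn75 κ := card_LC75 κ _ rfl

/-- `κ'` is obtained from `κ` by adding a letter. -/
def IsPr75 {d a : ℕ} (κ κ' : Cn d a) : Prop :=
  ∃ j : Fin d, ∀ i, (κ' i : ℕ) = κ i + (if i = j then 1 else 0)

instance {d a : ℕ} (κ κ' : Cn d a) : Decidable (IsPr75 κ κ') :=
  inferInstanceAs (Decidable (∃ j : Fin d, ∀ i, (κ' i : ℕ) = κ i + (if i = j then 1 else 0)))

/-- The predecessors of a content of degree `a + 2`. -/
def P75 {d a : ℕ} (κ' : C3 d a) : Finset (C2 d a) := Finset.univ.filter fun κ => IsPr75 κ.1 κ'.1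

/-- The predecessors of a content of degree `a + 1`. -/
def Q75 {d a : ℕ} (κ' : C2 d a) : Finset (C1 d a) := Finset.univ.filter fun κ => IsPr75 κ.1 κ'.1

lemma p23_sum : ∀ κ' : C3 2 3, ∑ κ ∈ P75 κ', cn75 κ.1 ≤ cn75 κ'.1 + 1 := by decide +kernel

lemma p24_sum : ∀ κ' : C3 2 4, ∑ κ ∈ P75 κ', cn75 κ.1 ≤ cn75 κ'.1 + 1 := by decide +kernel

lemma p25_sum : ∀ κ' : C3 2 5, ∑ κ ∈ P75 κ', cn75 κ.1 ≤ cn75 κ'.1 := by decide +kernel

lemma p33_sum : ∀ κ' : C3 3 3, ∑ κ ∈ P75 κ', cn75 κ.1 ≤ cn75 κ'.1 + 1 := by decide +kernel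

lemma q25_sum : ∀ κ' : C2 2 5, ∑ κ ∈ Q75 κ', cn75 κ.1 ≤ cn75 κ'.1 + 1 := by decide +kernel

lemma c23_le : ∀ κ : C1 2 3, cn75 κ.1 ≤ 1 := by decide +kernel

lemma c24_le : ∀ κ : C1 2 4, cn75 κ.1 ≤ 1 := by decide +kernel

lemma c25_le : ∀ κ : C1 2 5, cn75 κ.1 ≤ 2 := by decide +kernel

lemma c33_le : ∀ κ : C1 3 3, cn75 κ.1 ≤ 2 := by decide +kernel

lemma c25_two : ∀ κ : C1 2 5, cn75 κ.1 = 2 → ∑ i, (κ.1 i : ℕ) = 5 := by decide +kernel

lemma c33_two : ∀ κ : C1 3 3, cn75 κ.1 = 2 → ∀ i, (κ.1 i : ℕ) = 1 := by decide +kernel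

end Pos

end GradedTop
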