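import Pool.Agent.Lib.GradedPos.LinAlg
import Pool.Agent.Lib.GradedPos.Counts75

/-!
# Corollary P, module P9b: the four cases (helper75)
-/

namespace GradedTop

namespace Pos

open Submodule Module GradedTop.Four GradedTop.Flag

lemma IsPr75.sum {d a : ℕ} {κ κ' : Cn d a} (h : IsPr75 κ κ') :
    ∑ i, (κ' i : ℕ) = ∑ i, (κ i : ℕ) + 1 := by
  obtain ⟨j, hj⟩ := h
  rw [Finset.sum_congr rfl fun i _ => hj i, Finset.sum_add_distrib]
  simp

lemma fL_eq_zero75 (F : Type) [Field F] {d a : ℕ} {κ κ' : Cn d a} (h : ¬ IsPr75 κ κ') :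
    fL F κ κ' = 0 := by
  rw [fL]
  refine Finset.sum_eq_zero fun j _ => ?_
  rw [if_neg]
  intro hj
  exact h ⟨j, hj⟩

/-- the ranges from the block of the preceding degree -/
lemma span_sub75 (F : Type) [Field F] {d a : ℕ} (p : Cn d a → Prop) (κ' : Cn d a)
    (hp : ∀ κ, IsPr75 κ κ' → p κ)
    (hs : (⨆ κ : Cn d a, LinearMap.range (fL F κ κ') : Submodule F (LC κ' → F)) = ⊤) :
    (⨆ κ : {κ : Cn d a // p κ}, LinearMap.range (fL F κ.1 κ') : Submodule F (LC κ' → F)) = ⊤ := by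
  rw [← hs]
  refine le_antisymm (iSup_le fun κ => le_iSup (fun κ : Cn d a => LinearMap.range (fL F κ κ')) κ.1)
    (iSup_le fun κ => ?_)
  by_cases h : IsPr75 κ κ'
  · exact le_iSup (fun κ : {κ : Cn d a // p κ} => LinearMap.range (fL F κ.1 κ')) ⟨κ, hp κ h⟩
  · rw [fL_eq_zero75 F h, LinearMap.range_zero]
    exact bot_le

theorem good_of75 (F : Type) [Field F] [Finite F] (d a : ℕ) (ha : 1 ≤ a)
    (hspan : ∀ κ' : Cn d a, 2 ≤ ∑ i, (κ' i : ℕ) →
      (⨆ κ : Cn d a, LinearMap.range (fL F κ κ') : Submodule F (LC κ' → F)) = ⊤)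
    (h1 : ∀ κ : C1 d a, Fintype.card (LC κ.1) ≤ 2)
    (h2 : ∀ κ : C1 d a, Fintype.card (LC κ.1) = 2 → ∑ i, (κ.1 i : ℕ) = a)
    (h3 : ∀ κ' : C3 d a, ∑ κ ∈ P75 κ', Fintype.card (LC κ.1) ≤ Fintype.card (LC κ'.1) + 1)
    (h4 : (∃ s : C1 d a, ∀ κ : C1 d a, Fintype.card (LC κ.1) = 2 → κ = s) ∨
      ((∀ κ' : C3 d a, ∑ κ ∈ P75 κ', Fintype.card (LC κ.1) ≤ Fintype.card (LC κ'.1)) ∧
        ∀ κ' : C2 d a, ∑ κ ∈ Q75 κ', Fintype.card (LC κ.1) ≤ Fintype.card (LC κ'.1) + 1)) :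
    ∃ (P : C3 d a → Finset (C2 d a)) (δ : C3 d a → Prop)
      (k : ∀ (_ : C3 d a) (i : C2 d a), LC i.1 → F), (SL F d a).Good P δ k := by
  classical
  have hP : ∀ (κ' : C3 d a) (i : C2 d a), i ∉ P75 κ' → fL F i.1 κ'.1 = 0 := by
    intro κ' i hi
    refine fL_eq_zero75 F fun h => hi ?_
    rw [P75, Finset.mem_filter]
    exact ⟨Finset.mem_univ _, h⟩
  have hQ : ∀ (κ' : C2 d a) (i : C1 d a), i ∉ Q75 κ' → fL F i.1 κ'.1 = 0 := by
    intro κ' i hi
    refine fL_eq_zero75 F fun h => hi ?_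
    rw [Q75, Finset.mem_filter]
    exact ⟨Finset.mem_univ _, h⟩
  have htop : ∀ κ' : C3 d a, ∃ (δ : Prop) (k : ∀ i : C2 d a, LC i.1 → F),
      (δ → ∑ i ∈ P75 κ', Fintype.card (LC i.1) = Fintype.card (LC κ'.1) + 1) ∧
      ∀ N : ∀ i : C2 d a, Submodule F (LC i.1 → F),
        (¬ (δ ∧ ∀ i ∈ P75 κ', k i ∈ N i) →
          finrank F ((⨆ i, (N i).map (fL F i.1 κ'.1) : Submodule F (LC κ'.1 → F))) =
            ∑ i ∈ P75 κ', finrank F (N i)) ∧
        ((δ ∧ ∀ i ∈ P75 κ', k i ∈ N i) →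
          finrank F ((⨆ i, (N i).map (fL F i.1 κ'.1) : Submodule F (LC κ'.1 → F))) + 1 =
            ∑ i ∈ P75 κ', finrank F (N i)) := by
    intro κ'
    refine exists_top (fun i : C2 d a => fL F i.1 κ'.1) (P75 κ') (hP κ') ?_ (h3 κ')
    refine span_sub75 F (fun κ : Cn d a => ∑ i, (κ i : ℕ) = a + 1) κ'.1 (fun κ h => ?_)
      (hspan κ'.1 (by rw [κ'.2]; omega))
    have := h.sum
    rw [κ'.2] at this
    omega
  choose δ k hδ hk using htop
  refine ⟨P75, δ, k, h1, ?_, ?_, hk, ?_⟩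
  · intro i i' hi
    by_contra h
    have h5 : IsPr75 i.1 i'.1 := by
      by_contra h6
      exact h (fL_eq_zero75 F h6)
    have h7 := h5.sum
    rw [h2 i hi] at h7
    have h8 := i'.2
    omega
  · refine ⟨fun κ => (∑ i, (κ.1 i : ℕ)) * Fintype.card (C1 d a) + (Fintype.equivFin (C1 d a) κ).1,
      ?_, ?_⟩
    · intro κ κ' h
      have e1 := (Fintype.equivFin (C1 d a) κ).2
      have e2 := (Fintype.equivFin (C1 d a) κ').2
      have h' : (∑ i, (κ.1 i : ℕ)) * Fintype.card (C1 d a) + (Fintype.equivFin (C1 d a) κ).1 =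
        (∑ i, (κ'.1 i : ℕ)) * Fintype.card (C1 d a) + (Fintype.equivFin (C1 d a) κ').1 := h
      have h6 := congrArg (fun x => x % Fintype.card (C1 d a)) h'
      simp only [Nat.mul_add_mod_self_right, Nat.mod_eq_of_lt e1, Nat.mod_eq_of_lt e2] at h6
      exact (Fintype.equivFin (C1 d a)).injective (Fin.ext h6)
    · intro κ κ' h
      have h5 : IsPr75 κ.1 κ'.1 := by
        by_contra h6
        exact h (fL_eq_zero75 F h6)
      have h7 := h5.sum
      have e1 := (Fintype.equivFin (C1 d a) κ).2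
      have : (∑ i, (κ'.1 i : ℕ)) * Fintype.card (C1 d a) =
          (∑ i, (κ.1 i : ℕ)) * Fintype.card (C1 d a) + Fintype.card (C1 d a) := by
        rw [h7]; ring
      show (∑ i, (κ.1 i : ℕ)) * Fintype.card (C1 d a) + (Fintype.equivFin (C1 d a) κ).1 <
        (∑ i, (κ'.1 i : ℕ)) * Fintype.card (C1 d a) + (Fintype.equivFin (C1 d a) κ').1
      omega
  · intro i' n Y hY m
    rcases h4 with ⟨s, hs⟩ | ⟨h5, h6⟩
    · exact closed_one (fun i : C1 d a => fL F i.1 i'.1) s (fun i hi _ => hs i hi) n _ m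
    · have hY0 : ∀ y, y ∉ Y := by
        intro y hy
        have := hδ y (hY y hy)
        have := h5 y
        omega
      have hs : (span F {v : LC i'.1 → F | ∃ y ∈ Y, i' ∈ P75 y ∧ v = k y i'}) = ⊥ := by
        rw [Submodule.span_eq_bot]
        rintro v ⟨y, hy, -⟩
        exact absurd hy (hY0 y)
      obtain ⟨δ', k', -, hk'⟩ := exists_top (fun i : C1 d a => fL F i.1 i'.1) (Q75 i') (hQ i')
        (span_sub75 F (fun κ : Cn d a => ∑ i, (κ i : ℕ) ≤ a) i'.1 (fun κ h => by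
          have := h.sum
          rw [i'.2] at this
          omega) (hspan i'.1 (by rw [i'.2]; omega))) (h6 i')
      have := closed_ker (fun i : C1 d a => fL F i.1 i'.1) (Q75 i') (hQ i') δ' k' hk' n m
      have e : ∀ l : Pl (fun κ : C1 d a => LC κ.1) → Ln F,
          ((⨆ i, (famL n l i).map ((SL F d a).f12 i i')) ⊔
            span F {v : LC i'.1 → F | ∃ y ∈ Y, i' ∈ P75 y ∧ v = k y i'} :
              Submodule F (LC i'.1 → F)) =
          (⨆ i, (famL n l i).map (fL F i.1 i'.1) : Submodule F (LC i'.1 → F)) := by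
        intro l
        rw [hs]
        exact sup_bot_eq _
      have e2 : {l : Pl (fun κ : C1 d a => LC κ.1) → Ln F | finrank F
          (((⨆ i, (famL n l i).map ((SL F d a).f12 i i')) ⊔
            span F {v : LC i'.1 → F | ∃ y ∈ Y, i' ∈ P75 y ∧ v = k y i'} :
              Submodule F (LC i'.1 → F))) ≤ m} =
          {l : Pl (fun κ : C1 d a => LC κ.1) → Ln F | finrank F
            ((⨆ i, (famL n l i).map (fL F i.1 i'.1) : Submodule F (LC i'.1 → F))) ≤ m} := by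
        refine Set.ext fun l => ?_
        have e3 := congrArg (fun X : Submodule F (LC i'.1 → F) => finrank F X) (e l)
        exact ⟨fun h => e3.ge.trans h, fun h => e3.le.trans h⟩
      rw [e2]
      exact this

/-- the four cases, given the spanning property -/
theorem good_cases75 (F : Type) [Field F] [Finite F] (d a : ℕ)
    (h : (d = 2 ∧ a = 3) ∨ (d = 2 ∧ a = 4) ∨ (d = 2 ∧ a = 5) ∨ (d = 3 ∧ a = 3))
    (hspan : ∀ κ' : Cn d a, 2 ≤ ∑ i, (κ' i : ℕ) →
      (⨆ κ : Cn d a, LinearMap.range (fL F κ κ') : Submodule F (LC κ' → F)) = ⊤) :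
    ∃ (P : C3 d a → Finset (C2 d a)) (δ : C3 d a → Prop)
      (k : ∀ (_ : C3 d a) (i : C2 d a), LC i.1 → F), (SL F d a).Good P δ k := by
  rcases h with ⟨rfl, rfl⟩ | ⟨rfl, rfl⟩ | ⟨rfl, rfl⟩ | ⟨rfl, rfl⟩
  · refine good_of75 F 2 3 (by norm_num) hspan ?_ ?_ ?_ (Or.inl ⟨⟨0, by simp⟩, ?_⟩) <;>
      simp only [card_LC75']
    · exact fun κ => (c23_le κ).trans one_le_two
    · intro κ h
      have := c23_le κ
      omega
    · exact p23_sum
    · intro κ h
      have := c23_le κ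
      omega
  · refine good_of75 F 2 4 (by norm_num) hspan ?_ ?_ ?_ (Or.inl ⟨⟨0, by simp⟩, ?_⟩) <;>
      simp only [card_LC75']
    · exact fun κ => (c24_le κ).trans one_le_two
    · intro κ h
      have := c24_le κ
      omega
    · exact p24_sum
    · intro κ h
      have := c24_le κ
      omega
  · refine good_of75 F 2 5 (by norm_num) hspan ?_ ?_ ?_ (Or.inr ⟨?_, ?_⟩) <;>
      simp only [card_LC75']
    · exact c25_le
    · exact c25_two
    · exact fun κ' => (p25_sum κ').trans (Nat.le_succ _)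
    · exact p25_sum
    · exact q25_sum
  · refine good_of75 F 3 3 (by norm_num) hspan ?_ ?_ ?_ (Or.inl ⟨⟨fun _ => 1, by decide⟩, ?_⟩) <;>
      simp only [card_LC75']
    · exact c33_le
    · intro κ h
      rw [Finset.sum_congr rfl fun i _ => c33_two κ h i]
      simp
    · exact p33_sum
    · intro κ h
      refine Subtype.ext (funext fun i => Fin.ext ?_)
      rw [c33_two κ h i]
      rfl

end Pos

end GradedTop
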