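import Pool.Agent.Lib.GradedPos.Def

/-!
# Corollary P, module P9b, part 1: numbers of Lyndon words of given content (helper32)
-/

namespace GradedTop

namespace Pos

open Submodule Module GradedTop.Four GradedTop.Flag

/-- all words of length `n` -/
def wd (d : ℕ) : ℕ → List (List (Fin d))
  | 0 => [[]]
  | n + 1 => (List.finRange d).flatMap fun x => (wd d n).map (List.cons x)

lemma mem_wd {d : ℕ} (n : ℕ) (w : List (Fin d)) : w ∈ wd d n ↔ w.length = n := by
  induction n generalizing w with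
  | zero =>
    rw [wd, List.mem_singleton, List.length_eq_zero_iff]
  | succ n ih =>
    rw [wd, List.mem_flatMap]
    constructor
    · rintro ⟨x, _, h⟩
      obtain ⟨v, hv, rfl⟩ := List.mem_map.1 h
      rw [List.length_cons, (ih v).1 hv]
    · intro h
      cases w with
      | nil => rw [List.length_nil] at h; omega
      | cons x v =>
        rw [List.length_cons] at h
        exact ⟨x, List.mem_finRange x, List.mem_map.2 ⟨v, (ih v).2 (by omega), rfl⟩⟩

lemma nodup_wd (d n : ℕ) : (wd d n).Nodup := by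
  induction n with
  | zero => rw [wd]; exact List.nodup_singleton _
  | succ n ih =>
    rw [wd, List.nodup_flatMap]
    refine ⟨fun x _ => ih.map fun _ _ h => (List.cons.inj h).2, ?_⟩
    refine (List.nodup_finRange d).imp fun {x y} hne => ?_
    rw [Function.onFun, List.disjoint_left]
    intro w hw hw'
    obtain ⟨v, _, rfl⟩ := List.mem_map.1 hw
    obtain ⟨v', _, h⟩ := List.mem_map.1 hw'
    exact hne (List.cons.inj h).1.symm

/-- lexicographic comparison -/
def ltB {d : ℕ} : List (Fin d) → List (Fin d) → Bool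
  | _, [] => false
  | [], _ :: _ => true
  | x :: u, y :: v => Nat.blt x.1 y.1 || (Nat.beq x.1 y.1 && ltB u v)

lemma ltB_iff {d : ℕ} (u v : List (Fin d)) : ltB u v = true ↔ u < v := by
  induction u generalizing v with
  | nil =>
    cases v with
    | nil => exact iff_of_false (by rw [ltB]; exact Bool.false_ne_true) (lt_irrefl _)
    | cons y v => exact iff_of_true (by rw [ltB]) (List.nil_lt_cons y v)
  | cons x u ih =>
    cases v with
    | nil => exact iff_of_false (by rw [ltB]; exact Bool.false_ne_true) (List.not_lt_nil _)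
    | cons y v =>
      rw [ltB, Bool.or_eq_true, Bool.and_eq_true, Nat.blt_eq, Nat.beq_eq, ih,
        List.cons_lt_cons_iff, Fin.lt_def, ← Fin.ext_iff]

/-- smaller than the suffixes starting at the positions `1, ..., m` -/
def sfB {d : ℕ} (w : List (Fin d)) : ℕ → Bool
  | 0 => true
  | m + 1 => ltB w (w.drop (m + 1)) && sfB w m

lemma sfB_iff {d : ℕ} (w : List (Fin d)) (m : ℕ) :
    sfB w m = true ↔ ∀ i, 0 < i → i ≤ m → w < w.drop i := by
  induction m with
  | zero =>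
    refine iff_of_true (by rw [sfB]) fun i h1 h2 => ?_
    omega
  | succ m ih =>
    rw [sfB, Bool.and_eq_true, ltB_iff, ih]
    constructor
    · rintro ⟨h1, h2⟩ i hi hi'
      rcases Nat.lt_or_ge i (m + 1) with h | h
      · exact h2 i hi (by omega)
      · have : i = m + 1 := by omega
        rw [this]
        exact h1
    · intro h
      exact ⟨h _ m.succ_pos le_rfl, fun i hi hi' => h i hi (by omega)⟩

/-- test for Lyndon words -/
def lynB {d : ℕ} (w : List (Fin d)) : Bool := Nat.blt 0 w.length && sfB w (w.length - 1)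

lemma lynB_iff {d : ℕ} (w : List (Fin d)) : lynB w = true ↔ IsLyn w := by
  rw [lynB, Bool.and_eq_true, Nat.blt_eq, sfB_iff, IsLyn, List.length_pos_iff]
  refine and_congr_right fun h0 => ?_
  have hpos := List.length_pos_iff.2 h0
  constructor
  · intro h u v hu hv he
    have hu' := List.length_pos_iff.2 hu
    have hv' := List.length_pos_iff.2 hv
    have hl : w.length = u.length + v.length := by rw [he, List.length_append]
    have h1 := h u.length hu' (by omega)
    have h2 : w.drop u.length = v := by rw [he, List.drop_left]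
    rwa [h2] at h1
  · intro h i hi hi'
    refine h (w.take i) (w.drop i) ?_ ?_ (List.take_append_drop i w).symm
    · intro h1
      have := congrArg List.length h1
      rw [List.length_take, List.length_nil] at this
      omega
    · intro h1
      have := congrArg List.length h1
      rw [List.length_drop, List.length_nil] at this
      omega

/-- occurrences of a letter -/
def cb {d : ℕ} (x : ℕ) : List (Fin d) → ℕ
  | [] => 0
  | y :: w => cond (Nat.beq y.1 x) (cb x w + 1) (cb x w)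

lemma cb_eq {d : ℕ} (x : Fin d) (w : List (Fin d)) : cb x.1 w = w.count x := by
  induction w with
  | nil => rfl
  | cons y w ih =>
    rw [cb, List.count_cons, ih]
    by_cases h : y = x
    · subst h
      rw [show Nat.beq y.1 y.1 = true from Nat.beq_refl _, cond_true, beq_self_eq_true, if_pos rfl]
    · have h1 : Nat.beq y.1 x.1 = false := by
        rw [← Bool.not_eq_true, Nat.beq_eq]
        exact fun h' => h (Fin.ext h')
      have h2 : (y == x) = false := beq_false_of_ne h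
      rw [h1, cond_false, h2]
      rfl

/-- test for the content -/
def cnB {d : ℕ} (κ : Fin d → ℕ) (w : List (Fin d)) : Bool :=
  (List.finRange d).all fun i => Nat.beq (cb i.1 w) (κ i)

lemma cnB_iff {d : ℕ} (κ : Fin d → ℕ) (w : List (Fin d)) :
    cnB κ w = true ↔ ∀ i, w.count i = κ i := by
  rw [cnB, List.all_eq_true]
  constructor
  · intro h i
    rw [← cb_eq, ← Nat.beq_eq]
    exact h i (List.mem_finRange i)
  · intro h i _
    rw [Nat.beq_eq, cb_eq]
    exact h i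

/-- the number of Lyndon words of length `n` with given content -/
def cn (d n : ℕ) (κ : Fin d → ℕ) : ℕ := ((wd d n).filter fun w => cnB κ w && lynB w).length

lemma card_LC {d a : ℕ} (κ : Cn d a) :
    Fintype.card (LC κ) = cn d (∑ i, (κ i : ℕ)) (fun i => (κ i : ℕ)) := by
  classical
  have hfin : Finite {w : List (Fin d) // IsLyn w ∧ ∀ i, w.count i = (κ i : ℕ)} :=
    (inferInstance : Finite (LC κ))
  have inst : Fintype {w : List (Fin d) // IsLyn w ∧ ∀ i, w.count i = (κ i : ℕ)} :=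
    Fintype.ofFinite _
  have h0 : Fintype.card (LC κ) =
      Fintype.card {w : List (Fin d) // IsLyn w ∧ ∀ i, w.count i = (κ i : ℕ)} :=
    Fintype.card_congr (Equiv.refl _)
  have h1 : Fintype.card {w : List (Fin d) // IsLyn w ∧ ∀ i, w.count i = (κ i : ℕ)} =
      ((wd d (∑ i, (κ i : ℕ))).filter fun w => cnB (fun i => (κ i : ℕ)) w && lynB w).toFinset.card := by
    refine Fintype.card_of_subtype _ fun w => ?_
    rw [List.mem_toFinset, List.mem_filter, mem_wd, Bool.and_eq_true, cnB_iff, lynB_iff]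
    constructor
    · rintro ⟨_, h2, h3⟩
      exact ⟨h3, h2⟩
    · rintro ⟨h3, h2⟩
      exact ⟨length_LC κ ⟨w, h3, h2⟩, h2, h3⟩
  rw [h0, h1, List.toFinset_card_of_nodup ((nodup_wd _ _).filter _)]
  rfl

/-- the number of Lyndon words in the contents below -/
def sc (d n : ℕ) (κ : Fin d → ℕ) : ℕ :=
  ((List.finRange d).map fun j =>
    cond (Nat.beq (κ j) 0) 0 (cn d n (fun i => κ i - cond (Nat.beq i.1 j.1) 1 0))).sum

/-- the content `κ` is `κ'` with one letter removed -/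
def Src {d a : ℕ} (κ κ' : Cn d a) : Prop :=
  ∃ j, ∀ i, (κ' i : ℕ) = κ i + (if i = j then 1 else 0)

lemma Src.deg {d a : ℕ} {κ κ' : Cn d a} (h : Src κ κ') :
    ∑ i, (κ' i : ℕ) = ∑ i, (κ i : ℕ) + 1 := by
  obtain ⟨j, hj⟩ := h
  rw [Finset.sum_congr rfl fun i _ => hj i, Finset.sum_add_distrib, Finset.sum_ite_eq',
    if_pos (Finset.mem_univ j)]

open Classical in
/-- the numbers of Lyndon words in the sources are bounded by `sc` -/
lemma sum_src_le {d a : ℕ} (p : Cn d a → Prop) [Fintype {κ : Cn d a // p κ}] (κ' : Cn d a) (n : ℕ)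
    (hn : ∑ i, (κ' i : ℕ) = n + 1) :
    ∑ κ ∈ (Finset.univ.filter fun κ : {κ : Cn d a // p κ} => Src κ.1 κ'),
      Fintype.card (LC κ.1) ≤ sc d n (fun i => (κ' i : ℕ)) := by
  set g : Fin d → ℕ := fun j => cond (Nat.beq (κ' j : ℕ) 0) 0
    (cn d n (fun i => (κ' i : ℕ) - cond (Nat.beq i.1 j.1) 1 0)) with hg
  have hsc : sc d n (fun i => (κ' i : ℕ)) = ∑ j, g j := by
    rw [sc, Fin.sum_univ_def]
  rw [hsc]
  have hch : ∀ κ : {κ : Cn d a // p κ}, Src κ.1 κ' → ∃ j,
      ∀ i, (κ' i : ℕ) = κ.1 i + (if i = j then 1 else 0) := fun κ h => h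
  by_cases hne : Nonempty (Fin d)
  · obtain ⟨j0⟩ := hne
    let J : {κ : Cn d a // p κ} → Fin d := fun κ =>
      if h : Src κ.1 κ' then (hch κ h).choose else j0
    have hJ : ∀ κ : {κ : Cn d a // p κ}, Src κ.1 κ' →
        ∀ i, (κ' i : ℕ) = κ.1 i + (if i = J κ then 1 else 0) := by
      intro κ h
      simp only [J, dif_pos h]
      exact (hch κ h).choose_spec
    have h1 : ∀ κ ∈ (Finset.univ.filter fun κ : {κ : Cn d a // p κ} => Src κ.1 κ'),
        Fintype.card (LC κ.1) = g (J κ) := by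
      intro κ hκ
      have hκ' := (Finset.mem_filter.1 hκ).2
      have h2 := hJ κ hκ'
      have h3 := hκ'.deg
      have h4 : Nat.beq (κ' (J κ) : ℕ) 0 = false := by
        rw [← Bool.not_eq_true, Nat.beq_eq, h2 (J κ), if_pos rfl]
        omega
      have h5 : (fun i => (κ' i : ℕ) - cond (Nat.beq i.1 (J κ).1) 1 0) =
          fun i => (κ.1 i : ℕ) := by
        funext i
        rw [h2 i]
        by_cases h : i = J κ
        · subst h
          rw [if_pos rfl, show Nat.beq (J κ).1 (J κ).1 = true from Nat.beq_refl _, cond_true]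
          omega
        · have h6 : Nat.beq i.1 (J κ).1 = false := by
            rw [← Bool.not_eq_true, Nat.beq_eq]
            exact fun h' => h (Fin.ext h')
          rw [if_neg h, h6, cond_false]
          omega
      have h7 : ∑ i, (κ.1 i : ℕ) = n := by omega
      rw [hg]
      simp only
      rw [h4, cond_false, h5, card_LC, h7]
    rw [Finset.sum_congr rfl h1]
    have hinj : Set.InjOn J (Finset.univ.filter fun κ : {κ : Cn d a // p κ} => Src κ.1 κ') := by
      intro κ hκ κ2 hκ2 h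
      have h2 := hJ κ (Finset.mem_filter.1 hκ).2
      have h3 := hJ κ2 (Finset.mem_filter.1 hκ2).2
      apply Subtype.ext
      funext i
      apply Fin.ext
      have h4 := h2 i
      have h5 := h3 i
      rw [h] at h4
      omega
    rw [← Finset.sum_image (f := g) hinj]
    exact Finset.sum_le_sum_of_subset (Finset.subset_univ _)
  · rw [not_nonempty_iff] at hne
    exfalso
    rw [Finset.sum_of_isEmpty] at hn
    omega

lemma cn2 {m : ℕ} (κ : Fin 2 → Fin m) : (fun i => (κ i : ℕ)) = ![(κ 0 : ℕ), (κ 1 : ℕ)] := by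
  funext i
  fin_cases i <;> rfl

lemma cn3 {m : ℕ} (κ : Fin 3 → Fin m) :
    (fun i => (κ i : ℕ)) = ![(κ 0 : ℕ), (κ 1 : ℕ), (κ 2 : ℕ)] := by
  funext i
  fin_cases i <;> rfl

/-- all contents with two letters and degree `n` -/
def ct2 (n : ℕ) : List (Fin 2 → ℕ) := (List.range (n + 1)).map fun x => ![x, n - x]

lemma mem_ct2 (n : ℕ) (κ : Fin 2 → ℕ) (h : ∑ i, κ i = n) : κ ∈ ct2 n := by
  rw [Fin.sum_univ_two] at h
  refine List.mem_map.2 ⟨κ 0, List.mem_range.2 (by omega), ?_⟩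
  funext i
  fin_cases i
  · rfl
  · show n - κ 0 = κ 1
    omega

/-- all contents with three letters and degree `n` -/
def ct3 (n : ℕ) : List (Fin 3 → ℕ) := (List.range (n + 1)).flatMap fun x =>
  (List.range (n - x + 1)).map fun y => ![x, y, n - x - y]

lemma mem_ct3 (n : ℕ) (κ : Fin 3 → ℕ) (h : ∑ i, κ i = n) : κ ∈ ct3 n := by
  rw [Fin.sum_univ_three] at h
  refine List.mem_flatMap.2 ⟨κ 0, List.mem_range.2 (by omega), List.mem_map.2
    ⟨κ 1, List.mem_range.2 (by omega), ?_⟩⟩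
  funext i
  fin_cases i
  · rfl
  · rfl
  · show n - κ 0 - κ 1 = κ 2
    omega

lemma all2 {a : ℕ} {f : ℕ → (Fin 2 → ℕ) → Bool} (m : ℕ)
    (h : ((List.range (m + 1)).all fun n => (ct2 n).all fun κ => f n κ) = true)
    (κ : Cn 2 a) (hκ : ∑ i, (κ i : ℕ) ≤ m) : f (∑ i, (κ i : ℕ)) (fun i => (κ i : ℕ)) = true := by
  rw [List.all_eq_true] at h
  have h1 := h _ (List.mem_range.2 (Nat.lt_succ_of_le hκ))
  rw [List.all_eq_true] at h1
  exact h1 _ (mem_ct2 _ _ rfl)

lemma all3 {a : ℕ} {f : ℕ → (Fin 3 → ℕ) → Bool} (m : ℕ)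
    (h : ((List.range (m + 1)).all fun n => (ct3 n).all fun κ => f n κ) = true)
    (κ : Cn 3 a) (hκ : ∑ i, (κ i : ℕ) ≤ m) : f (∑ i, (κ i : ℕ)) (fun i => (κ i : ℕ)) = true := by
  rw [List.all_eq_true] at h
  have h1 := h _ (List.mem_range.2 (Nat.lt_succ_of_le hκ))
  rw [List.all_eq_true] at h1
  exact h1 _ (mem_ct3 _ _ rfl)

lemma one2 {a : ℕ} {f : (Fin 2 → ℕ) → Bool} (m : ℕ) (h : ((ct2 m).all fun κ => f κ) = true)
    (κ : Cn 2 a) (hκ : ∑ i, (κ i : ℕ) = m) : f (fun i => (κ i : ℕ)) = true := by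
  rw [List.all_eq_true] at h
  exact h _ (mem_ct2 _ _ hκ)

lemma one3 {a : ℕ} {f : (Fin 3 → ℕ) → Bool} (m : ℕ) (h : ((ct3 m).all fun κ => f κ) = true)
    (κ : Cn 3 a) (hκ : ∑ i, (κ i : ℕ) = m) : f (fun i => (κ i : ℕ)) = true := by
  rw [List.all_eq_true] at h
  exact h _ (mem_ct3 _ _ hκ)

/-- (N1) -/
theorem num_two (d a : ℕ)
    (h : (d = 2 ∧ a = 3) ∨ (d = 2 ∧ a = 4) ∨ (d = 2 ∧ a = 5) ∨ (d = 3 ∧ a = 3))
    (κ : Cn d a) (hκ : ∑ i, (κ i : ℕ) ≤ a) : Fintype.card (LC κ) ≤ 2 := by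
  rw [card_LC]
  rcases h with ⟨rfl, rfl⟩ | ⟨rfl, rfl⟩ | ⟨rfl, rfl⟩ | ⟨rfl, rfl⟩
  · exact Nat.le_of_ble_eq_true
      (all2 (f := fun n κ => Nat.ble (cn 2 n κ) 2) 3 (by decide +kernel) κ hκ)
  · exact Nat.le_of_ble_eq_true
      (all2 (f := fun n κ => Nat.ble (cn 2 n κ) 2) 4 (by decide +kernel) κ hκ)
  · exact Nat.le_of_ble_eq_true
      (all2 (f := fun n κ => Nat.ble (cn 2 n κ) 2) 5 (by decide +kernel) κ hκ)
  · exact Nat.le_of_ble_eq_true
      (all3 (f := fun n κ => Nat.ble (cn 3 n κ) 2) 3 (by decide +kernel) κ hκ)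

lemma impB {a b : Bool} (h : (!a || b) = true) (ha : a = true) : b = true := by
  rw [ha] at h
  exact h

/-- (N2) -/
theorem num_deg (d a : ℕ)
    (h : (d = 2 ∧ a = 3) ∨ (d = 2 ∧ a = 4) ∨ (d = 2 ∧ a = 5) ∨ (d = 3 ∧ a = 3))
    (κ : Cn d a) (hκ : ∑ i, (κ i : ℕ) ≤ a) (h2 : Fintype.card (LC κ) = 2) :
    ∑ i, (κ i : ℕ) = a := by
  rw [card_LC, ← Nat.beq_eq] at h2
  rcases h with ⟨rfl, rfl⟩ | ⟨rfl, rfl⟩ | ⟨rfl, rfl⟩ | ⟨rfl, rfl⟩
  · exact Nat.eq_of_beq_eq_true (impB (all2 (f := fun n κ => !(Nat.beq (cn 2 n κ) 2) ||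
      Nat.beq n 3) 3 (by decide +kernel) κ hκ) h2)
  · exact Nat.eq_of_beq_eq_true (impB (all2 (f := fun n κ => !(Nat.beq (cn 2 n κ) 2) ||
      Nat.beq n 4) 4 (by decide +kernel) κ hκ) h2)
  · exact Nat.eq_of_beq_eq_true (impB (all2 (f := fun n κ => !(Nat.beq (cn 2 n κ) 2) ||
      Nat.beq n 5) 5 (by decide +kernel) κ hκ) h2)
  · exact Nat.eq_of_beq_eq_true (impB (all3 (f := fun n κ => !(Nat.beq (cn 3 n κ) 2) ||
      Nat.beq n 3) 3 (by decide +kernel) κ hκ) h2)

/-- (N3), no planes -/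
theorem num_none (a : ℕ) (h : a = 3 ∨ a = 4) (κ : Cn 2 a) (hκ : ∑ i, (κ i : ℕ) ≤ a) :
    Fintype.card (LC κ) ≠ 2 := by
  intro h2
  rw [card_LC, ← Nat.beq_eq] at h2
  rcases h with rfl | rfl
  · have h3 := impB (all2 (f := fun n κ => !(Nat.beq (cn 2 n κ) 2) || false) 3
      (by decide +kernel) κ hκ) h2
    exact Bool.false_ne_true h3
  · have h3 := impB (all2 (f := fun n κ => !(Nat.beq (cn 2 n κ) 2) || false) 4
      (by decide +kernel) κ hκ) h2
    exact Bool.false_ne_true h3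

/-- (N3), one plane -/
theorem num_one (κ : Cn 3 3) (hκ : ∑ i, (κ i : ℕ) ≤ 3) (h2 : Fintype.card (LC κ) = 2) :
    ∀ i, (κ i : ℕ) = 1 := by
  rw [card_LC, ← Nat.beq_eq] at h2
  have h3 := impB (all3 (f := fun n κ => !(Nat.beq (cn 3 n κ) 2) ||
    (List.finRange 3).all fun i => Nat.beq (κ i) 1) 3 (by decide +kernel) κ hκ) h2
  rw [List.all_eq_true] at h3
  exact fun i => Nat.eq_of_beq_eq_true (h3 i (List.mem_finRange i))

open Classical in
/-- (N4) -/
theorem num_top (d a : ℕ)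
    (h : (d = 2 ∧ a = 3) ∨ (d = 2 ∧ a = 4) ∨ (d = 2 ∧ a = 5) ∨ (d = 3 ∧ a = 3))
    (p : Cn d a → Prop) [Fintype {κ : Cn d a // p κ}] (κ' : Cn d a)
    (hκ : ∑ i, (κ' i : ℕ) = a + 2) :
    ∑ κ ∈ (Finset.univ.filter fun κ : {κ : Cn d a // p κ} => Src κ.1 κ'),
      Fintype.card (LC κ.1) ≤ Fintype.card (LC κ') + 1 := by
  refine (sum_src_le p κ' (a + 1) hκ).trans ?_
  rw [card_LC, hκ]
  rcases h with ⟨rfl, rfl⟩ | ⟨rfl, rfl⟩ | ⟨rfl, rfl⟩ | ⟨rfl, rfl⟩
  · exact Nat.le_of_ble_eq_true (one2 (f := fun κ => Nat.ble (sc 2 4 κ) (cn 2 5 κ + 1)) 5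
      (by decide +kernel) κ' hκ)
  · exact Nat.le_of_ble_eq_true (one2 (f := fun κ => Nat.ble (sc 2 5 κ) (cn 2 6 κ + 1)) 6
      (by decide +kernel) κ' hκ)
  · exact Nat.le_of_ble_eq_true (one2 (f := fun κ => Nat.ble (sc 2 6 κ) (cn 2 7 κ + 1)) 7
      (by decide +kernel) κ' hκ)
  · exact Nat.le_of_ble_eq_true (one3 (f := fun κ => Nat.ble (sc 3 4 κ) (cn 3 5 κ + 1)) 5
      (by decide +kernel) κ' hκ)

open Classical in
/-- (N4), no relations -/
theorem num_top_eq (a : ℕ) (h : a = 3 ∨ a = 5)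
    (p : Cn 2 a → Prop) [Fintype {κ : Cn 2 a // p κ}] (κ' : Cn 2 a)
    (hκ : ∑ i, (κ' i : ℕ) = a + 2) :
    ∑ κ ∈ (Finset.univ.filter fun κ : {κ : Cn 2 a // p κ} => Src κ.1 κ'),
      Fintype.card (LC κ.1) ≤ Fintype.card (LC κ') := by
  refine (sum_src_le p κ' (a + 1) hκ).trans ?_
  rw [card_LC, hκ]
  rcases h with rfl | rfl
  · exact Nat.le_of_ble_eq_true (one2 (f := fun κ => Nat.ble (sc 2 4 κ) (cn 2 5 κ)) 5
      (by decide +kernel) κ' hκ)
  · exact Nat.le_of_ble_eq_true (one2 (f := fun κ => Nat.ble (sc 2 6 κ) (cn 2 7 κ)) 7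
      (by decide +kernel) κ' hκ)

open Classical in
/-- (N5) -/
theorem num_mid (p : Cn 2 5 → Prop) [Fintype {κ : Cn 2 5 // p κ}] (κ' : Cn 2 5)
    (hκ : ∑ i, (κ' i : ℕ) = 6) :
    ∑ κ ∈ (Finset.univ.filter fun κ : {κ : Cn 2 5 // p κ} => Src κ.1 κ'),
      Fintype.card (LC κ.1) ≤ Fintype.card (LC κ') + 1 := by
  refine (sum_src_le p κ' 5 hκ).trans ?_
  rw [card_LC, hκ]
  exact Nat.le_of_ble_eq_true (one2 (f := fun κ => Nat.ble (sc 2 5 κ) (cn 2 6 κ + 1)) 6
      (by decide +kernel) κ' hκ)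

end Pos

end GradedTop
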