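import Pool.Agent.Lib.GradedPos.Def

/-!
# Structure constants of the Lyndon basis respect contents
-/

namespace GradedTop

namespace Pos

open Submodule Module GradedTop.Four GradedTop.Flag

/-- the letter `i` is multiplied by two -/
noncomputable def twistC (d : ℕ) (i : Fin d) :
    FreeLieAlgebra ℚ (Fin d) →ₗ⁅ℚ⁆ FreeLieAlgebra ℚ (Fin d) :=
  FreeLieAlgebra.lift ℚ fun j => (if j = i then (2 : ℚ) else 1) • FreeLieAlgebra.of ℚ j

lemma twistC_of {d : ℕ} (i j : Fin d) :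
    twistC d i (FreeLieAlgebra.of ℚ j) = (2 : ℚ) ^ ([j].count i) • FreeLieAlgebra.of ℚ j := by
  rw [twistC, FreeLieAlgebra.lift_of_apply, List.count_singleton]
  by_cases h : j = i
  · subst h; simp
  · simp [h]

lemma twistC_bq {d : ℕ} (i : Fin d) (w : List (Fin d)) (hw : IsLyn w) :
    twistC d i (bq ℚ w) = (2 : ℚ) ^ (w.count i) • bq ℚ w := by
  refine lyn_induction (P := fun w => twistC d i (bq ℚ w) = (2 : ℚ) ^ (w.count i) • bq ℚ w)
    ?_ ?_ w hw
  · intro x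
    rw [bq_single]
    exact twistC_of i x
  · intro u v hs _ _ _ h1 h2
    rw [bq_std ℚ hs, LieHom.map_lie, h1, h2, smul_lie, lie_smul, smul_smul, List.count_append,
      pow_add]

theorem Tq_perm {d : ℕ} (j : Fin d) (n : ℕ) (w' : Lyn d (n + 2)) (w : Lyn d (n + 1))
    (h : Tq j w'.1 w.1 ≠ 0) : w'.1.Perm (j :: w.1) := by
  rw [List.perm_iff_count]
  intro i
  have h1 := brk_R ℚ n w j
  have h2 := congrArg (twistC d i) h1
  rw [LieHom.map_lie, twistC_bq i w.1 w.2.1, twistC_of, smul_lie, lie_smul, smul_smul, ← pow_add,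
    h1] at h2
  have h3 : twistC d i (∑ w' : Lyn d (n + 2), ((Tq j w'.1 w.1 : ℤ) : ℚ) • bq ℚ w'.1) =
      ∑ w' : Lyn d (n + 2), ((Tq j w'.1 w.1 : ℤ) : ℚ) • ((2 : ℚ) ^ (w'.1.count i) • bq ℚ w'.1) := by
    change (twistC d i : FreeLieAlgebra ℚ (Fin d) →ₗ[ℚ] FreeLieAlgebra ℚ (Fin d)) _ = _
    rw [map_sum]
    refine Finset.sum_congr rfl fun x _ => ?_
    rw [map_smul]
    congr 1
    exact twistC_bq i x.1 x.2.1
  rw [h3, Finset.smul_sum, ← sub_eq_zero, ← Finset.sum_sub_distrib] at h2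
  have hind : LinearIndependent ℚ (fun x : Lyn d (n + 2) => bq ℚ x.1) :=
    (ind_bq ℚ (d := d)).comp (fun x : Lyn d (n + 2) => (⟨x.1, x.2.1⟩ : {w : List (Fin d) // IsLyn w}))
      (fun x y hxy => Subtype.ext (congrArg (fun z => z.1) hxy))
  have h4 := Fintype.linearIndependent_iff.1 hind
    (fun x => (2 : ℚ) ^ (w.1.count i + [j].count i) * (Tq j x.1 w.1 : ℚ) -
      (Tq j x.1 w.1 : ℚ) * (2 : ℚ) ^ (x.1.count i)) (by
      rw [← h2]
      refine Finset.sum_congr rfl fun x _ => ?_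
      rw [sub_smul, mul_smul, mul_smul]) w'
  have h5 : (Tq j w'.1 w.1 : ℚ) ≠ 0 := Int.cast_ne_zero.2 h
  have h6 : (2 : ℚ) ^ (w.1.count i + [j].count i) = (2 : ℚ) ^ (w'.1.count i) := by
    have h7 : (Tq j w'.1 w.1 : ℚ) * ((2 : ℚ) ^ (w.1.count i + [j].count i)) =
      (Tq j w'.1 w.1 : ℚ) * (2 : ℚ) ^ (w'.1.count i) := by
      rw [mul_comm, ← sub_eq_zero]
      exact h4
    exact mul_left_cancel₀ h5 h7
  have h8 : w.1.count i + [j].count i = w'.1.count i :=
    (pow_right_injective₀ (by norm_num : (0 : ℚ) < 2) (by norm_num)) h6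
  rw [← h8, List.count_singleton, List.count_cons]

end Pos

end GradedTop
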