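import Pool.Agent.Lib.GradedFour.Elim
import Pool.Agent.Lib.GradedFlag.LynData

/-!
# Complete flags of multigraded ideals: definitions
-/

namespace GradedTop

namespace Pos

open Submodule Module GradedTop.Four GradedTop.Flag

/-! ### Filtrations of one space -/

/-- Decreasing filtrations with prescribed dimensions. -/
def Sq (F : Type) [Field F] (B : Type) (r : ℕ) (n : Fin (r + 1) → ℕ) : Type :=
  {N : Fin (r + 1) → Submodule F (B → F) // Antitone N ∧ ∀ t, finrank F (N t) = n t}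

/-- The dimensions drop from `m` to `0` in steps of at most one. -/
structure AdmDim (m r : ℕ) (n : Fin (r + 1) → ℕ) : Prop where
  zero : n 0 = m
  last : n (Fin.last r) = 0
  step : ∀ t : Fin r, n t.castSucc = n t.succ ∨ n t.castSucc = n t.succ + 1

/-! ### Systems in three blocks of weights -/

section

variable (F : Type) [Field F] {J1 J2 J3 : Type} (B1 : J1 → Type) (B2 : J2 → Type)
  (B3 : J3 → Type)

/-- A system in three blocks of weights: the weights in `J1` are the low ones, `J2` are the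
weights of the degree before the last one, `J3` those of the last degree. -/
structure S3 where
  f11 : ∀ i i' : J1, (B1 i → F) →ₗ[F] (B1 i' → F)
  f12 : ∀ (i : J1) (i' : J2), (B1 i → F) →ₗ[F] (B2 i' → F)
  f23 : ∀ (i : J2) (i' : J3), (B2 i → F) →ₗ[F] (B3 i' → F)

end

section

variable {F : Type} [Field F] {J1 J2 J3 : Type} {B1 : J1 → Type} {B2 : J2 → Type}
  {B3 : J3 → Type}

/-- Filtrations by multigraded ideals. -/
structure S3.IsFil (S : S3 F B1 B2 B3) (r : ℕ) (N1 : Fin (r + 1) → ∀ i, Submodule F (B1 i → F))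
    (N2 : Fin (r + 1) → ∀ i, Submodule F (B2 i → F))
    (N3 : Fin (r + 1) → ∀ i, Submodule F (B3 i → F)) : Prop where
  a1 : Antitone N1
  a2 : Antitone N2
  a3 : Antitone N3
  s11 : ∀ t i i', (N1 t i).map (S.f11 i i') ≤ N1 t i'
  s12 : ∀ t i i', (N1 t i).map (S.f12 i i') ≤ N2 t i'
  s23 : ∀ t i i', (N2 t i).map (S.f23 i i') ≤ N3 t i'

/-- Complete flags of multigraded ideals. -/
def S3.Fl [Fintype J1] [Fintype J2] [Fintype J3] (S : S3 F B1 B2 B3) (r : ℕ) : Type :=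
  {N : (Fin (r + 1) → ∀ i, Submodule F (B1 i → F)) ×
      (Fin (r + 1) → ∀ i, Submodule F (B2 i → F)) ×
      (Fin (r + 1) → ∀ i, Submodule F (B3 i → F)) //
    S.IsFil r N.1 N.2.1 N.2.2 ∧ ∀ t, ∑ i, finrank F (N.1 t i) + ∑ i, finrank F (N.2.1 t i) +
      ∑ i, finrank F (N.2.2 t i) + (t : ℕ) = r}

/-- Filtrations by multigraded ideals with prescribed dimensions. -/
def S3.FlD (S : S3 F B1 B2 B3) (r : ℕ) (n1 : J1 → Fin (r + 1) → ℕ)
    (n2 : J2 → Fin (r + 1) → ℕ) (n3 : J3 → Fin (r + 1) → ℕ) : Type :=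
  {N : (Fin (r + 1) → ∀ i, Submodule F (B1 i → F)) ×
      (Fin (r + 1) → ∀ i, Submodule F (B2 i → F)) ×
      (Fin (r + 1) → ∀ i, Submodule F (B3 i → F)) //
    S.IsFil r N.1 N.2.1 N.2.2 ∧ (∀ t i, finrank F (N.1 t i) = n1 i t) ∧
      (∀ t i, finrank F (N.2.1 t i) = n2 i t) ∧ ∀ t i, finrank F (N.2.2 t i) = n3 i t}

/-- Filtrations of the two lower blocks with prescribed dimensions and a condition `Z` on the
second block. -/
def S3.Mid (S : S3 F B1 B2 B3) (r : ℕ) (n1 : J1 → Fin (r + 1) → ℕ)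
    (n2 : J2 → Fin (r + 1) → ℕ) (Z : (Fin (r + 1) → ∀ i, Submodule F (B2 i → F)) → Prop) : Type :=
  {N : (Fin (r + 1) → ∀ i, Submodule F (B1 i → F)) ×
      (Fin (r + 1) → ∀ i, Submodule F (B2 i → F)) //
    (Antitone N.1 ∧ Antitone N.2 ∧ (∀ t i i', (N.1 t i).map (S.f11 i i') ≤ N.1 t i') ∧
      ∀ t i i', (N.1 t i).map (S.f12 i i') ≤ N.2 t i') ∧
    (∀ t i, finrank F (N.1 t i) = n1 i t) ∧ (∀ t i, finrank F (N.2 t i) = n2 i t) ∧ Z N.2}

/-- The weights of the first block with a plane. -/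
abbrev Pl (B1 : J1 → Type) [∀ i, Fintype (B1 i)] : Type := {i : J1 // Fintype.card (B1 i) = 2}

/-- Coordinates of a plane. -/
noncomputable def el (F : Type) [Field F] (B1 : J1 → Type) [∀ i, Fintype (B1 i)] (s : Pl B1) :
    (B1 s.1 → F) ≃ₗ[F] (Fin 2 → F) :=
  LinearEquiv.funCongrLeft F F (Fintype.equivFinOfCardEq s.2).symm

/-- The family of subspaces of the first block with dimensions `n` and lines `l`. -/
noncomputable def famL [∀ i, Fintype (B1 i)] (n : J1 → ℕ) (l : Pl B1 → Ln F) (i : J1) :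
    Submodule F (B1 i → F) :=
  if h : Fintype.card (B1 i) = 2 ∧ n i = 1 then
    (l ⟨i, h.1⟩).1.comap (el F B1 ⟨i, h.1⟩ : (B1 i → F) →ₗ[F] (Fin 2 → F))
  else if n i = 0 then ⊥ else ⊤

/-- The hypotheses of the positivity theorem. -/
structure S3.Good [∀ i, Fintype (B1 i)] (S : S3 F B1 B2 B3) (P : J3 → Finset J2)
    (δ : J3 → Prop) (k : ∀ (_ : J3) (i : J2), B2 i → F) : Prop where
  two : ∀ i, Fintype.card (B1 i) ≤ 2
  pl : ∀ i i', Fintype.card (B1 i) = 2 → S.f11 i i' = 0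
  ord : ∃ ord : J1 → ℕ, Function.Injective ord ∧ ∀ i i', S.f11 i i' ≠ 0 → ord i < ord i'
  top : ∀ (i' : J3) (N : ∀ i, Submodule F (B2 i → F)),
    (¬ (δ i' ∧ ∀ i ∈ P i', k i' i ∈ N i) →
      finrank F ((⨆ i, (N i).map (S.f23 i i') : Submodule F (B3 i' → F))) =
        ∑ i ∈ P i', finrank F (N i)) ∧
    ((δ i' ∧ ∀ i ∈ P i', k i' i ∈ N i) →
      finrank F ((⨆ i, (N i).map (S.f23 i i') : Submodule F (B3 i' → F))) + 1 =
        ∑ i ∈ P i', finrank F (N i))
  closed : ∀ (i' : J2) (n : J1 → ℕ) (Y : Set J3), (∀ y ∈ Y, δ y) → ∀ s : ℕ,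
    IsCl {l : Pl B1 → Ln F | finrank F
      (((⨆ i, (famL n l i).map (S.f12 i i')) ⊔ span F {v | ∃ y ∈ Y, i' ∈ P y ∧ v = k y i'} :
        Submodule F (B2 i' → F))) ≤ s}

end

/-! ### The system of the free nilpotent Lie algebra -/

/-- Contents of words. -/
abbrev Cn (d a : ℕ) : Type := Fin d → Fin (a + 3)

/-- Contents of degree at most `a`. -/
abbrev C1 (d a : ℕ) : Type := {κ : Cn d a // ∑ i, (κ i : ℕ) ≤ a}

/-- Contents of degree `a + 1`. -/
abbrev C2 (d a : ℕ) : Type := {κ : Cn d a // ∑ i, (κ i : ℕ) = a + 1}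

/-- Contents of degree `a + 2`. -/
abbrev C3 (d a : ℕ) : Type := {κ : Cn d a // ∑ i, (κ i : ℕ) = a + 2}

/-- Lyndon words of a given content. -/
def LC {d a : ℕ} (κ : Cn d a) : Type :=
  {w : List (Fin d) // IsLyn w ∧ ∀ i, w.count i = (κ i : ℕ)}

lemma length_LC {d a : ℕ} (κ : Cn d a) (w : LC κ) : w.1.length = ∑ i, (κ i : ℕ) := by
  have h : ∀ i, w.1.count i = (κ i : ℕ) := w.2.2
  rw [Finset.sum_congr rfl fun i _ => (h i).symm]
  exact (List.sum_toFinset_count_eq_length w.1).symm ▸ (by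
    refine Finset.sum_subset (Finset.subset_univ _) ?_
    intro x _ hx
    exact List.count_eq_zero.2 fun hm => hx (List.mem_toFinset.2 hm))

instance {d a : ℕ} (κ : Cn d a) : Finite (LC κ) := by
  have : Finite {w : List (Fin d) | w.length ≤ ∑ i, (κ i : ℕ)} := (finite_words d _).to_subtype
  exact Finite.of_injective
    (fun w => (⟨w.1, (length_LC κ w).le⟩ : {w : List (Fin d) | w.length ≤ ∑ i, (κ i : ℕ)}))
    (fun w w' h => Subtype.ext (congrArg (fun x => x.1) h))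

noncomputable instance {d a : ℕ} (κ : Cn d a) : Fintype (LC κ) := Fintype.ofFinite _

/-- The bracket with the generators, from content `κ` to content `κ'`. -/
noncomputable def fL (F : Type) [Field F] {d a : ℕ} (κ κ' : Cn d a) :
    (LC κ → F) →ₗ[F] (LC κ' → F) :=
  ∑ j : Fin d, if ∀ i, (κ' i : ℕ) = κ i + (if i = j then 1 else 0) then
    tl F (fun (x : LC κ') (y : LC κ) => Tq j x.1 y.1) else 0

/-- The system of `f_{a+2,d}`. -/
noncomputable def SL (F : Type) [Field F] (d a : ℕ) :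
    S3 F (fun κ : C1 d a => LC κ.1) (fun κ : C2 d a => LC κ.1) (fun κ : C3 d a => LC κ.1) where
  f11 κ κ' := fL F κ.1 κ'.1
  f12 κ κ' := fL F κ.1 κ'.1
  f23 κ κ' := fL F κ.1 κ'.1

end Pos

end GradedTop
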