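import Pool.Agent.Lib.GradedPos.Cnt32
import Pool.Agent.Lib.GradedPos.Content

/-!
# Corollary P, module P7, part 2: the brackets span (helper32)
-/

namespace GradedTop

namespace Pos

open Submodule Module GradedTop.Four GradedTop.Flag

lemma fL_apply (F : Type) [Field F] {d a : ℕ} {κ κ' : Cn d a} {j : Fin d}
    (hj : ∀ i, (κ' i : ℕ) = κ i + (if i = j then 1 else 0)) :
    fL F κ κ' = tl F (fun (x : LC κ') (y : LC κ) => Tq j x.1 y.1) := by
  unfold fL
  rw [Finset.sum_eq_single j]
  · rw [if_pos hj]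
  · intro j' _ hne
    rw [if_neg]
    intro h
    have h1 := h j'
    have h2 := hj j'
    rw [if_pos rfl] at h1
    rw [if_neg hne] at h2
    omega
  · intro h
    exact absurd (Finset.mem_univ j) h

lemma tl_single (F : Type) [Field F] {d a : ℕ} {κ κ' : Cn d a} [DecidableEq (LC κ)] (j : Fin d)
    (w : LC κ) (v : LC κ') :
    tl F (fun (x : LC κ') (y : LC κ) => Tq j x.1 y.1) (Pi.single w 1) v =
      ((Tq j v.1 w.1 : ℤ) : F) := by
  refine (tl_apply (A := F) (fun (x : LC κ') (y : LC κ) => Tq j x.1 y.1) (Pi.single w 1) v).trans ?_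
  refine (Finset.sum_eq_single w ?_ ?_).trans ?_
  · intro y _ hy
    rw [Pi.single_eq_of_ne hy, mul_zero]
  · intro h
    exact absurd (Finset.mem_univ _) h
  · rw [Pi.single_eq_same, mul_one]

/-- a functional with given values on the Lyndon basis -/
lemma exists_functional (F : Type) [Field F] {d : ℕ} (y : {w : List (Fin d) // IsLyn w} → F) :
    ∃ ψ : FreeLieAlgebra F (Fin d) →ₗ[F] F, ∀ w, ψ (bq F w.1) = y w := by
  have hli := ind_bq F (d := d)
  let f : span F (Set.range fun w : {w : List (Fin d) // IsLyn w} => bq F w.1) →ₗ[F] F :=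
    (Finsupp.linearCombination F y) ∘ₗ hli.repr
  obtain ⟨g, hg⟩ := LinearMap.exists_extend f
  refine ⟨g, fun w => ?_⟩
  have h1 := LinearMap.congr_fun hg ⟨bq F w.1, subset_span ⟨w, rfl⟩⟩
  rw [LinearMap.comp_apply, Submodule.subtype_apply] at h1
  rw [h1]
  show Finsupp.linearCombination F y (hli.repr _) = _
  rw [hli.repr_eq_single w _ rfl, Finsupp.linearCombination_single, one_smul]

/-- the brackets from the preceding contents span the space of content `κ'` -/
theorem fL_span_of (F : Type) [Field F] (d a : ℕ)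
    (Tq_perm : ∀ (j : Fin d) (n : ℕ) (w' : Lyn d (n + 2)) (w : Lyn d (n + 1)),
      Tq j w'.1 w.1 ≠ 0 → w'.1.Perm (j :: w.1))
    (κ' : Cn d a) (h : 2 ≤ ∑ i, (κ' i : ℕ)) :
    (⨆ κ : Cn d a, LinearMap.range (fL F κ κ') : Submodule F (LC κ' → F)) = ⊤ := by
  classical
  by_contra hne
  obtain ⟨φ, hφ0, hφ⟩ := Submodule.exists_le_ker_of_lt_top _ (lt_top_iff_ne_top.2 hne)
  have hφr : ∀ (κ : Cn d a) (x : LC κ → F), φ (fL F κ κ' x) = 0 := by
    intro κ x
    exact hφ (le_iSup (fun κ : Cn d a => LinearMap.range (fL F κ κ')) κ ⟨x, rfl⟩)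
  obtain ⟨n, hn⟩ : ∃ n, ∑ i, (κ' i : ℕ) = n + 2 := ⟨_, (Nat.sub_add_cancel h).symm⟩
  obtain ⟨ψ, hψ⟩ := exists_functional F (d := d) (fun w =>
    if hw : ∀ i, w.1.count i = (κ' i : ℕ) then
      φ (Pi.single (⟨w.1, w.2, hw⟩ : LC κ') 1) else 0)
  have hφs : ∀ x : LC κ' → F, φ x = ∑ v, x v * φ (Pi.single v 1) := by
    intro x
    conv_lhs => rw [← Finset.univ_sum_single x]
    rw [map_sum]
    refine Finset.sum_congr rfl fun v _ => ?_
    have h1 : Pi.single v (x v) = x v • (Pi.single v (1 : F) : LC κ' → F) := by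
      rw [← Pi.single_smul, smul_eq_mul, mul_one]
    rw [h1, map_smul, smul_eq_mul]
  -- the functional kills the brackets
  have hb : ∀ (w : Lyn d (n + 1)) (j : Fin d), ψ ⁅bq F w.1, FreeLieAlgebra.of F j⁆ = 0 := by
    intro w j
    rw [brk_R F n w j, map_sum]
    by_cases hc : ∀ i, (κ' i : ℕ) = w.1.count i + (if i = j then 1 else 0)
    · have hlt : ∀ i, w.1.count i < a + 3 := by
        intro i
        have h1 := hc i
        have h2 := (κ' i).2
        omega
      let κ : Cn d a := fun i => ⟨w.1.count i, hlt i⟩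
      have h1 := hφr κ (Pi.single (⟨w.1, w.2.1, fun i => rfl⟩ : LC κ) 1)
      rw [fL_apply F (κ := κ) (κ' := κ') hc, hφs] at h1
      rw [← h1]
      symm
      have hlen : ∀ v : LC κ', IsLyn v.1 ∧ v.1.length = n + 2 :=
        fun v => ⟨v.2.1, by rw [length_LC, hn]⟩
      refine Finset.sum_of_injOn (fun v : LC κ' => (⟨v.1, hlen v⟩ : Lyn d (n + 2))) ?_ ?_ ?_ ?_
      · intro v _ v' _ hv
        have h2 : v.1 = v'.1 := congrArg (fun x : Lyn d (n + 2) => x.1) hv
        exact Subtype.ext h2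
      · intro v _
        exact Finset.mem_coe.2 (Finset.mem_univ _)
      · intro w' _ hw'
        rw [map_smul, hψ ⟨w'.1, w'.2.1⟩, dif_neg, smul_zero]
        intro h2
        exact hw' ⟨⟨w'.1, w'.2.1, h2⟩, Finset.mem_coe.2 (Finset.mem_univ _), rfl⟩
      · intro v _
        rw [map_smul, hψ ⟨v.1, v.2.1⟩, dif_pos v.2.2, smul_eq_mul]
        exact congrArg (· * φ (Pi.single v 1)) (tl_single F j ⟨w.1, w.2.1, fun i => rfl⟩ v)
    · refine Finset.sum_eq_zero fun w' _ => ?_
      rw [map_smul, hψ ⟨w'.1, w'.2.1⟩]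
      by_cases hT : Tq j w'.1 w.1 = 0
      · rw [hT, Int.cast_zero, zero_smul]
      · have hp := Tq_perm j n w' w hT
        rw [dif_neg, smul_zero]
        intro h1
        apply hc
        intro i
        rw [← h1 i, hp.count_eq, List.count_cons]
        by_cases hij : i = j
        · subst hij
          rw [if_pos rfl, beq_self_eq_true, if_pos rfl]
        · rw [if_neg hij, beq_false_of_ne (Ne.symm hij)]
          rfl
  have hcomp : ∀ z ∈ comp F d (n + 2), ψ z = 0 := by
    intro z hz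
    refine span_induction ?_ (map_zero ψ) ?_ ?_ hz
    · rintro _ ⟨u, hu, j, rfl⟩
      rw [comp_eq_Sp] at hu
      refine span_induction (p := fun u _ => ψ ⁅u, FreeLieAlgebra.of F j⁆ = 0) ?_ ?_ ?_ ?_ hu
      · rintro _ ⟨w, rfl⟩
        exact hb w j
      · rw [zero_lie, map_zero]
      · intro x y _ _ hx hy
        rw [add_lie, map_add, hx, hy, add_zero]
      · intro c x _ hx
        rw [smul_lie, map_smul, hx, smul_zero]
    · intro x y _ _ hx hy
      rw [map_add, hx, hy, add_zero]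
    · intro c x _ hx
      rw [map_smul, hx, smul_zero]
  have h0 : ∀ v : LC κ', φ (Pi.single v 1) = 0 := by
    intro v
    have h1 := hψ ⟨v.1, v.2.1⟩
    rw [dif_pos v.2.2] at h1
    have h2 := bq_mem_comp F v.1 v.2.1
    rw [length_LC, hn] at h2
    exact h1.symm.trans (hcomp _ h2)
  apply hφ0
  ext x
  rw [LinearMap.comp_apply, LinearMap.zero_comp, LinearMap.zero_apply]
  exact h0 x

/-- the brackets from the preceding contents span the space of content `κ'` -/
theorem fL_span (F : Type) [Field F] (d a : ℕ) (κ' : Cn d a) (h : 2 ≤ ∑ i, (κ' i : ℕ)) :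
    (⨆ κ : Cn d a, LinearMap.range (fL F κ κ') : Submodule F (LC κ' → F)) = ⊤ :=
  fL_span_of F d a (fun j n w' w h => Tq_perm j n w' w h) κ' h

end Pos

end GradedTop
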