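import Pool.Agent.Lib.GradedPos.Blk
import Pool.Agent.Lib.GradedPos.Content
import Pool.Agent.Lib.GradedFlag.CoordField

/-!
# From complete flags of graded ideals to complete flags of multigraded ideals
-/

namespace GradedTop

namespace Pos

open Submodule Module GradedTop.Four GradedTop.Flag

/-! ### Codes of contents -/

/-- the content as a number -/
def code {d a : ℕ} (κ : Cn d a) : ℕ := ∑ i, (κ i : ℕ) * (a + 3) ^ (i : ℕ)

lemma code_eq {d a : ℕ} (κ : Cn d a) : code κ = (finFunctionFinEquiv κ : ℕ) :=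
  (finFunctionFinEquiv_apply κ).symm

lemma code_inj {d a : ℕ} : Function.Injective (code : Cn d a → ℕ) := by
  intro κ κ' h
  rw [code_eq, code_eq] at h
  exact finFunctionFinEquiv.injective (Fin.ext h)

lemma code_lt {d a : ℕ} (κ : Cn d a) : code κ < (a + 3) ^ d := by
  rw [code_eq]
  exact (finFunctionFinEquiv κ).2

/-- the content of a word as a number -/
def wt {d : ℕ} (a : ℕ) (w : List (Fin d)) : ℕ := ∑ i, w.count i * (a + 3) ^ (i : ℕ)

lemma wt_cons {d : ℕ} (a : ℕ) (j : Fin d) (w : List (Fin d)) :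
    wt a (j :: w) = wt a w + (a + 3) ^ (j : ℕ) := by
  unfold wt
  have h : ∀ i : Fin d, (j :: w).count i * (a + 3) ^ (i : ℕ) =
      w.count i * (a + 3) ^ (i : ℕ) + if i = j then (a + 3) ^ (i : ℕ) else 0 := by
    intro i
    by_cases hi : i = j
    · subst hi
      rw [List.count_cons_self, if_pos rfl]; ring
    · rw [List.count_cons_of_ne (Ne.symm hi), if_neg hi, add_zero]
  rw [Finset.sum_congr rfl fun i _ => h i, Finset.sum_add_distrib]
  simp

lemma wt_perm {d : ℕ} (a : ℕ) {w w' : List (Fin d)} (h : w.Perm w') : wt a w = wt a w' :=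
  Finset.sum_congr rfl fun i _ => by rw [h.count_eq]

lemma wt_LC {d a : ℕ} (κ : Cn d a) (w : LC κ) : wt a w.1 = code κ :=
  Finset.sum_congr rfl fun i _ => by rw [w.2.2 i]

/-! ### Words by contents -/

/-- words ordered by their contents -/
noncomputable def eqv {d a : ℕ} {I : Type} (Q : List (Fin d) → Prop) (cn : I → Cn d a)
    (hcn : Function.Injective cn) (h1 : ∀ i (b : LC (cn i)), Q b.1)
    (h2 : ∀ w, Q w → ∃ i, ∀ l, w.count l = (cn i l : ℕ)) :
    {w : List (Fin d) // IsLyn w ∧ Q w} ≃ Σ i : I, LC (cn i) :=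
  (Equiv.ofBijective (fun s : Σ i : I, LC (cn i) =>
    (⟨s.2.1, s.2.2.1, h1 _ _⟩ : {w : List (Fin d) // IsLyn w ∧ Q w}))
    ⟨by
      rintro ⟨i, b⟩ ⟨i', b'⟩ h
      have h3 : b.1 = b'.1 := congrArg (fun x => x.1) h
      have h4 : i = i' := hcn (funext fun l => Fin.ext (by rw [← b.2.2 l, ← b'.2.2 l, h3]))
      subst h4
      exact congrArg _ (Subtype.ext h3), by
      rintro ⟨w, hw, hQ⟩
      obtain ⟨i, hi⟩ := h2 w hQ
      exact ⟨⟨i, ⟨w, hw, hi⟩⟩, rfl⟩⟩).symm

lemma eqv_symm {d a : ℕ} {I : Type} (Q : List (Fin d) → Prop) (cn : I → Cn d a)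
    (hcn : Function.Injective cn) (h1 : ∀ i (b : LC (cn i)), Q b.1)
    (h2 : ∀ w, Q w → ∃ i, ∀ l, w.count l = (cn i l : ℕ)) (i : I) (b : LC (cn i)) :
    ((eqv Q cn hcn h1 h2).symm ⟨i, b⟩).1 = b.1 := rfl

lemma eqv_count {d a : ℕ} {I : Type} (Q : List (Fin d) → Prop) (cn : I → Cn d a)
    (hcn : Function.Injective cn) (h1 : ∀ i (b : LC (cn i)), Q b.1)
    (h2 : ∀ w, Q w → ∃ i, ∀ l, w.count l = (cn i l : ℕ))
    (x : {w : List (Fin d) // IsLyn w ∧ Q w}) :
    wt a x.1 = code (cn (eqv Q cn hcn h1 h2 x).1) := by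
  obtain ⟨s, rfl⟩ := (eqv Q cn hcn h1 h2).symm.surjective x
  rw [Equiv.apply_symm_apply]
  exact wt_LC _ s.2

/-- contents of degree at most `a + 1` -/
def cn12 {d a : ℕ} : C1 d a ⊕ C2 d a → Cn d a := Sum.elim (fun κ => κ.1) (fun κ => κ.1)

lemma cn12_inj {d a : ℕ} : Function.Injective (cn12 : C1 d a ⊕ C2 d a → Cn d a) := by
  rintro (⟨κ, h⟩ | ⟨κ, h⟩) (⟨κ', h'⟩ | ⟨κ', h'⟩) h3
  · have h4 : κ = κ' := h3
    subst h4; rfl
  · have h4 : κ = κ' := h3
    subst h4; omega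
  · have h4 : κ = κ' := h3
    subst h4; omega
  · have h4 : κ = κ' := h3
    subst h4; rfl

lemma count_sum {d : ℕ} (w : List (Fin d)) : ∑ i, w.count i = w.length := by
  exact (List.sum_toFinset_count_eq_length w) ▸ (by
    refine (Finset.sum_subset (Finset.subset_univ _) ?_).symm
    intro x _ hx
    exact List.count_eq_zero.2 fun hm => hx (List.mem_toFinset.2 hm))

/-- words of length at most `a + 1` by contents -/
noncomputable def e12 (d a : ℕ) : LynLe d (a + 1) ≃ Σ i : C1 d a ⊕ C2 d a, LC (cn12 i) :=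
  eqv (fun w => w.length ≤ a + 1) cn12 cn12_inj (by
    rintro (⟨κ, h⟩ | ⟨κ, h⟩) b
    · have h1 := length_LC κ b
      change b.1.length ≤ a + 1
      omega
    · have h1 := length_LC κ b
      change b.1.length ≤ a + 1
      omega) (by
    intro w hw
    have h1 := count_sum w
    have h2 : ∀ i, w.count i < a + 3 := fun i => by
      have := List.count_le_length (a := i) (l := w)
      omega
    by_cases h : w.length ≤ a
    · exact ⟨Sum.inl ⟨fun i => ⟨w.count i, h2 i⟩, by simpa [h1] using h⟩, fun l => rfl⟩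
    · exact ⟨Sum.inr ⟨fun i => ⟨w.count i, h2 i⟩, by simpa [h1] using by omega⟩, fun l => rfl⟩)

/-- words of length `a + 2` by contents -/
noncomputable def e3 (d a : ℕ) : Lyn d (a + 2) ≃ Σ i : C3 d a, LC i.1 :=
  eqv (fun w => w.length = a + 2) (fun κ : C3 d a => κ.1) Subtype.val_injective (by
    rintro ⟨κ, h⟩ b
    have h1 := length_LC κ b
    change b.1.length = a + 2
    omega) (by
    intro w hw
    have h1 := count_sum w
    have h2 : ∀ i, w.count i < a + 3 := fun i => by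
      have := List.count_le_length (a := i) (l := w)
      omega
    exact ⟨⟨fun i => ⟨w.count i, h2 i⟩, by simpa [h1] using hw⟩, fun l => rfl⟩)

theorem card_all (d a : ℕ) : Fintype.card (LynLe d (a + 1)) + Fintype.card (Lyn d (a + 2)) =
    Fintype.card (Σ κ : C1 d a, LC κ.1) + Fintype.card (Σ κ : C2 d a, LC κ.1) +
      Fintype.card (Σ κ : C3 d a, LC κ.1) := by
  rw [Fintype.card_congr (e12 d a), Fintype.card_congr (e3 d a)]
  congr 1
  rw [Fintype.card_sigma, Fintype.sum_sum_type, Fintype.card_sigma, Fintype.card_sigma]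
  rfl

/-! ### Blocks of the brackets -/

/-- the bracket with one generator between two contents -/
noncomputable def blk (F : Type) [Field F] {d a : ℕ} (j : Fin d) (κ κ' : Cn d a) :
    (LC κ → F) →ₗ[F] (LC κ' → F) :=
  if ∀ i, (κ' i : ℕ) = κ i + (if i = j then 1 else 0) then
    tl F (fun (x : LC κ') (y : LC κ) => Tq j x.1 y.1) else 0

lemma fL_blk (F : Type) [Field F] {d a : ℕ} (κ κ' : Cn d a) : fL F κ κ' = ∑ j, blk F j κ κ' := rfl

lemma blk_or (F : Type) [Field F] {d a : ℕ} (j : Fin d) (κ κ' : Cn d a) :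
    blk F j κ κ' = 0 ∨ blk F j κ κ' = fL F κ κ' := by
  by_cases h : ∀ i, (κ' i : ℕ) = κ i + (if i = j then 1 else 0)
  · right
    rw [fL_blk, Finset.sum_eq_single j]
    · intro j' _ hj
      unfold blk
      rw [if_neg]
      intro h'
      have h1 := h j
      have h2 := h' j
      rw [if_pos rfl] at h1
      rw [if_neg (Ne.symm hj)] at h2
      omega
    · intro h; exact absurd (Finset.mem_univ j) h
  · left
    exact if_neg h

lemma blk_deg (F : Type) [Field F] {d a : ℕ} (j : Fin d) (κ κ' : Cn d a)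
    (h : ∑ i, (κ' i : ℕ) ≠ ∑ i, (κ i : ℕ) + 1) : blk F j κ κ' = 0 := by
  refine if_neg fun h' => h ?_
  rw [Finset.sum_congr rfl fun i _ => h' i, Finset.sum_add_distrib]
  simp

lemma fL_deg (F : Type) [Field F] {d a : ℕ} (κ κ' : Cn d a)
    (h : ∑ i, (κ' i : ℕ) ≠ ∑ i, (κ i : ℕ) + 1) : fL F κ κ' = 0 := by
  rw [fL_blk]
  exact Finset.sum_eq_zero fun j _ => blk_deg F j κ κ' h

lemma map_blk {F : Type} [Field F] {d a : ℕ} (κ κ' : Cn d a) (N : Submodule F (LC κ → F))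
    (N' : Submodule F (LC κ' → F)) :
    (∀ j, N.map (blk F j κ κ') ≤ N') ↔ N.map (fL F κ κ') ≤ N' := by
  constructor
  · rintro h _ ⟨v, hv, rfl⟩
    rw [fL_blk, LinearMap.sum_apply]
    exact N'.sum_mem fun j _ => h j ⟨v, hv, rfl⟩
  · intro h j
    rcases blk_or F j κ κ' with h1 | h1
    · rw [h1, Submodule.map_zero]; exact bot_le
    · rw [h1]; exact h

lemma Tq_ne {d : ℕ} (j : Fin d) (w' w : List (Fin d)) (hw' : IsLyn w') (hw : IsLyn w)
    (hl : w'.length = w.length + 1) (h : Tq j w' w ≠ 0) : w'.Perm (j :: w) := by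
  obtain ⟨n, hn⟩ : ∃ n, w.length = n + 1 :=
    ⟨w.length - 1, by have := List.length_pos_of_ne_nil hw.1; omega⟩
  exact Tq_perm j n ⟨w', hw', by omega⟩ ⟨w, hw, hn⟩ h

lemma block_eq {F : Type} [Field F] {d a : ℕ} {J J' I I' : Type} [Fintype J] [Fintype I]
    (cn : I → Cn d a) (cn' : I' → Cn d a) (e : J ≃ Σ i, LC (cn i)) (e' : J' ≃ Σ i, LC (cn' i))
    (T : Matrix J' J ℤ) (j : Fin d)
    (hT : ∀ i (b : LC (cn i)) i' (b' : LC (cn' i')), T (e'.symm ⟨i', b'⟩) (e.symm ⟨i, b⟩) =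
      if b'.1.length = b.1.length + 1 then Tq j b'.1 b.1 else 0) (i : I) (i' : I') :
    bres e' i' ∘ₗ tl F T ∘ₗ bext e i = blk F j (cn i) (cn' i') := by
  refine LinearMap.ext fun v => ?_
  funext b'
  change tl F T (bext e i v) (e'.symm ⟨i', b'⟩) = _
  rw [tl_apply, ← Equiv.sum_comp e.symm, Fintype.sum_sigma, Finset.sum_eq_single i]
  · rw [Finset.sum_congr rfl fun b _ => by rw [bext_apply_symm, hT]]
    unfold blk
    by_cases h : ∀ l, (cn' i' l : ℕ) = cn i l + (if l = j then 1 else 0)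
    · rw [if_pos h, tl_apply]
      refine Finset.sum_congr rfl fun b _ => ?_
      have h1 : b'.1.length = b.1.length + 1 := by
        rw [length_LC, length_LC, Finset.sum_congr rfl fun i _ => h i, Finset.sum_add_distrib]
        simp
      rw [if_pos h1]
    · rw [if_neg h]
      refine Finset.sum_eq_zero fun b _ => ?_
      have h1 : (if b'.1.length = b.1.length + 1 then Tq j b'.1 b.1 else 0) = 0 := by
        split_ifs with h2
        · by_contra h3
          have h4 := Tq_ne j b'.1 b.1 b'.2.1 b.2.1 h2 h3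
          apply h
          intro l
          have h5 := h4.count_eq l
          rw [b'.2.2 l] at h5
          by_cases hl : l = j
          · subst hl
            rw [List.count_cons_self, b.2.2 l] at h5
            rw [if_pos rfl]; exact h5
          · rw [List.count_cons_of_ne (Ne.symm hl), b.2.2 l] at h5
            rw [if_neg hl]; exact h5
        · rfl
      rw [h1]
      simp
  · intro i'' _ h
    refine Finset.sum_eq_zero fun b _ => ?_
    rw [bext_apply_ne e i v (e.symm ⟨i'', b⟩) (by rw [Equiv.apply_symm_apply]; exact h), mul_zero]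
  · intro h; exact absurd (Finset.mem_univ i) h

/-! ### The torus -/

/-- the Lyndon basis -/
noncomputable def lynD (d : ℕ) : LynData d where
  b := fun R _ => bq R
  T := Tq
  spn := fun R _ => comp_eq_Sp R
  ind := fun R _ => ind_bq R
  brk := fun R _ => brk_R R

/-- the graded system of the free nilpotent Lie algebra of class `a + 2` -/
noncomputable abbrev LS (d a : ℕ) : Sys4 d (LynLe d (a + 1)) (Lyn d (a + 2)) :=
  lynSys (lynD d) (a + 1)

/-- complete flags of graded ideals -/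
structure PT {d : ℕ} {J K : Type} [Fintype J] [Fintype K] (S : Sys4 d J K) (F : Type) [Field F]
    (r : ℕ) (G : (Fin (r + 1) → Submodule F (J → F)) × (Fin (r + 1) → Submodule F (K → F))) :
    Prop where
  a1 : Antitone G.1
  a2 : Antitone G.2
  idl : ∀ t, Idl S F (G.1 t, G.2 t)
  cd : ∀ t : Fin (r + 1), finrank F ((J → F) ⧸ G.1 t) + finrank F ((K → F) ⧸ G.2 t) = (t : ℕ)

theorem card_PT (F : Type) [Field F] (d a r : ℕ)
    (hr : r = Fintype.card (LynLe d (a + 1)) + Fintype.card (Lyn d (a + 2))) :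
    numFlags F (a + 2) d r = Nat.card {G // PT (LS d a) F r G} := by
  obtain ⟨φ, hφ⟩ := exists_coord_field (lynD d) (a + 1) F
  have hφ' : ∀ Λ, ∑ i, finrank F (Λ.1 i) + cdF (LS d a) F (φ Λ) = r := fun Λ => (hφ Λ).trans hr.symm
  unfold numFlags
  refine Nat.card_congr
    { toFun := fun I => ⟨(fun t => (φ ⟨I.1 t.rev, I.2.1 _⟩).1.1,
          fun t => (φ ⟨I.1 t.rev, I.2.1 _⟩).1.2),
        { a1 := fun t t' h => (φ.monotone (show (⟨I.1 t'.rev, I.2.1 _⟩ : {Λ // IsGr F (a + 2) d Λ}) ≤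
            ⟨I.1 t.rev, I.2.1 _⟩ from I.2.2.1 (Fin.rev_le_rev.2 h))).1
          a2 := fun t t' h => (φ.monotone (show (⟨I.1 t'.rev, I.2.1 _⟩ : {Λ // IsGr F (a + 2) d Λ}) ≤
            ⟨I.1 t.rev, I.2.1 _⟩ from I.2.2.1 (Fin.rev_le_rev.2 h))).2
          idl := fun t => (φ ⟨I.1 t.rev, I.2.1 _⟩).2
          cd := fun t => ?_ }⟩
      invFun := fun G => ⟨fun t => (φ.symm ⟨(G.1.1 t.rev, G.1.2 t.rev), G.2.idl _⟩).1,
        fun t => (φ.symm ⟨(G.1.1 t.rev, G.1.2 t.rev), G.2.idl _⟩).2, ?_, ?_⟩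
      left_inv := ?_
      right_inv := ?_ }
  · have h1 := hφ' ⟨I.1 t.rev, I.2.1 _⟩
    have h2 := I.2.2.2 t.rev
    simp only at h1
    rw [h2] at h1
    have h3 : (t.rev : ℕ) = r - t := by rw [Fin.val_rev]; omega
    have h4 := t.2
    change cdF (LS d a) F (φ ⟨I.1 t.rev, I.2.1 _⟩) = (t : ℕ)
    omega
  · intro t t' h
    exact φ.symm.monotone (show (⟨(G.1.1 t.rev, G.1.2 t.rev), G.2.idl _⟩ : {N // Idl (LS d a) F N}) ≤
      ⟨(G.1.1 t'.rev, G.1.2 t'.rev), G.2.idl _⟩ from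
      ⟨G.2.a1 (Fin.rev_le_rev.2 h), G.2.a2 (Fin.rev_le_rev.2 h)⟩)
  · intro t
    have h1 := hφ' (φ.symm ⟨(G.1.1 t.rev, G.1.2 t.rev), G.2.idl _⟩)
    rw [OrderIso.apply_symm_apply] at h1
    have h2 := G.2.cd t.rev
    have h3 : (t.rev : ℕ) = r - t := by rw [Fin.val_rev]; omega
    have h4 := t.2
    change _ + (finrank F ((LynLe d (a + 1) → F) ⧸ G.1.1 t.rev) +
      finrank F ((Lyn d (a + 2) → F) ⧸ G.1.2 t.rev)) = r at h1
    rw [h2] at h1
    change ∑ i, finrank F ((φ.symm ⟨(G.1.1 t.rev, G.1.2 t.rev), G.2.idl _⟩).1 i) = (t : ℕ)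
    omega
  · intro I
    apply Subtype.ext
    funext t
    change (φ.symm ⟨((φ ⟨I.1 t.rev.rev, I.2.1 _⟩).1.1, (φ ⟨I.1 t.rev.rev, I.2.1 _⟩).1.2), _⟩).1 = _
    have h1 : (⟨((φ ⟨I.1 t.rev.rev, I.2.1 _⟩).1.1, (φ ⟨I.1 t.rev.rev, I.2.1 _⟩).1.2),
      (φ ⟨I.1 t.rev.rev, I.2.1 _⟩).2⟩ : {N // Idl (LS d a) F N}) =
        φ ⟨I.1 t.rev.rev, I.2.1 _⟩ := rfl
    rw [h1, OrderIso.symm_apply_apply]
    exact congrArg I.1 (Fin.rev_rev t)
  · intro G
    have h1 : ∀ t, φ ⟨(φ.symm ⟨(G.1.1 (Fin.rev (Fin.rev t)), G.1.2 (Fin.rev (Fin.rev t))),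
        G.2.idl _⟩).1, (φ.symm ⟨(G.1.1 (Fin.rev (Fin.rev t)), G.1.2 (Fin.rev (Fin.rev t))),
        G.2.idl _⟩).2⟩ = ⟨(G.1.1 (Fin.rev (Fin.rev t)), G.1.2 (Fin.rev (Fin.rev t))),
        G.2.idl _⟩ := fun t => φ.apply_symm_apply _
    apply Subtype.ext
    refine Prod.ext (funext fun t => ?_) (funext fun t => ?_)
    · have h2 := congrArg (fun x => x.1.1) (h1 t)
      refine h2.trans ?_
      change G.1.1 (Fin.rev (Fin.rev t)) = G.1.1 t
      rw [Fin.rev_rev]
    · have h2 := congrArg (fun x => x.1.2) (h1 t)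
      refine h2.trans ?_
      change G.1.2 (Fin.rev (Fin.rev t)) = G.1.2 t
      rw [Fin.rev_rev]

lemma LS_T {d a : ℕ} (j : Fin d) (x y : LynLe d (a + 1)) (h : (LS d a).T j x y ≠ 0) :
    wt a x.1 = wt a y.1 + (a + 3) ^ (j : ℕ) := by
  have h1 : (LS d a).T j x y = if x.1.length = y.1.length + 1 then Tq j x.1 y.1 else 0 := rfl
  rw [h1] at h
  by_cases h2 : x.1.length = y.1.length + 1
  · rw [if_pos h2] at h
    rw [wt_perm a (Tq_ne j x.1 y.1 x.2.1 y.2.1 h2 h), wt_cons]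
  · rw [if_neg h2] at h
    exact absurd rfl h

lemma LS_T4 {d a : ℕ} (j : Fin d) (x : Lyn d (a + 2)) (y : LynLe d (a + 1))
    (h : (LS d a).T4 j x y ≠ 0) : wt a x.1 = wt a y.1 + (a + 3) ^ (j : ℕ) := by
  have h1 : (LS d a).T4 j x y = if y.1.length = a + 1 then Tq j x.1 y.1 else 0 := rfl
  rw [h1] at h
  by_cases h2 : y.1.length = a + 1
  · rw [if_pos h2] at h
    have h3 := x.2.2
    rw [wt_perm a (Tq_ne j x.1 y.1 x.2.1 y.2.1 (by omega) h), wt_cons]
  · rw [if_neg h2] at h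
    exact absurd rfl h

lemma wt_lt1 {d a : ℕ} (x : LynLe d (a + 1)) : wt a x.1 < (a + 3) ^ d := by
  have h : wt a x.1 = code (cn12 (e12 d a x).1) := eqv_count _ _ _ _ _ x
  rw [h]
  exact code_lt _

lemma wt_lt2 {d a : ℕ} (x : Lyn d (a + 2)) : wt a x.1 < (a + 3) ^ d := by
  have h : wt a x.1 = code ((e3 d a x).1).1 := eqv_count _ _ _ _ _ x
  rw [h]
  exact code_lt _

lemma PT_act (F : Type) [Field F] (d a r : ℕ) (u : Fˣ)
    (G : (Fin (r + 1) → Submodule F (LynLe d (a + 1) → F)) ×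
      (Fin (r + 1) → Submodule F (Lyn d (a + 2) → F))) (h : PT (LS d a) F r G) :
    PT (LS d a) F r (sact (r + 1) (fun x : LynLe d (a + 1) => wt a x.1)
      (fun x : Lyn d (a + 2) => wt a x.1) u G) := by
  rw [sact_apply]
  exact
    { a1 := fun n n' hn => lact_mono _ _ (h.a1 hn)
      a2 := fun n n' hn => lact_mono _ _ (h.a2 hn)
      idl := fun n =>
        { hom := (h.idl n).hom.lact _ u
          t := fun j => map_equivar _ (dg_tl ((LS d a).T j) _ _ ((a + 3) ^ (j : ℕ)) (LS_T j) u)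
            ((h.idl n).t j)
          t4 := fun j => map_equivar _ (dg_tl ((LS d a).T4 j) _ _ ((a + 3) ^ (j : ℕ)) (LS_T4 j) u)
            ((h.idl n).t4 j) }
      cd := fun n => by
        rw [finrank_quot_lact, finrank_quot_lact]
        exact h.cd n }

lemma finrank_quot_eq {F : Type} [Field F] {J : Type} [Fintype J] (N : Submodule F (J → F)) :
    finrank F ((J → F) ⧸ N) + finrank F N = Fintype.card J := by
  rw [Submodule.finrank_quotient_add_finrank, Module.finrank_fintype_fun_eq_card]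

/-- the blocks of the lower part -/
def jn {F : Type} [Field F] {d a : ℕ} (N1 : ∀ κ : C1 d a, Submodule F (LC κ.1 → F))
    (N2 : ∀ κ : C2 d a, Submodule F (LC κ.1 → F)) :
    ∀ i : C1 d a ⊕ C2 d a, Submodule F (LC (cn12 i) → F)
  | Sum.inl κ => N1 κ
  | Sum.inr κ => N2 κ

lemma jn_blocks {F : Type} [Field F] {d a : ℕ}
    (N : ∀ i : C1 d a ⊕ C2 d a, Submodule F (LC (cn12 i) → F)) :
    jn (fun κ => N (Sum.inl κ)) (fun κ => N (Sum.inr κ)) = N := by
  funext i
  rcases i with κ | κ <;> rfl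

lemma code12_inj {d a : ℕ} :
    Function.Injective (fun i : C1 d a ⊕ C2 d a => code (cn12 i)) :=
  code_inj.comp cn12_inj

lemma code3_inj {d a : ℕ} : Function.Injective (fun i : C3 d a => code i.1) :=
  code_inj.comp Subtype.val_injective

lemma wt_e12 {d a : ℕ} : (fun x : LynLe d (a + 1) => wt a x.1) =
    fun x => (fun i : C1 d a ⊕ C2 d a => code (cn12 i)) (e12 d a x).1 :=
  funext fun x => eqv_count _ _ _ _ _ x

lemma wt_e3 {d a : ℕ} : (fun x : Lyn d (a + 2) => wt a x.1) =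
    fun x => (fun i : C3 d a => code i.1) (e3 d a x).1 :=
  funext fun x => eqv_count _ _ _ _ _ x

lemma wt_length {d a : ℕ} (x y : LynLe d (a + 1)) (h : wt a x.1 = wt a y.1) :
    x.1.length = y.1.length := by
  have h1 : ∀ x : LynLe d (a + 1), ∃ κ : Cn d a, code κ = wt a x.1 ∧
      ∀ i, x.1.count i = (κ i : ℕ) := by
    intro x
    obtain ⟨s, rfl⟩ := (e12 d a).symm.surjective x
    exact ⟨cn12 s.1, (wt_LC _ s.2).symm, s.2.2.2⟩
  obtain ⟨κ, h2, h3⟩ := h1 x
  obtain ⟨κ', h2', h3'⟩ := h1 y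
  have h4 : κ = κ' := code_inj (by rw [h2, h2', h])
  subst h4
  rw [← count_sum, ← count_sum, Finset.sum_congr rfl fun i _ => h3 i,
    Finset.sum_congr rfl fun i _ => h3' i]

lemma T_iff {F : Type} [Field F] {d a : ℕ} (N1 : ∀ κ : C1 d a, Submodule F (LC κ.1 → F))
    (N2 : ∀ κ : C2 d a, Submodule F (LC κ.1 → F)) :
    (∀ j, (ofFam (e12 d a) (jn N1 N2)).map (tl F ((LS d a).T j)) ≤ ofFam (e12 d a) (jn N1 N2)) ↔
      (∀ κ κ' : C1 d a, (N1 κ).map (fL F κ.1 κ'.1) ≤ N1 κ') ∧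
      ∀ (κ : C1 d a) (κ' : C2 d a), (N1 κ).map (fL F κ.1 κ'.1) ≤ N2 κ' := by
  have h0 : ∀ j i i', bres (e12 d a) i' ∘ₗ tl F ((LS d a).T j) ∘ₗ bext (e12 d a) i =
      blk F j (cn12 i) (cn12 i') := fun j i i' =>
    block_eq cn12 cn12 (e12 d a) (e12 d a) ((LS d a).T j) j (fun i b i' b' => rfl) i i'
  have h1 : (∀ j, (ofFam (e12 d a) (jn N1 N2)).map (tl F ((LS d a).T j)) ≤
      ofFam (e12 d a) (jn N1 N2)) ↔
      ∀ i i', (jn N1 N2 i).map (fL F (cn12 i) (cn12 i')) ≤ jn N1 N2 i' := by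
    constructor
    · intro h i i'
      rw [← map_blk]
      intro j
      have h2 := (map_ofFam_le (e12 d a) (e12 d a) (tl F ((LS d a).T j)) (jn N1 N2)
        (jn N1 N2)).1 (h j) i i'
      rwa [h0] at h2
    · intro h j
      rw [map_ofFam_le]
      intro i i'
      rw [h0]
      exact (map_blk _ _ _ _).2 (h i i') j
  rw [h1]
  constructor
  · intro h
    exact ⟨fun κ κ' => h (Sum.inl κ) (Sum.inl κ'), fun κ κ' => h (Sum.inl κ) (Sum.inr κ')⟩
  · rintro ⟨h2, h3⟩ (κ | κ) (κ' | κ')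
    · exact h2 κ κ'
    · exact h3 κ κ'
    · have h4 : fL F (cn12 (Sum.inr κ : C1 d a ⊕ C2 d a)) (cn12 (Sum.inl κ' : C1 d a ⊕ C2 d a)) =
          0 := fL_deg F κ.1 κ'.1 (by have := κ.2; have := κ'.2; omega)
      rw [h4, Submodule.map_zero]; exact bot_le
    · have h4 : fL F (cn12 (Sum.inr κ : C1 d a ⊕ C2 d a)) (cn12 (Sum.inr κ' : C1 d a ⊕ C2 d a)) =
          0 := fL_deg F κ.1 κ'.1 (by have := κ.2; have := κ'.2; omega)
      rw [h4, Submodule.map_zero]; exact bot_le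

lemma T4_iff {F : Type} [Field F] {d a : ℕ} (N1 : ∀ κ : C1 d a, Submodule F (LC κ.1 → F))
    (N2 : ∀ κ : C2 d a, Submodule F (LC κ.1 → F)) (N3 : ∀ κ : C3 d a, Submodule F (LC κ.1 → F)) :
    (∀ j, (ofFam (e12 d a) (jn N1 N2)).map (tl F ((LS d a).T4 j)) ≤ ofFam (e3 d a) N3) ↔
      ∀ (κ : C2 d a) (κ' : C3 d a), (N2 κ).map (fL F κ.1 κ'.1) ≤ N3 κ' := by
  have h0 : ∀ j i i', bres (e3 d a) i' ∘ₗ tl F ((LS d a).T4 j) ∘ₗ bext (e12 d a) i =
      blk F j (cn12 i) i'.1 := fun j i i' =>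
    block_eq cn12 (fun κ : C3 d a => κ.1) (e12 d a) (e3 d a) ((LS d a).T4 j) j (by
      intro i b i' b'
      have h1 : b'.1.length = a + 2 := by rw [length_LC]; exact i'.2
      change (if b.1.length = a + 1 then Tq j b'.1 b.1 else 0) = _
      rw [h1]
      by_cases h2 : b.1.length = a + 1
      · rw [if_pos h2, if_pos (by omega)]
      · rw [if_neg h2, if_neg (by omega)]) i i'
  have h1 : (∀ j, (ofFam (e12 d a) (jn N1 N2)).map (tl F ((LS d a).T4 j)) ≤
      ofFam (e3 d a) N3) ↔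
      ∀ i (i' : C3 d a), (jn N1 N2 i).map (fL F (cn12 i) i'.1) ≤ N3 i' := by
    constructor
    · intro h i i'
      rw [← map_blk]
      intro j
      have h2 := (map_ofFam_le (e12 d a) (e3 d a) (tl F ((LS d a).T4 j)) (jn N1 N2)
        N3).1 (h j) i i'
      rwa [h0] at h2
    · intro h j
      rw [map_ofFam_le]
      intro i i'
      rw [h0]
      exact (map_blk _ _ _ _).2 (h i i') j
  rw [h1]
  constructor
  · intro h
    exact fun κ κ' => h (Sum.inr κ) κ'
  · rintro h2 (κ | κ) κ'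
    · have h4 : fL F (cn12 (Sum.inl κ : C1 d a ⊕ C2 d a)) κ'.1 =
          0 := fL_deg F κ.1 κ'.1 (by have := κ.2; have := κ'.2; omega)
      rw [h4, Submodule.map_zero]; exact bot_le
    · exact h2 κ κ'

lemma rt12 {F : Type} [Field F] {d a : ℕ} {N : Submodule F (LynLe d (a + 1) → F)}
    (h : Hmg (fun x : LynLe d (a + 1) => wt a x.1) N) :
    ofFam (e12 d a) (toFam (e12 d a) N) = N := by
  rw [wt_e12] at h
  exact ofFam_toFam (e12 d a) code12_inj h

lemma rt3 {F : Type} [Field F] {d a : ℕ} {N : Submodule F (Lyn d (a + 2) → F)}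
    (h : Hmg (fun x : Lyn d (a + 2) => wt a x.1) N) :
    ofFam (e3 d a) (toFam (e3 d a) N) = N := by
  rw [wt_e3] at h
  exact ofFam_toFam (e3 d a) code3_inj h

lemma sum_jn {F : Type} [Field F] {d a : ℕ} (N1 : ∀ κ : C1 d a, Submodule F (LC κ.1 → F))
    (N2 : ∀ κ : C2 d a, Submodule F (LC κ.1 → F)) :
    finrank F (ofFam (e12 d a) (jn N1 N2)) =
      ∑ κ, finrank F (N1 κ) + ∑ κ, finrank F (N2 κ) := by
  rw [finrank_ofFam, Fintype.sum_sum_type]
  rfl

theorem card_PTQ (F : Type) [Field F] (d a r : ℕ)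
    (hr : r = Fintype.card (LynLe d (a + 1)) + Fintype.card (Lyn d (a + 2))) :
    Nat.card {G : (Fin (r + 1) → Submodule F (LynLe d (a + 1) → F)) ×
      (Fin (r + 1) → Submodule F (Lyn d (a + 2) → F)) // PT (LS d a) F r G ∧
        ((∀ t, Hmg (fun x : LynLe d (a + 1) => wt a x.1) (G.1 t)) ∧
          ∀ t, Hmg (fun x : Lyn d (a + 2) => wt a x.1) (G.2 t))} =
      Nat.card ((SL F d a).Fl r) := by
  refine Nat.card_congr (Equiv.symm
    { toFun := fun N => ⟨(fun t => ofFam (e12 d a) (jn (N.1.1 t) (N.1.2.1 t)),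
          fun t => ofFam (e3 d a) (N.1.2.2 t)), ?_, ?_, ?_⟩
      invFun := fun G => ⟨(fun t κ => toFam (e12 d a) (G.1.1 t) (Sum.inl κ),
          fun t κ => toFam (e12 d a) (G.1.1 t) (Sum.inr κ),
          fun t κ => toFam (e3 d a) (G.1.2 t) κ), ?_, ?_⟩
      left_inv := ?_
      right_inv := ?_ })
  · exact
      { a1 := fun t t' h => ofFam_mono _ fun i => by
          rcases i with κ | κ
          · exact N.2.1.a1 h κ
          · exact N.2.1.a2 h κ
        a2 := fun t t' h => ofFam_mono _ fun i => N.2.1.a3 h i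
        idl := fun t =>
          { hom := by
              have h1 := hmg_ofFam (e12 d a) code12_inj (jn (N.1.1 t) (N.1.2.1 t))
              rw [← wt_e12] at h1
              exact h1.coarsen wt_length
            t := (T_iff _ _).2 ⟨N.2.1.s11 t, N.2.1.s12 t⟩
            t4 := (T4_iff _ _ _).2 (N.2.1.s23 t) }
        cd := fun t => by
          have h1 := finrank_quot_eq (ofFam (e12 d a) (jn (N.1.1 t) (N.1.2.1 t)))
          have h2 := finrank_quot_eq (ofFam (e3 d a) (N.1.2.2 t))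
          have h3 := sum_jn (N.1.1 t) (N.1.2.1 t)
          have h4 := finrank_ofFam (e3 d a) (N.1.2.2 t)
          have h5 : (∑ κ, finrank F (N.1.1 t κ) + ∑ κ, finrank F (N.1.2.1 t κ)) +
            ∑ κ, finrank F (N.1.2.2 t κ) + (t : ℕ) = r := N.2.2 t
          rw [← h3, ← h4] at h5
          change finrank F ((LynLe d (a + 1) → F) ⧸ ofFam (e12 d a) (jn (N.1.1 t) (N.1.2.1 t))) +
            finrank F ((Lyn d (a + 2) → F) ⧸ ofFam (e3 d a) (N.1.2.2 t)) = (t : ℕ)
          omega }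
  · intro t
    rw [wt_e12]
    exact hmg_ofFam (e12 d a) code12_inj _
  · intro t
    rw [wt_e3]
    exact hmg_ofFam (e3 d a) code3_inj _
  · have h3 : ∀ t, ofFam (e12 d a) (jn (fun κ => toFam (e12 d a) (G.1.1 t) (Sum.inl κ))
        (fun κ => toFam (e12 d a) (G.1.1 t) (Sum.inr κ))) = G.1.1 t := by
      intro t
      rw [jn_blocks]
      exact rt12 (G.2.2.1 t)
    have h4 : ∀ t, ofFam (e3 d a) (toFam (e3 d a) (G.1.2 t)) = G.1.2 t := by
      intro t
      exact rt3 (G.2.2.2 t)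
    have h5 : ∀ t, _ := fun t => (T_iff (fun κ => toFam (e12 d a) (G.1.1 t) (Sum.inl κ))
        (fun κ => toFam (e12 d a) (G.1.1 t) (Sum.inr κ))).1 (by rw [h3]; exact (G.2.1.idl t).t)
    have h6 : ∀ t, _ := fun t => (T4_iff (fun κ => toFam (e12 d a) (G.1.1 t) (Sum.inl κ))
        (fun κ => toFam (e12 d a) (G.1.1 t) (Sum.inr κ))
        (toFam (e3 d a) (G.1.2 t))).1 (by rw [h3, h4]; exact (G.2.1.idl t).t4)
    exact
      { a1 := fun t t' h κ => toFam_mono _ (G.2.1.a1 h) _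
        a2 := fun t t' h κ => toFam_mono _ (G.2.1.a1 h) _
        a3 := fun t t' h κ => toFam_mono _ (G.2.1.a2 h) _
        s11 := fun t => (h5 t).1
        s12 := fun t => (h5 t).2
        s23 := fun t => h6 t }
  · intro t
    have h3 : ofFam (e12 d a) (toFam (e12 d a) (G.1.1 t)) = G.1.1 t := rt12 (G.2.2.1 t)
    have h4 : ofFam (e3 d a) (toFam (e3 d a) (G.1.2 t)) = G.1.2 t := rt3 (G.2.2.2 t)
    have h5 := finrank_ofFam (e12 d a) (toFam (e12 d a) (G.1.1 t))
    have h6 := finrank_ofFam (e3 d a) (toFam (e3 d a) (G.1.2 t))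
    rw [h3, Fintype.sum_sum_type] at h5
    rw [h4] at h6
    have h7 := finrank_quot_eq (G.1.1 t)
    have h8 := finrank_quot_eq (G.1.2 t)
    have h9 := G.2.1.cd t
    have h10 := t.2
    change ∑ κ, finrank F (toFam (e12 d a) (G.1.1 t) (Sum.inl κ)) +
      ∑ κ, finrank F (toFam (e12 d a) (G.1.1 t) (Sum.inr κ)) +
      ∑ κ, finrank F (toFam (e3 d a) (G.1.2 t) κ) + (t : ℕ) = r
    omega
  · intro N
    apply Subtype.ext
    refine Prod.ext (funext fun t => funext fun κ => ?_)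
      (Prod.ext (funext fun t => funext fun κ => ?_) (funext fun t => ?_))
    · exact congrFun (toFam_ofFam (e12 d a) (jn (N.1.1 t) (N.1.2.1 t))) (Sum.inl κ)
    · exact congrFun (toFam_ofFam (e12 d a) (jn (N.1.1 t) (N.1.2.1 t))) (Sum.inr κ)
    · exact toFam_ofFam (e3 d a) (N.1.2.2 t)
  · intro G
    apply Subtype.ext
    refine Prod.ext (funext fun t => ?_) (funext fun t => ?_)
    · change ofFam (e12 d a) (jn (fun κ => toFam (e12 d a) (G.1.1 t) (Sum.inl κ))
        (fun κ => toFam (e12 d a) (G.1.1 t) (Sum.inr κ))) = G.1.1 t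
      rw [jn_blocks]
      exact rt12 (G.2.2.1 t)
    · exact rt3 (G.2.2.2 t)

theorem numFlags_torus (F : Type) [Field F] [Finite F] (d a r : ℕ)
    (hr : r = Fintype.card (LynLe d (a + 1)) + Fintype.card (Lyn d (a + 2)))
    (u : Fˣ) (ℓ : ℕ) (hℓ : ℓ.Prime) (m κ : ℕ) (hu : u ^ (ℓ ^ m) = 1) (W : ℕ)
    (hsep : Sep (u ^ (ℓ ^ κ)) W) (hW : (a + 3) ^ (d + 1) ≤ W) :
    numFlags F (a + 2) d r ≡ Nat.card ((SL F d a).Fl r) [MOD ℓ ^ (κ + 1)] := by
  have f1 := finite_sub F (LynLe d (a + 1))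
  have f2 := finite_sub F (Lyn d (a + 2))
  have hW' : (a + 3) ^ d ≤ W := by
    refine le_trans (Nat.pow_le_pow_right (by omega) (Nat.le_succ d)) hW
  rw [card_PT F d a r hr, ← card_PTQ F d a r hr]
  refine card_modEq_sub (sact (F := F) (r + 1) (fun x : LynLe d (a + 1) => wt a x.1)
    (fun x : Lyn d (a + 2) => wt a x.1)) (fun G => PT (LS d a) F r G)
    (fun G => (∀ t, Hmg (fun x : LynLe d (a + 1) => wt a x.1) (G.1 t)) ∧
          ∀ t, Hmg (fun x : Lyn d (a + 2) => wt a x.1) (G.2 t))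
    (PT_act F d a r) (fun g V h => ⟨fun t => (h.1 t).lact _ g, fun t => (h.2 t).lact _ g⟩)
    u ℓ hℓ m κ hu ?_
  intro G _ hG
  rw [sact_apply] at hG
  refine ⟨fun t => ?_, fun t => ?_⟩
  · have h1 : GradedTop.lact (fun x : LynLe d (a + 1) => wt a x.1) (u ^ ℓ ^ κ) (G.1 t) = G.1 t :=
      congrFun (congrArg Prod.fst hG) t
    refine stable_hmg _ hsep (fun x => (wt_lt1 x).trans_le hW') _ fun v hv => ?_
    have := mem_lact (c := fun x : LynLe d (a + 1) => wt a x.1) (u := u ^ ℓ ^ κ) hv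
    rwa [h1] at this
  · have h1 : GradedTop.lact (fun x : Lyn d (a + 2) => wt a x.1) (u ^ ℓ ^ κ) (G.2 t) = G.2 t :=
      congrFun (congrArg Prod.snd hG) t
    refine stable_hmg _ hsep (fun x => (wt_lt2 x).trans_le hW') _ fun v hv => ?_
    have := mem_lact (c := fun x : Lyn d (a + 2) => wt a x.1) (u := u ^ ℓ ^ κ) hv
    rwa [h1] at this

end Pos

end GradedTop
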