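import Pool.Agent.Lib.GradedPos.Main
import Pool.Agent.Lib.GradedPos.Cases75
import Pool.Agent.Lib.GradedPos.Span32
import Pool.Agent.Lib.GradedPos.Torus
import Pool.Agent.Lib.GradedFlag.Final

/-!
# The degree of the topological zeta function in small cases
-/

namespace GradedTop

namespace Pos

open Filter Topology Submodule Module GradedTop.Four GradedTop.Flag

/-- If the hypotheses of the positivity theorem are satisfied over all finite fields, the degree is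
`-r`. -/
theorem degree_of_good (a d : ℕ)
    (hgood : ∀ (F : Type) [Field F] [Finite F], ∃ (P : C3 d a → Finset (C2 d a)) (δ : C3 d a → Prop)
      (k : ∀ (_ : C3 d a) (i : C2 d a), LC i.1 → F), (SL F d a).Good P δ k)
    (Z : RatFunc ℚ) (hZ : IsTop (a + 2) d Z) : Z ≠ 0 ∧ Z.intDegree = -rk (a + 2) d := by
  classical
  obtain ⟨χ, _, ⟨B, hlim⟩, hiff, _⟩ := flag_limit (a + 1) d Z hZ
  rw [show a + 2 = a + 1 + 1 from rfl, hiff]
  set r := (rk (a + 1 + 1) d).toNat with hr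
  have hr1 : r = Fintype.card (LynLe d (a + 1)) + Fintype.card (Lyn d (a + 2)) := by
    rw [hr, rk_lyn]; rfl
  have hr2 := card_all d a
  obtain ⟨p, hpB, hp⟩ := Nat.exists_infinite_primes (B + 3)
  have : Fact p.Prime := ⟨hp⟩
  have : Fact (Nat.Prime 2) := ⟨Nat.prime_two⟩
  have hne : (2 : ℕ) ≠ p := by omega
  have hlim' := hlim p (by omega) 2 hne
  have hfin : ∀ N : ℕ, Finite (GaloisField p N.factorial) := fun N => inferInstance
  have hFc : ∀ N : ℕ, Nat.card (GaloisField p N.factorial) = p ^ N.factorial :=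
    fun N => GaloisField.card p _ N.factorial_ne_zero
  set bd0 := bd (Fintype.card (C1 d a)) (Fintype.card (C2 d a)) (Fintype.card (C3 d a)) r r
    with hbd0
  have hA : ∀ N : ℕ, ∃ A : ℕ, 1 ≤ A ∧ A ≤ bd0 ∧
      Nat.card ((SL (GaloisField p N.factorial) d a).Fl r) ≡ A [MOD p ^ N.factorial - 1] := by
    intro N
    obtain ⟨P, δ, k, hg⟩ := hgood (GaloisField p N.factorial)
    obtain ⟨A, h1, h2, h3⟩ := fl_count _ P δ k hg r (by rw [hr1, hr2])
    rw [hFc] at h3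
    exact ⟨A, h1, h2, h3⟩
  choose A hA1 hA2 hA3 using hA
  -- congruences
  have hmod : ∀ κ : ℕ, ∀ᶠ N in atTop,
      numFlags (GaloisField p N.factorial) (a + 2) d r ≡ A N [MOD 2 ^ (κ + 1)] := by
    intro κ
    obtain ⟨C, hC1, hC⟩ : ∃ C : ℕ, 1 ≤ C ∧ (a + 3) ^ (d + 1) ≤ 2 ^ C :=
      ⟨(a + 3) ^ (d + 1), Nat.one_le_pow _ _ (by omega), Nat.lt_two_pow_self.le⟩
    filter_upwards [eventually_ge_atTop ((2 ^ (κ + C)).totient)] with N hN
    have hcop : Nat.Coprime p (2 ^ (κ + C)) :=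
      Nat.Coprime.pow_right _ ((Nat.coprime_primes hp Nat.prime_two).2 hne.symm)
    have h3 : (2 ^ (κ + C)).totient ∣ N.factorial := by
      apply Nat.dvd_factorial _ hN
      exact Nat.totient_pos.2 (by positivity)
    have h4 : 2 ^ (κ + C) ∣ p ^ N.factorial - 1 := by
      obtain ⟨e, he⟩ := h3
      have h5 : p ^ N.factorial ≡ 1 [MOD 2 ^ (κ + C)] := by
        rw [he, pow_mul]
        simpa using (Nat.ModEq.pow_totient hcop).pow e
      exact (Nat.modEq_iff_dvd' (Nat.one_le_pow _ _ hp.pos)).1 h5.symm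
    obtain ⟨u, hu1, hu2⟩ := exists_root_field (GaloisField p N.factorial) 2 Nat.prime_two κ C
      (by rwa [hFc])
    refine (numFlags_torus (GaloisField p N.factorial) d a r hr1 u 2 Nat.prime_two (κ + C) κ hu1
      (2 ^ C) hu2 hC).trans ?_
    refine (hA3 N).of_dvd ((pow_dvd_pow 2 (by omega)).trans h4)
  -- the limit along an ultrafilter
  set U : Ultrafilter ℕ := hyperfilter ℕ with hU
  have hUle : (U : Filter ℕ) ≤ atTop := Nat.hyperfilter_le_atTop
  obtain ⟨A0, hA0, hA0'⟩ : ∃ A0 : ℕ, 1 ≤ A0 ∧ ∀ᶠ N in (U : Filter ℕ), A N = A0 := by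
    have h3 : ∀ᶠ N in (U : Filter ℕ), ∃ c ∈ Set.Icc 1 bd0, A N = c :=
      Eventually.of_forall fun N => ⟨A N, ⟨hA1 N, hA2 N⟩, rfl⟩
    obtain ⟨c, h4, hc⟩ := (Ultrafilter.eventually_exists_mem_iff (Set.finite_Icc _ _)).1 h3
    exact ⟨c, h4.1, hc⟩
  have htend : Tendsto (fun N : ℕ =>
      (numFlags (GaloisField p N.factorial) (a + 1 + 1) d r : ℚ_[2])) U (𝓝 ((A0 : ℕ) : ℚ_[2])) := by
    rw [Metric.tendsto_nhds]
    intro ε hε
    obtain ⟨κ, hκ⟩ := PadicInt.exists_pow_neg_lt 2 hε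
    filter_upwards [hUle (hmod κ), hA0'] with N h3 hN2
    rw [hN2] at h3
    have h4 : ((2 ^ κ : ℕ) : ℤ) ∣
        ((numFlags (GaloisField p N.factorial) (a + 2) d r : ℕ) : ℤ) - (A0 : ℤ) := by
      have h5 := Nat.modEq_iff_dvd.1 h3.symm
      refine dvd_trans ?_ h5
      exact_mod_cast pow_dvd_pow 2 (Nat.le_succ κ)
    rw [dist_eq_norm]
    have h6 : (numFlags (GaloisField p N.factorial) (a + 1 + 1) d r : ℚ_[2]) - ((A0 : ℕ) : ℚ_[2]) =
        ((((numFlags (GaloisField p N.factorial) (a + 2) d r : ℕ) : ℤ) - (A0 : ℤ) : ℤ) : ℚ_[2]) := by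
      push_cast; rfl
    rw [h6]
    refine lt_of_le_of_lt ?_ hκ
    rw [Padic.norm_int_le_pow_iff_dvd]
    exact_mod_cast h4
  have h7 := tendsto_nhds_unique htend (hlim'.mono_left hUle)
  intro h0
  rw [h0] at h7
  have h8 : (A0 : ℚ_[2]) = 0 := by simpa using h7
  have h9 : A0 = 0 := by exact_mod_cast h8
  omega

/-- The four cases. -/
theorem good_cases (F : Type) [Field F] [Finite F] (d a : ℕ)
    (h : (d = 2 ∧ a = 3) ∨ (d = 2 ∧ a = 4) ∨ (d = 2 ∧ a = 5) ∨ (d = 3 ∧ a = 3)) :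
    ∃ (P : C3 d a → Finset (C2 d a)) (δ : C3 d a → Prop)
      (k : ∀ (_ : C3 d a) (i : C2 d a), LC i.1 → F), (SL F d a).Good P δ k :=
  good_cases75 F d a h (fL_span F d a)

theorem small_cases (c d : ℕ)
    (h : (c = 5 ∧ d = 2) ∨ (c = 6 ∧ d = 2) ∨ (c = 7 ∧ d = 2) ∨ (c = 5 ∧ d = 3)) (Z : RatFunc ℚ)
    (hZ : IsTop c d Z) : Z ≠ 0 ∧ Z.intDegree = -rk c d := by
  rcases h with ⟨rfl, rfl⟩ | ⟨rfl, rfl⟩ | ⟨rfl, rfl⟩ | ⟨rfl, rfl⟩
  · exact degree_of_good 3 2 (fun F _ _ => good_cases F 2 3 (by omega)) Z hZ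
  · exact degree_of_good 4 2 (fun F _ _ => good_cases F 2 4 (by omega)) Z hZ
  · exact degree_of_good 5 2 (fun F _ _ => good_cases F 2 5 (by omega)) Z hZ
  · exact degree_of_good 3 3 (fun F _ _ => good_cases F 3 3 (by omega)) Z hZ

end Pos

end GradedTop
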