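import Pool.Agent.Lib.GradedPos.Def

/-!
# Corollary P, module P9a: linear algebra (helper32)
-/

namespace GradedTop

namespace Pos

open Submodule Module GradedTop.Four GradedTop.Flag

/-- kernel of dimension at most one: the hypothesis `top`. (linear algebra) -/
theorem exists_top {F : Type} [Field F] {J2 : Type} [Fintype J2] {B2 : J2 → Type}
    [∀ i, Fintype (B2 i)] {B : Type} [Fintype B] (f : ∀ i, (B2 i → F) →ₗ[F] (B → F))
    (P : Finset J2) (hP : ∀ i, i ∉ P → f i = 0)
    (hs : (⨆ i, LinearMap.range (f i) : Submodule F (B → F)) = ⊤)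
    (hd : ∑ i ∈ P, Fintype.card (B2 i) ≤ Fintype.card B + 1) :
    ∃ (δ : Prop) (k : ∀ i, B2 i → F), (δ → ∑ i ∈ P, Fintype.card (B2 i) = Fintype.card B + 1) ∧
      ∀ N : ∀ i, Submodule F (B2 i → F),
        (¬ (δ ∧ ∀ i ∈ P, k i ∈ N i) →
          finrank F ((⨆ i, (N i).map (f i) : Submodule F (B → F))) = ∑ i ∈ P, finrank F (N i)) ∧
        ((δ ∧ ∀ i ∈ P, k i ∈ N i) →
          finrank F ((⨆ i, (N i).map (f i) : Submodule F (B → F))) + 1 =
            ∑ i ∈ P, finrank F (N i)) := by
  classical
  -- the sum map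
  let Φ : (∀ i : P, (B2 i → F)) →ₗ[F] (B → F) :=
    ∑ i : P, (f i) ∘ₗ LinearMap.proj (R := F) (φ := fun i : P => B2 i → F) i
  have hΦ : ∀ v, Φ v = ∑ i : P, f i (v i) := by
    intro v
    simp only [Φ, LinearMap.sum_apply, LinearMap.comp_apply, LinearMap.proj_apply]
  -- the restricted sum map
  let Ψ : ∀ N : ∀ i, Submodule F (B2 i → F), (∀ i : P, N i) →ₗ[F] (B → F) := fun N =>
    ∑ i : P, (f i) ∘ₗ (N i).subtype ∘ₗ LinearMap.proj (R := F) (φ := fun i : P => N i) i
  have hΨ : ∀ N v, Ψ N v = ∑ i : P, f i (v i : B2 i → F) := by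
    intro N v
    simp only [Ψ, LinearMap.sum_apply, LinearMap.comp_apply, LinearMap.proj_apply,
      Submodule.subtype_apply]
  have hrange : ∀ N, LinearMap.range (Ψ N) = ⨆ i, (N i).map (f i) := by
    intro N
    apply le_antisymm
    · rintro _ ⟨v, rfl⟩
      rw [hΨ]
      refine Submodule.sum_mem _ fun i _ => ?_
      exact (le_iSup (fun i => (N i).map (f i)) (i : J2)) (Submodule.mem_map_of_mem (v i).2)
    · refine iSup_le fun i => ?_
      by_cases hi : i ∈ P
      · rintro _ ⟨x, hx, rfl⟩
        refine ⟨Pi.single (⟨i, hi⟩ : P) (⟨x, hx⟩ : N i), ?_⟩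
        rw [hΨ, Finset.sum_eq_single (⟨i, hi⟩ : P)]
        · rw [Pi.single_eq_same]
        · intro j _ hj
          rw [Pi.single_eq_of_ne hj]
          simp only [ZeroMemClass.coe_zero, map_zero]
        · intro h
          exact absurd (Finset.mem_univ _) h
      · rw [hP i hi, Submodule.map_zero]
        exact bot_le
  have hrank : ∀ N, finrank F (LinearMap.range (Ψ N)) + finrank F (LinearMap.ker (Ψ N)) =
      ∑ i ∈ P, finrank F (N i) := by
    intro N
    rw [LinearMap.finrank_range_add_finrank_ker, Module.finrank_pi_fintype]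
    exact Finset.sum_coe_sort P (fun i => finrank F (N i))
  -- the kernel of the sum map
  have hsurj : LinearMap.range Φ = ⊤ := by
    rw [← hs]
    apply le_antisymm
    · rintro _ ⟨v, rfl⟩
      rw [hΦ]
      refine Submodule.sum_mem _ fun i _ => ?_
      exact (le_iSup (fun i => LinearMap.range (f i)) (i : J2)) ⟨v i, rfl⟩
    · refine iSup_le fun i => ?_
      by_cases hi : i ∈ P
      · rintro _ ⟨x, rfl⟩
        refine ⟨Pi.single (⟨i, hi⟩ : P) x, ?_⟩
        rw [hΦ, Finset.sum_eq_single (⟨i, hi⟩ : P)]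
        · rw [Pi.single_eq_same]
        · intro j _ hj
          rw [Pi.single_eq_of_ne hj, map_zero]
        · intro h
          exact absurd (Finset.mem_univ _) h
      · rw [hP i hi, LinearMap.range_zero]
        exact bot_le
  have hK : Fintype.card B + finrank F (LinearMap.ker Φ) = ∑ i ∈ P, Fintype.card (B2 i) := by
    have h1 := LinearMap.finrank_range_add_finrank_ker Φ
    rw [hsurj, finrank_top, Module.finrank_fintype_fun_eq_card, Module.finrank_pi_fintype] at h1
    rw [h1, ← Finset.sum_coe_sort P (fun i => Fintype.card (B2 i))]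
    exact Finset.sum_congr rfl fun i _ => Module.finrank_fintype_fun_eq_card F
  -- elements of the kernel of the restricted map
  have hker : ∀ (N : ∀ i, Submodule F (B2 i → F)) (v : ∀ i : P, N i), v ∈ LinearMap.ker (Ψ N) ↔
      (fun i : P => ((v i : N i) : B2 i → F)) ∈ LinearMap.ker Φ := by
    intro N v
    rw [LinearMap.mem_ker, LinearMap.mem_ker, hΨ, hΦ]
  by_cases h0 : finrank F (LinearMap.ker Φ) = 0
  · have hbot : LinearMap.ker Φ = ⊥ := Submodule.finrank_eq_zero.1 h0
    refine ⟨False, fun _ => 0, fun h => h.elim, fun N => ⟨fun _ => ?_, fun h => h.1.elim⟩⟩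
    have hb : LinearMap.ker (Ψ N) = ⊥ := by
      rw [Submodule.eq_bot_iff]
      intro v hv
      rw [hker, hbot, Submodule.mem_bot] at hv
      funext i
      apply Subtype.ext
      exact congrFun hv i
    have h1 := hrank N
    rw [hb, finrank_bot, add_zero, hrange] at h1
    exact h1
  · have h1 : finrank F (LinearMap.ker Φ) = 1 := by omega
    obtain ⟨k0, hk0, hspan⟩ := finrank_eq_one_iff'.1 h1
    have hk0' : (k0 : ∀ i : P, (B2 i → F)) ≠ 0 := fun h => hk0 (Subtype.ext h)
    refine ⟨True, fun i => if h : i ∈ P then k0.1 ⟨i, h⟩ else 0, fun _ => by omega, fun N => ?_⟩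
    have hmem : (True ∧ ∀ i ∈ P, (if h : i ∈ P then k0.1 ⟨i, h⟩ else 0) ∈ N i) ↔
        ∀ i : P, k0.1 i ∈ N i := by
      constructor
      · rintro ⟨_, h⟩ i
        have := h i i.2
        rwa [dif_pos i.2] at this
      · intro h
        refine ⟨trivial, fun i hi => ?_⟩
        rw [dif_pos hi]
        exact h ⟨i, hi⟩
    have h2 := hrank N
    rw [hrange] at h2
    constructor
    · intro hn
      rw [hmem] at hn
      have hb : LinearMap.ker (Ψ N) = ⊥ := by
        rw [Submodule.eq_bot_iff]
        intro v hv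
        rw [hker] at hv
        obtain ⟨c, hc⟩ := hspan ⟨_, hv⟩
        have hc' : c • k0.1 = fun i : P => ((v i : N i) : B2 i → F) := congrArg Subtype.val hc
        have hc0 : c = 0 := by
          by_contra hc0
          apply hn
          intro i
          have h3 : c • k0.1 i = ((v i : N i) : B2 i → F) := congrFun hc' i
          have h4 : k0.1 i = c⁻¹ • ((v i : N i) : B2 i → F) := by
            rw [← h3, smul_smul, inv_mul_cancel₀ hc0, one_smul]
          rw [h4]
          exact Submodule.smul_mem _ _ (v i).2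
        rw [hc0, zero_smul] at hc'
        funext i
        apply Subtype.ext
        exact (congrFun hc' i).symm
      rw [hb, finrank_bot, add_zero] at h2
      exact h2
    · intro hy
      rw [hmem] at hy
      let ι : (∀ i : P, N i) →ₗ[F] (∀ i : P, (B2 i → F)) :=
        LinearMap.pi fun i => (N i).subtype ∘ₗ
          LinearMap.proj (R := F) (φ := fun i : P => N i) i
      have hι : ∀ v i, ι v i = (v i : B2 i → F) := fun v i => rfl
      have hinj : Function.Injective ι := by
        intro v w hvw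
        funext i
        apply Subtype.ext
        exact congrFun hvw i
      have hmk : (LinearMap.ker (Ψ N)).map ι = LinearMap.ker Φ := by
        apply le_antisymm
        · rintro _ ⟨v, hv, rfl⟩
          exact (hker N v).1 hv
        · intro w hw
          obtain ⟨c, hc⟩ := hspan ⟨w, hw⟩
          have hc' : c • k0.1 = w := congrArg Subtype.val hc
          have hwN : ∀ i : P, w i ∈ N i := by
            intro i
            rw [← hc']
            exact Submodule.smul_mem _ _ (hy i)
          exact ⟨fun i => ⟨w i, hwN i⟩, (hker N _).2 hw, rfl⟩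
      have h3 : finrank F (LinearMap.ker (Ψ N)) = 1 := by
        rw [← h1, ← hmk]
        exact (Submodule.equivMapOfInjective ι hinj _).finrank_eq
      rw [h3] at h2
      exact h2

section

variable {F : Type} [Field F] {J1 : Type} {B1 : J1 → Type} [∀ i, Fintype (B1 i)]

lemma famL_line {n : J1 → ℕ} {l : Pl B1 → Ln F} {i : J1}
    (h : Fintype.card (B1 i) = 2 ∧ n i = 1) :
    famL n l i = (l ⟨i, h.1⟩).1.comap (el F B1 ⟨i, h.1⟩ : (B1 i → F) →ₗ[F] (Fin 2 → F)) := by
  unfold famL
  rw [dif_pos h]

lemma famL_const {n : J1 → ℕ} {l : Pl B1 → Ln F} {i : J1}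
    (h : ¬ (Fintype.card (B1 i) = 2 ∧ n i = 1)) :
    famL n l i = if n i = 0 then ⊥ else ⊤ := by
  unfold famL
  rw [dif_neg h]

/-- the dimension of the family does not depend on the lines -/
lemma finrank_famL (n : J1 → ℕ) (l : Pl B1 → Ln F) (i : J1) :
    finrank F (famL n l i) = if Fintype.card (B1 i) = 2 ∧ n i = 1 then 1 else
      if n i = 0 then 0 else Fintype.card (B1 i) := by
  by_cases h : Fintype.card (B1 i) = 2 ∧ n i = 1
  · rw [famL_line h, if_pos h]
    rw [Submodule.comap_equiv_eq_map_symm, LinearEquiv.finrank_map_eq]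
    exact (l ⟨i, h.1⟩).2
  · rw [famL_const h, if_neg h]
    by_cases h0 : n i = 0
    · rw [if_pos h0, if_pos h0, finrank_bot]
    · rw [if_neg h0, if_neg h0, finrank_top, Module.finrank_fintype_fun_eq_card]

lemma IsCl.famL_mem [Finite F] (n : J1 → ℕ) (i : J1) (v : B1 i → F) :
    IsCl {l : Pl B1 → Ln F | v ∈ famL n l i} := by
  by_cases h : Fintype.card (B1 i) = 2 ∧ n i = 1
  · have h1 := IsCl.mem (F := F) (⟨i, h.1⟩ : Pl B1) (el F B1 ⟨i, h.1⟩ v)
    convert h1 using 2
    ext l
    rw [famL_line h]
    rfl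
  · have h1 := IsCl.const (F := F) (T := Pl B1)
      (v ∈ (if n i = 0 then (⊥ : Submodule F (B1 i → F)) else ⊤))
    convert h1 using 2
    ext l
    rw [famL_const h]

end

/-- closedness, if at most one plane is involved -/
theorem closed_one {F : Type} [Field F] [Finite F] {J1 : Type} [Fintype J1] {B1 : J1 → Type}
    [∀ i, Fintype (B1 i)] {B : Type} [Fintype B] (f : ∀ i, (B1 i → F) →ₗ[F] (B → F))
    (s : J1) (hf : ∀ i, Fintype.card (B1 i) = 2 → f i ≠ 0 → i = s) (n : J1 → ℕ)
    (R : Submodule F (B → F)) (m : ℕ) :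
    IsCl {l : Pl B1 → Ln F | finrank F
      (((⨆ i, (famL n l i).map (f i)) ⊔ R : Submodule F (B → F))) ≤ m} := by
  classical
  -- the part which does not depend on the lines
  have hc : ∀ (l : Pl B1 → Ln F) (i : J1), i ≠ s →
      (famL n l i).map (f i) = (if n i = 0 then ⊥ else ⊤ : Submodule F (B1 i → F)).map (f i) := by
    intro l i hi
    by_cases h : Fintype.card (B1 i) = 2 ∧ n i = 1
    · have h0 : f i = 0 := by
        by_contra h0
        exact hi (hf i h.1 h0)
      rw [h0, Submodule.map_zero, Submodule.map_zero]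
    · rw [famL_const h]
  have hsplit : ∀ l : Pl B1 → Ln F, ((⨆ i, (famL n l i).map (f i)) ⊔ R : Submodule F (B → F)) =
      (famL n l s).map (f s) ⊔ ((⨆ i : {i // i ≠ s},
        (if n i = 0 then ⊥ else ⊤ : Submodule F (B1 i → F)).map (f i)) ⊔ R) := by
    intro l
    rw [← sup_assoc]
    congr 1
    apply le_antisymm
    · refine iSup_le fun i => ?_
      by_cases hi : i = s
      · subst hi
        exact le_sup_left
      · refine le_trans ?_ le_sup_right
        rw [hc l i hi]
        exact le_iSup (fun i : {i // i ≠ s} =>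
          (if n i = 0 then ⊥ else ⊤ : Submodule F (B1 i → F)).map (f i)) ⟨i, hi⟩
    · refine sup_le (le_iSup (fun i => (famL n l i).map (f i)) s) (iSup_le fun i => ?_)
      rw [← hc l i i.2]
      exact le_iSup (fun i => (famL n l i).map (f i)) (i : J1)
  set R' : Submodule F (B → F) := (⨆ i : {i // i ≠ s},
        (if n i = 0 then ⊥ else ⊤ : Submodule F (B1 i → F)).map (f i)) ⊔ R with hR'
  by_cases h : Fintype.card (B1 s) = 2 ∧ n s = 1
  · have hmap : ∀ l : Pl B1 → Ln F, (famL n l s).map (f s) = (l ⟨s, h.1⟩).1.map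
        ((f s) ∘ₗ ((el F B1 ⟨s, h.1⟩).symm : (Fin 2 → F) →ₗ[F] (B1 s → F))) := by
      intro l
      rw [famL_line h, Submodule.comap_equiv_eq_map_symm, Submodule.map_comp]
    set g : (Fin 2 → F) →ₗ[F] (B → F) :=
      (f s) ∘ₗ ((el F B1 ⟨s, h.1⟩).symm : (Fin 2 → F) →ₗ[F] (B1 s → F)) with hg
    have hone : ∀ l : Pl B1 → Ln F, finrank F ((l ⟨s, h.1⟩).1.map g) ≤ 1 := by
      intro l
      exact (Submodule.finrank_map_le _ _).trans (l ⟨s, h.1⟩).2.le
    rcases lt_trichotomy (finrank F R') m with hm | hm | hm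
    · have h1 := IsCl.const (F := F) (T := Pl B1) True
      convert h1 using 2
      ext l
      rw [hsplit, hmap]
      refine iff_of_true ?_ trivial
      have h2 := Submodule.finrank_add_le_finrank_add_finrank ((l ⟨s, h.1⟩).1.map g) R'
      have h3 := hone l
      omega
    · have h1 := IsCl.le (F := F) (⟨s, h.1⟩ : Pl B1) (R'.comap g)
      convert h1 using 2
      ext l
      rw [hsplit, hmap, ← Submodule.map_le_iff_le_comap]
      constructor
      · intro h2
        have h3 : R' = (l ⟨s, h.1⟩).1.map g ⊔ R' :=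
          Submodule.eq_of_le_of_finrank_le le_sup_right (by rw [hm]; exact h2)
        rw [h3]
        exact le_sup_left
      · intro h2
        rw [sup_eq_right.2 h2, hm]
    · have h1 := IsCl.const (F := F) (T := Pl B1) False
      convert h1 using 2
      ext l
      rw [hsplit]
      refine iff_of_false ?_ id
      have h2 : finrank F R' ≤ finrank F ((famL n l s).map (f s) ⊔ R' : Submodule F (B → F)) :=
        Submodule.finrank_mono le_sup_right
      omega
  · have h1 := IsCl.const (F := F) (T := Pl B1) (finrank F (((if n s = 0 then ⊥ else ⊤ :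
      Submodule F (B1 s → F)).map (f s) ⊔ R' : Submodule F (B → F))) ≤ m)
    convert h1 using 2
    ext l
    rw [hsplit, famL_const h]

/-- closedness, if the kernel has dimension at most one -/
theorem closed_ker {F : Type} [Field F] [Finite F] {J1 : Type} [Fintype J1] {B1 : J1 → Type}
    [∀ i, Fintype (B1 i)] {B : Type} [Fintype B] (f : ∀ i, (B1 i → F) →ₗ[F] (B → F))
    (P : Finset J1) (hP : ∀ i, i ∉ P → f i = 0) (δ : Prop) (k : ∀ i, B1 i → F)
    (hk : ∀ N : ∀ i, Submodule F (B1 i → F),
        (¬ (δ ∧ ∀ i ∈ P, k i ∈ N i) →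
          finrank F ((⨆ i, (N i).map (f i) : Submodule F (B → F))) = ∑ i ∈ P, finrank F (N i)) ∧
        ((δ ∧ ∀ i ∈ P, k i ∈ N i) →
          finrank F ((⨆ i, (N i).map (f i) : Submodule F (B → F))) + 1 =
            ∑ i ∈ P, finrank F (N i))) (n : J1 → ℕ) (m : ℕ) :
    IsCl {l : Pl B1 → Ln F | finrank F
      ((⨆ i, (famL n l i).map (f i) : Submodule F (B → F))) ≤ m} := by
  classical
  set c : ℕ := ∑ i ∈ P, (if Fintype.card (B1 i) = 2 ∧ n i = 1 then 1 else
      if n i = 0 then 0 else Fintype.card (B1 i)) with hc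
  have hsum : ∀ l : Pl B1 → Ln F, ∑ i ∈ P, finrank F (famL n l i) = c :=
    fun l => Finset.sum_congr rfl fun i _ => finrank_famL n l i
  rcases lt_trichotomy c (m + 1) with hm | hm | hm
  · have h1 := IsCl.const (F := F) (T := Pl B1) True
    convert h1 using 2
    ext l
    refine iff_of_true ?_ trivial
    by_cases h : δ ∧ ∀ i ∈ P, k i ∈ famL n l i
    · have := (hk (famL n l)).2 h
      rw [hsum] at this
      omega
    · have := (hk (famL n l)).1 h
      rw [hsum] at this
      omega
  · have h1 : IsCl ({_l : Pl B1 → Ln F | δ} ∩ {l | ∀ i : P, l ∈ {l | k i ∈ famL n l i}}) :=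
      (IsCl.const δ).inter (IsCl.forall_finite fun i : P => IsCl.famL_mem n i (k i))
    convert h1 using 2
    ext l
    rw [Set.mem_ofPred_eq, Set.mem_inter_iff, Set.mem_ofPred_eq, Set.mem_ofPred_eq]
    constructor
    · intro h2
      by_contra h
      have h' : ¬ (δ ∧ ∀ i ∈ P, k i ∈ famL n l i) := fun h3 => h ⟨h3.1, fun i => h3.2 i i.2⟩
      have := (hk (famL n l)).1 h'
      rw [hsum] at this
      omega
    · rintro ⟨h3, h4⟩
      have := (hk (famL n l)).2 ⟨h3, fun i hi => h4 ⟨i, hi⟩⟩
      rw [hsum] at this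
      omega
  · have h1 := IsCl.const (F := F) (T := Pl B1) False
    convert h1 using 2
    ext l
    refine iff_of_false ?_ id
    by_cases h : δ ∧ ∀ i ∈ P, k i ∈ famL n l i
    · have := (hk (famL n l)).2 h
      rw [hsum] at this
      omega
    · have := (hk (famL n l)).1 h
      rw [hsum] at this
      omega

end Pos

end GradedTop
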