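import Pool.Agent.Lib.GradedPos.LinAlg

/-!
# Corollary P, module P3: the first block
-/

namespace GradedTop

namespace Pos

open Submodule Module GradedTop.Four GradedTop.Flag

lemma AdmDim.anti {m r : ℕ} {n : Fin (r + 1) → ℕ} (h : AdmDim m r n) : Antitone n := by
  refine Fin.antitone_iff_succ_le.2 fun t => ?_
  rcases h.step t with h1 | h1 <;> omega

lemma AdmDim.le {m r : ℕ} {n : Fin (r + 1) → ℕ} (h : AdmDim m r n) (t : Fin (r + 1)) :
    n t ≤ m := by
  rw [← h.zero]
  exact h.anti (Fin.zero_le t)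

lemma AdmDim.exists_one {r : ℕ} {n : Fin (r + 1) → ℕ} (h : AdmDim 2 r n) : ∃ t, n t = 1 := by
  by_contra hne
  push Not at hne
  have key : ∀ t, n t = 2 := by
    intro t
    induction t using Fin.induction with
    | zero => exact h.zero
    | succ t ih =>
      have h1 := hne t.succ
      rcases h.step t with h2 | h2 <;> omega
  have h3 := key (Fin.last r)
  have h4 := h.last
  omega

section

variable {F : Type} [Field F] {J1 : Type} {B1 : J1 → Type} [∀ i, Fintype (B1 i)]

lemma famL_congr {n n' : J1 → ℕ} (l : Pl B1 → Ln F) (i : J1) (h : n' i = n i) :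
    famL n' l i = famL n l i := by
  unfold famL
  simp only [h]

lemma famL_le {n n' : J1 → ℕ} (l : Pl B1 → Ln F) (i : J1) (h : n' i ≤ n i) :
    famL n' l i ≤ famL n l i := by
  rcases h.eq_or_lt with h1 | h1
  · exact (famL_congr l i h1).le
  · by_cases h2 : Fintype.card (B1 i) = 2 ∧ n i = 1
    · have h3 : n' i = 0 := by omega
      rw [famL_const (n := n') (by omega), if_pos h3]
      exact bot_le
    · rw [famL_const h2, if_neg (by omega)]
      exact le_top

lemma finrank_famL_eq {n : J1 → ℕ} (l : Pl B1 → Ln F) (i : J1) (h : n i ≤ Fintype.card (B1 i))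
    (h2 : Fintype.card (B1 i) ≤ 2) : finrank F (famL n l i) = n i := by
  rw [finrank_famL]
  split_ifs <;> omega

lemma IsCl.map_le_famL [Finite F] (n : J1 → ℕ) (i i' : J1) (f : (B1 i → F) →ₗ[F] (B1 i' → F))
    (h : Fintype.card (B1 i) = 2 → f = 0) :
    IsCl {l : Pl B1 → Ln F | (famL n l i).map f ≤ famL n l i'} := by
  by_cases h2 : Fintype.card (B1 i) = 2
  · have h1 := IsCl.const (F := F) (T := Pl B1) True
    convert h1 using 2
    ext l
    refine iff_of_true ?_ trivial
    rw [h h2, Submodule.map_zero]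
    exact bot_le
  · have h1 : IsCl {l : Pl B1 → Ln F |
        ∀ v : ((if n i = 0 then ⊥ else ⊤ : Submodule F (B1 i → F)).map f :
          Submodule F (B1 i' → F)), l ∈ {l : Pl B1 → Ln F | (v.1 : B1 i' → F) ∈ famL n l i'}} :=
      IsCl.forall_finite fun v => IsCl.famL_mem n i' v.1
    convert h1 using 2
    ext l
    rw [famL_const (fun h' => h2 h'.1)]
    simp only [Set.mem_ofPred_eq, Subtype.forall]
    rfl

end

/-- admissible filtrations of the first block are the families `famL` for lines satisfying closed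
conditions -/
theorem low_closed {F : Type} [Field F] [Finite F] {J1 J2 J3 : Type} [Fintype J1] [Fintype J2]
    [Fintype J3] {B1 : J1 → Type} {B2 : J2 → Type} {B3 : J3 → Type} [∀ i, Fintype (B1 i)]
    [∀ i, Fintype (B2 i)] [∀ i, Fintype (B3 i)] (S : S3 F B1 B2 B3) (P : J3 → Finset J2)
    (δ : J3 → Prop) (k : ∀ (_ : J3) (i : J2), B2 i → F) (h : S.Good P δ k) (r : ℕ)
    (n1 : J1 → Fin (r + 1) → ℕ) (h1 : ∀ i, AdmDim (Fintype.card (B1 i)) r (n1 i)) :
    ∃ Z : Set (Pl B1 → Ln F), IsCl Z ∧
      Set.BijOn (fun (l : Pl B1 → Ln F) (t : Fin (r + 1)) (i : J1) => famL (fun i => n1 i t) l i) Z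
        {N : Fin (r + 1) → ∀ i, Submodule F (B1 i → F) | Antitone N ∧
          (∀ t i i', (N t i).map (S.f11 i i') ≤ N t i') ∧ ∀ t i, finrank F (N t i) = n1 i t} := by
  classical
  have hle : ∀ i t, n1 i t ≤ Fintype.card (B1 i) := fun i t => (h1 i).le t
  have hone : ∀ s : Pl B1, ∃ t, n1 s.1 t = 1 := fun s => by
    have := h1 s.1
    rw [s.2] at this
    exact this.exists_one
  choose τ hτ using hone
  refine ⟨{l | ∀ x : Fin (r + 1) × J1 × J1, l ∈ {l : Pl B1 → Ln F |
    (famL (fun i => n1 i x.1) l x.2.1).map (S.f11 x.2.1 x.2.2) ≤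
      famL (fun i => n1 i x.1) l x.2.2}},
    IsCl.forall_finite fun x => IsCl.map_le_famL _ _ _ _ (h.pl _ _), ?_, ?_, ?_⟩
  · intro l hl
    refine ⟨fun t t' htt i => famL_le l i ((h1 i).anti htt), fun t i i' => hl (t, i, i'),
      fun t i => finrank_famL_eq l i (hle i t) (h.two i)⟩
  · intro l _ l' _ hll
    funext s
    have h2 := congrFun (congrFun hll (τ s)) s.1
    simp only at h2
    rw [famL_line (l := l) ⟨s.2, hτ s⟩, famL_line (l := l') ⟨s.2, hτ s⟩] at h2
    exact Subtype.ext (Submodule.comap_injective_of_surjective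
      (f := (el F B1 ⟨s.1, s.2⟩ : (B1 s.1 → F) →ₗ[F] (Fin 2 → F)))
      (el F B1 ⟨s.1, s.2⟩).surjective h2)
  · rintro N ⟨hN1, hN2, hN3⟩
    set l : Pl B1 → Ln F := fun s =>
      ⟨(N (τ s) s.1).map (el F B1 s : (B1 s.1 → F) →ₗ[F] (Fin 2 → F)), by
        rw [LinearEquiv.finrank_map_eq, hN3, hτ]⟩ with hl
    have key : ∀ t i, famL (fun i => n1 i t) l i = N t i := by
      intro t i
      by_cases h2 : Fintype.card (B1 i) = 2 ∧ n1 i t = 1
      · rw [famL_line h2]
        have h3 : N (τ ⟨i, h2.1⟩) i = N t i := by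
          have h4 : finrank F (N (τ ⟨i, h2.1⟩) i) = finrank F (N t i) := by
            rw [hN3, hN3]
            exact (hτ ⟨i, h2.1⟩).trans h2.2.symm
          rcases le_total t (τ ⟨i, h2.1⟩) with h5 | h5
          · exact Submodule.eq_of_le_of_finrank_eq (hN1 h5 i) h4
          · exact (Submodule.eq_of_le_of_finrank_eq (hN1 h5 i) h4.symm).symm
        rw [hl]
        simp only
        rw [h3]
        exact Submodule.comap_map_eq_of_injective (el F B1 ⟨i, h2.1⟩).injective _
      · rw [famL_const h2]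
        by_cases h3 : n1 i t = 0
        · rw [if_pos h3]
          refine (Submodule.finrank_eq_zero.1 ?_).symm
          rw [hN3, h3]
        · rw [if_neg h3]
          refine (Submodule.eq_top_of_finrank_eq ?_).symm
          rw [hN3, Module.finrank_fintype_fun_eq_card]
          have h4 := hle i t
          have h5 := h.two i
          omega
    refine ⟨l, ?_, ?_⟩
    · rintro ⟨t, i, i'⟩
      change (famL (fun i => n1 i t) l i).map (S.f11 i i') ≤ famL (fun i => n1 i t) l i'
      rw [key, key]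
      exact hN2 t i i'
    · funext t i
      exact key t i

end Pos

end GradedTop
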