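import Pool.Agent.Lib.GradedPos.Def

/-!
# Filtrations of one space above a given filtration
-/

namespace GradedTop

namespace Pos

open Submodule Module GradedTop.Four GradedTop.Flag

/-- dimension of a preimage under a surjection -/
lemma p1_finrank_comap {F V Q : Type} [Field F] [AddCommGroup V] [Module F V]
    [FiniteDimensional F V] [AddCommGroup Q] [Module F Q] (f : V →ₗ[F] Q)
    (hf : Function.Surjective f) (Y : Submodule F Q) :
    finrank F (Y.comap f) = finrank F Y + finrank F (LinearMap.ker f) := by
  have h := LinearMap.finrank_range_add_finrank_ker (f.domRestrict (Y.comap f))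
  have h1 : LinearMap.range (f.domRestrict (Y.comap f)) = Y := by
    rw [LinearMap.range_domRestrict, Submodule.map_comap_eq, LinearMap.range_eq_top.2 hf, top_inf_eq]
  have h2 : finrank F (LinearMap.ker (f.domRestrict (Y.comap f))) =
      finrank F (LinearMap.ker f) := by
    have h3 : LinearMap.ker (f.domRestrict (Y.comap f)) =
        (LinearMap.ker f).comap (Y.comap f).subtype := by
      rw [LinearMap.domRestrict, LinearMap.ker_comp]
    rw [h3]
    exact (Submodule.comapSubtypeEquivOfLe (by
      intro x hx
      rw [Submodule.mem_comap, LinearMap.mem_ker.1 hx]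
      exact Y.zero_mem)).finrank_eq
  rw [h1, h2] at h
  exact h.symm

/-- the number of hyperplanes of a space -/
lemma p1_card_hyp (F Q : Type) [Field F] [Finite F] [AddCommGroup Q] [Module F Q]
    [FiniteDimensional F Q] :
    Nat.card {Y : Submodule F Q // finrank F Y + 1 = finrank F Q} ≡ finrank F Q
      [MOD Nat.card F - 1] := by
  have e1 : {Y : Submodule F Q // finrank F Y + 1 = finrank F Q} ≃
      {H : Submodule F (Dual F Q) // finrank F H = 1} := by
    refine Equiv.subtypeEquiv ((Subspace.orderIsoFiniteDimensional (K := F) (V := Q)).toEquiv.trans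
      OrderDual.ofDual) ?_
    intro Y
    have h := Subspace.finrank_add_finrank_dualAnnihilator_eq Y
    change finrank F Y + 1 = finrank F Q ↔ finrank F (Y.dualAnnihilator) = 1
    omega
  rw [Nat.card_congr (e1.trans (Projectivization.equivSubmodule F (Dual F Q)).symm),
    Projectivization.card_of_finrank F (Dual F Q) (Subspace.dual_finrank_eq (K := F) (V := Q))]
  have h2 : ∀ i, Nat.card F ^ i ≡ 1 [MOD Nat.card F - 1] := by
    intro i
    have h3 : Nat.card F ≡ 1 [MOD Nat.card F - 1] := by
      have h4 : 1 ≤ Nat.card F := Nat.card_pos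
      exact ((Nat.modEq_iff_dvd' h4).2 dvd_rfl).symm
    simpa using h3.pow i
  have h5 : ∀ n, ∑ i ∈ Finset.range n, Nat.card F ^ i ≡ n [MOD Nat.card F - 1] := by
    intro n
    induction n with
    | zero => simp [Nat.ModEq]
    | succ n ih =>
      rw [Finset.sum_range_succ]
      exact ih.add (h2 n)
  exact h5 _

/-- the number of hyperplanes of `W` above `U` -/
lemma p1_card_between {F V : Type} [Field F] [Finite F] [AddCommGroup V] [Module F V]
    [FiniteDimensional F V] (U W : Submodule F V) (h : U ≤ W) :
    Nat.card {X : Submodule F V // U ≤ X ∧ X ≤ W ∧ finrank F X + 1 = finrank F W} ≡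
      finrank F W - finrank F U [MOD Nat.card F - 1] := by
  set U' : Submodule F W := U.comap W.subtype with hU'
  have hU1 : finrank F U' = finrank F U := (Submodule.comapSubtypeEquivOfLe h).finrank_eq
  have hQ : finrank F (W ⧸ U') = finrank F W - finrank F U := by
    have := Submodule.finrank_quotient_add_finrank U'
    omega
  have hle : finrank F U ≤ finrank F W := Submodule.finrank_mono h
  have hker : LinearMap.ker U'.mkQ = U' := Submodule.ker_mkQ U'
  have key : Nat.card {Y : Submodule F (W ⧸ U') // finrank F Y + 1 = finrank F (W ⧸ U')} =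
      Nat.card {X : Submodule F V // U ≤ X ∧ X ≤ W ∧ finrank F X + 1 = finrank F W} := by
    refine Nat.card_congr (Equiv.ofBijective
      (fun Y => ⟨(Y.1.comap U'.mkQ).map W.subtype, ?_, ?_, ?_⟩) ⟨?_, ?_⟩)
    · intro x hx
      refine ⟨⟨x, h hx⟩, ?_, rfl⟩
      change U'.mkQ ⟨x, h hx⟩ ∈ Y.1
      have : U'.mkQ ⟨x, h hx⟩ = 0 := by
        rw [← LinearMap.mem_ker, hker]
        exact hx
      rw [this]
      exact Y.1.zero_mem
    · exact Submodule.map_subtype_le _ _
    · rw [Submodule.finrank_map_subtype_eq, p1_finrank_comap _ (Submodule.mkQ_surjective U'), hker,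
        hU1]
      have := Y.2
      omega
    · intro Y Y' hY
      have h1 := congrArg Subtype.val hY
      have h2 : Y.1.comap U'.mkQ = Y'.1.comap U'.mkQ :=
        Submodule.map_injective_of_injective W.injective_subtype h1
      exact Subtype.ext (Submodule.comap_injective_of_surjective (Submodule.mkQ_surjective U') h2)
    · rintro ⟨X, h1, h2, h3⟩
      set X' : Submodule F W := X.comap W.subtype with hX'
      have h4 : U' ≤ X' := Submodule.comap_mono h1
      have h5 : (X'.map U'.mkQ).comap U'.mkQ = X' := by
        rw [Submodule.comap_map_mkQ, sup_eq_right.2 h4]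
      have h6 : X'.map W.subtype = X := by
        rw [hX', Submodule.map_comap_subtype, inf_eq_right.2 h2]
      have h7 : finrank F (X'.map U'.mkQ) + finrank F U = finrank F X := by
        have := p1_finrank_comap _ (Submodule.mkQ_surjective U') (X'.map U'.mkQ)
        rw [h5, hker, hU1] at this
        rw [← this, ← h6, Submodule.finrank_map_subtype_eq]
      refine ⟨⟨X'.map U'.mkQ, by omega⟩, Subtype.ext ?_⟩
      change ((X'.map U'.mkQ).comap U'.mkQ).map W.subtype = X
      rw [h5, h6]
  rw [← key, ← hQ]
  exact p1_card_hyp F (W ⧸ U')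

/-- sums of congruent cardinalities -/
lemma p1_sigma {α : Type} [Finite α] {β : α → Type} [∀ a, Finite (β a)] (c q : ℕ)
    (h : ∀ a, Nat.card (β a) ≡ c [MOD q]) :
    Nat.card (Σ a, β a) ≡ Nat.card α * c [MOD q] := by
  have : Fintype α := Fintype.ofFinite α
  rw [Nat.card_sigma, Nat.card_eq_fintype_card, ← smul_eq_mul, ← Finset.card_univ,
    ← Finset.sum_const]
  exact Nat.ModEq.sum fun a _ => h a

/-- the count without the condition on the last dimension -/
theorem p1_count (F : Type) [Field F] [Finite F] (B : Type) [Fintype B] :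
    ∀ (r : ℕ) (n : Fin (r + 1) → ℕ), n 0 = Fintype.card B →
      (∀ t : Fin r, n t.castSucc = n t.succ ∨ n t.castSucc = n t.succ + 1) →
      ∀ (U : Fin (r + 1) → Submodule F (B → F)), Antitone U →
      Nat.card {N : Fin (r + 1) → Submodule F (B → F) //
        Antitone N ∧ (∀ t, finrank F (N t) = n t) ∧ ∀ t, U t ≤ N t} ≡
      ∏ t : Fin r, (if n t.castSucc = n t.succ then 1 else n t.castSucc - finrank F (U t.succ))
        [MOD Nat.card F - 1] := by
  intro r
  induction r with
  | zero =>
    intro n h0 _ U _
    have h1 : Nat.card {N : Fin (0 + 1) → Submodule F (B → F) //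
        Antitone N ∧ (∀ t, finrank F (N t) = n t) ∧ ∀ t, U t ≤ N t} = 1 := by
      rw [Nat.card_eq_one_iff_unique]
      refine ⟨⟨?_⟩, ⟨⟨fun _ => ⊤, ?_, ?_, ?_⟩⟩⟩
      · rintro ⟨N, _, h2, _⟩ ⟨N', _, h2', _⟩
        refine Subtype.ext (funext fun t => ?_)
        have ht : t = 0 := Fin.ext (by omega)
        subst ht
        have h3 : finrank F (N 0) = finrank F (B → F) := by
          rw [h2 0, h0, Module.finrank_fintype_fun_eq_card]
        have h3' : finrank F (N' 0) = finrank F (B → F) := by
          rw [h2' 0, h0, Module.finrank_fintype_fun_eq_card]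
        exact (Submodule.eq_top_of_finrank_eq h3).trans (Submodule.eq_top_of_finrank_eq h3').symm
      · exact fun _ _ _ => le_rfl
      · intro t
        have ht : t = 0 := Fin.ext (by omega)
        subst ht
        rw [finrank_top, Module.finrank_fintype_fun_eq_card, h0]
      · exact fun _ => le_top
    rw [h1]
    simp [Nat.ModEq]
  | succ r ih =>
    intro n h0 hs U hU
    have ih' := ih (fun t => n t.castSucc) (by simpa using h0)
      (fun t => by simpa using hs t.castSucc) (fun t => U t.castSucc)
      (fun s t hst => hU (by simpa using hst))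
    set A := {N : Fin (r + 1) → Submodule F (B → F) //
        Antitone N ∧ (∀ t, finrank F (N t) = n t.castSucc) ∧ ∀ t, U t.castSucc ≤ N t} with hA
    have hfin : Finite (Submodule F (B → F)) := inferInstance
    let βf : A → Type := fun N => {X : Submodule F (B → F) //
      U (Fin.last (r + 1)) ≤ X ∧ X ≤ N.1 (Fin.last r) ∧ finrank F X = n (Fin.last (r + 1))}
    have e : {N : Fin (r + 1 + 1) → Submodule F (B → F) //
        Antitone N ∧ (∀ t, finrank F (N t) = n t) ∧ ∀ t, U t ≤ N t} ≃ Σ N : A, βf N := by
      refine
        { toFun := fun N => ⟨⟨fun t => N.1 t.castSucc, fun s t hst => N.2.1 (by simpa using hst),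
            fun t => N.2.2.1 _, fun t => N.2.2.2 _⟩,
            ⟨N.1 (Fin.last (r + 1)), N.2.2.2 _, N.2.1 (Fin.le_last _), N.2.2.1 _⟩⟩
          invFun := fun N => ⟨Fin.snoc (α := fun _ => Submodule F (B → F)) N.1.1 N.2.1, ?_, ?_, ?_⟩
          left_inv := ?_
          right_inv := ?_ }
      · refine Fin.antitone_iff_succ_le.2 ?_
        intro t
        refine Fin.lastCases ?_ (fun t => ?_) t
        · rw [Fin.snoc_castSucc, Fin.succ_last, Fin.snoc_last]
          exact N.2.2.2.1
        · rw [Fin.snoc_castSucc, ← Fin.castSucc_succ, Fin.snoc_castSucc]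
          exact N.1.2.1 (Fin.castSucc_le_succ t)
      · intro t
        refine Fin.lastCases ?_ (fun t => ?_) t
        · rw [Fin.snoc_last]
          exact N.2.2.2.2
        · rw [Fin.snoc_castSucc]
          exact N.1.2.2.1 t
      · intro t
        refine Fin.lastCases ?_ (fun t => ?_) t
        · rw [Fin.snoc_last]
          exact N.2.2.1
        · rw [Fin.snoc_castSucc]
          exact N.1.2.2.2 t
      · rintro ⟨N, h1, h2, h3⟩
        refine Subtype.ext (funext fun t => ?_)
        refine Fin.lastCases ?_ (fun t => ?_) t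
        · simp only [Fin.snoc_last]
        · simp only [Fin.snoc_castSucc]
      · rintro ⟨⟨N, h1, h2, h3⟩, ⟨X, h4, h5, h6⟩⟩
        refine Sigma.subtype_ext ?_ ?_
        · refine Subtype.ext (funext fun t => ?_)
          simp only [Fin.snoc_castSucc]
        · simp only [Fin.snoc_last]
    rw [Nat.card_congr e, Fin.prod_univ_castSucc]
    refine (p1_sigma (if n (Fin.last r).castSucc = n (Fin.last r).succ then 1 else
      n (Fin.last r).castSucc - finrank F (U (Fin.last r).succ)) _ ?_).trans ?_
    · rintro ⟨N, h1, h2, h3⟩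
      have h4 : U (Fin.last (r + 1)) ≤ N (Fin.last r) :=
        (hU (Fin.le_last _)).trans (h3 (Fin.last r))
      have h5 := hs (Fin.last r)
      rw [Fin.succ_last] at h5 ⊢
      split_ifs with h6
      · have h7 : Nat.card (βf ⟨N, h1, h2, h3⟩) = 1 := by
          rw [Nat.card_eq_one_iff_unique]
          refine ⟨⟨?_⟩, ⟨⟨N (Fin.last r), h4, le_rfl, by rw [h2, h6]⟩⟩⟩
          rintro ⟨X, _, h8, h9⟩ ⟨X', _, h8', h9'⟩
          refine Subtype.ext ?_
          have h10 : X = N (Fin.last r) := Submodule.eq_of_le_of_finrank_eq h8 (by rw [h9, h2, h6])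
          have h11 : X' = N (Fin.last r) :=
            Submodule.eq_of_le_of_finrank_eq h8' (by rw [h9', h2, h6])
          exact h10.trans h11.symm
        rw [h7]
      · have h7 := p1_card_between _ _ h4
        rw [h2] at h7
        refine Nat.ModEq.trans ?_ h7
        have h8 : Nat.card (βf ⟨N, h1, h2, h3⟩) = Nat.card {X : Submodule F (B → F) //
            U (Fin.last (r + 1)) ≤ X ∧ X ≤ N (Fin.last r) ∧
              finrank F X + 1 = n (Fin.last r).castSucc} := by
          refine Nat.card_congr (Equiv.subtypeEquivRight fun X => ?_)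
          have h9 : n (Fin.last r).castSucc = n (Fin.last (r + 1)) + 1 := by
            rcases h5 with h5 | h5
            · exact absurd h5 h6
            · exact h5
          change (_ ∧ _ ∧ finrank F X = n (Fin.last (r + 1))) ↔ _
          rw [h9]
          constructor
          · rintro ⟨ha, hb, hc⟩
            exact ⟨ha, hb, by omega⟩
          · rintro ⟨ha, hb, hc⟩
            exact ⟨ha, hb, by omega⟩
        rw [h8]
    · exact Nat.ModEq.mul_right _ ih'

theorem sq_count (F : Type) [Field F] [Finite F] (B : Type) [Fintype B] (r : ℕ)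
    (n : Fin (r + 1) → ℕ) (hn : AdmDim (Fintype.card B) r n)
    (U : Fin (r + 1) → Submodule F (B → F)) (hU : Antitone U) :
    Nat.card {N : Sq F B r n // ∀ t, U t ≤ N.1 t} ≡
      ∏ t : Fin r, (if n t.castSucc = n t.succ then 1 else n t.castSucc - finrank F (U t.succ))
        [MOD Nat.card F - 1] := by
  have h := p1_count F B r n hn.zero hn.step U hU
  have e : {N : Sq F B r n // ∀ t, U t ≤ N.1 t} ≃ {N : Fin (r + 1) → Submodule F (B → F) //
        Antitone N ∧ (∀ t, finrank F (N t) = n t) ∧ ∀ t, U t ≤ N t} :=
    { toFun := fun N => ⟨N.1.1, N.1.2.1, N.1.2.2, N.2⟩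
      invFun := fun N => ⟨⟨N.1, N.2.1, N.2.2.1⟩, N.2.2.2⟩
      left_inv := fun _ => rfl
      right_inv := fun _ => rfl }
  rw [Nat.card_congr e]
  exact h

end Pos

end GradedTop
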