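import Pool.Agent.Lib.GradedPos.Low
import Pool.Agent.Lib.GradedPos.SqCount

/-!
# Corollary P, module P4: the second block
-/

namespace GradedTop

namespace Pos

open Submodule Module GradedTop.Four GradedTop.Flag

section

variable {F : Type} [Field F] {J1 J2 J3 : Type} {B1 : J1 → Type} {B2 : J2 → Type}
  {B3 : J3 → Type}

/-- Admissible filtrations of the first block. -/
def P4Low (S : S3 F B1 B2 B3) (r : ℕ) (n1 : J1 → Fin (r + 1) → ℕ) :
    Set (Fin (r + 1) → ∀ i, Submodule F (B1 i → F)) :=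
  {N : Fin (r + 1) → ∀ i, Submodule F (B1 i → F) | Antitone N ∧
          (∀ t i i', (N t i).map (S.f11 i i') ≤ N t i') ∧ ∀ t i, finrank F (N t i) = n1 i t}

/-- The conditions at the step `t`. -/
def P4Y {r : ℕ} (Y : Finset (J3 × Fin r)) (t : Fin (r + 1)) : Set J3 :=
  {y | ∃ s, (y, s) ∈ Y ∧ t ≤ s.succ}

/-- The subspaces generated by the first block and the conditions. -/
def P4U (S : S3 F B1 B2 B3) (P : J3 → Finset J2) (k : ∀ (_ : J3) (i : J2), B2 i → F) {r : ℕ}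
    (Y : Finset (J3 × Fin r)) (N1 : Fin (r + 1) → ∀ i, Submodule F (B1 i → F)) (i' : J2)
    (t : Fin (r + 1)) : Submodule F (B2 i' → F) :=
  (⨆ i, (N1 t i).map (S.f12 i i')) ⊔ span F {v | ∃ y ∈ P4Y Y t, i' ∈ P y ∧ v = k y i'}

lemma p4U_antitone (S : S3 F B1 B2 B3) (P : J3 → Finset J2)
    (k : ∀ (_ : J3) (i : J2), B2 i → F) {r : ℕ} (Y : Finset (J3 × Fin r))
    {N1 : Fin (r + 1) → ∀ i, Submodule F (B1 i → F)} (h : Antitone N1) (i' : J2) :
    Antitone (P4U S P k Y N1 i') := by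
  intro s t hst
  refine sup_le_sup (iSup_mono fun i => Submodule.map_mono (h hst i)) (span_mono ?_)
  rintro v ⟨y, ⟨q, hq, htq⟩, hv⟩
  exact ⟨y, ⟨q, hq, hst.trans htq⟩, hv⟩

/-- Filtrations of the two lower blocks are filtrations of the first block together with
filtrations of the spaces of the second block. -/
def p4Equiv (S : S3 F B1 B2 B3) (P : J3 → Finset J2) (δ : J3 → Prop)
    (k : ∀ (_ : J3) (i : J2), B2 i → F) (r : ℕ) (n1 : J1 → Fin (r + 1) → ℕ)
    (n2 : J2 → Fin (r + 1) → ℕ) (Y : Finset (J3 × Fin r)) (hδ : ∀ y ∈ Y, δ y.1) :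
    S.Mid r n1 n2 (fun N2 => ∀ y ∈ Y, δ y.1 ∧ ∀ i ∈ P y.1, k y.1 i ∈ N2 y.2.succ i) ≃
      Σ N : P4Low S r n1,
        ∀ i', {M : Sq F (B2 i') r (n2 i') // ∀ t, P4U S P k Y N.1 i' t ≤ M.1 t} where
  toFun N := ⟨⟨N.1.1, N.2.1.1, N.2.1.2.2.1, N.2.2.1⟩, fun i' =>
    ⟨⟨fun t => N.1.2 t i', fun _ _ hst => N.2.1.2.1 hst i', fun t => N.2.2.2.1 t i'⟩,
      fun t => sup_le (iSup_le fun i => N.2.1.2.2.2 t i i') (span_le.2 (by
        rintro v ⟨y, ⟨q, hq, htq⟩, hi, rfl⟩
        exact N.2.1.2.1 htq i' ((N.2.2.2.2 (y, q) hq).2 i' hi)))⟩⟩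
  invFun N := ⟨(N.1.1, fun t i' => (N.2 i').1.1 t),
    ⟨N.1.2.1, fun _ _ hst i' => (N.2 i').1.2.1 hst, N.1.2.2.1,
      fun t i i' => (le_iSup (fun i => (N.1.1 t i).map (S.f12 i i')) i).trans
        (le_sup_left.trans ((N.2 i').2 t))⟩,
    N.1.2.2.2, fun t i' => (N.2 i').1.2.2 t, fun y hy => ⟨hδ y hy, fun i hi =>
      (N.2 i).2 y.2.succ (le_sup_right (a := ⨆ j, (N.1.1 y.2.succ j).map (S.f12 j i))
        (subset_span ⟨y.1, ⟨y.2, hy, le_rfl⟩, hi, rfl⟩))⟩⟩
  left_inv _ := rfl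
  right_inv _ := rfl

end

lemma p4_congr {F T : Type} [Field F] {Z Z' : Set (T → Ln F)} (h : IsCl Z)
    (hZ : ∀ l, l ∈ Z' ↔ l ∈ Z) : IsCl Z' := by
  have : Z' = Z := Set.ext hZ
  rwa [this]

/-- layer cake -/
lemma p4_layer (n d : ℕ) : n - d = ∑ s ∈ Finset.range n, if d ≤ s then 1 else 0 := by
  rw [← Finset.card_filter]
  have h : (Finset.range n).filter (fun s => d ≤ s) = Finset.Ico d n := by
    ext s
    simp only [Finset.mem_filter, Finset.mem_range, Finset.mem_Ico]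
    omega
  rw [h, Nat.card_Ico]

section

variable {F : Type} [Field F] [Finite F] {J1 J2 J3 : Type} [Fintype J1] [Fintype J2] [Fintype J3]
  {B1 : J1 → Type} {B2 : J2 → Type} {B3 : J3 → Type} [∀ i, Fintype (B1 i)]
  [∀ i, Fintype (B2 i)] [∀ i, Fintype (B3 i)]

theorem mid_count (S : S3 F B1 B2 B3) (P : J3 → Finset J2) (δ : J3 → Prop)
    (k : ∀ (_ : J3) (i : J2), B2 i → F) (h : S.Good P δ k) (r : ℕ) (n1 : J1 → Fin (r + 1) → ℕ)
    (n2 : J2 → Fin (r + 1) → ℕ) (h1 : ∀ i, AdmDim (Fintype.card (B1 i)) r (n1 i))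
    (h2 : ∀ i, AdmDim (Fintype.card (B2 i)) r (n2 i)) (Y : Finset (J3 × Fin r)) :
    ∃ A : ℕ, A ≤ (Fintype.card (Σ i, B2 i) + 1) ^ (Fintype.card J2 * r) * 2 ^ Fintype.card J1 ∧
      Nat.card (S.Mid r n1 n2
        (fun N2 => ∀ y ∈ Y, δ y.1 ∧ ∀ i ∈ P y.1, k y.1 i ∈ N2 y.2.succ i)) ≡ A
        [MOD Nat.card F - 1] := by
  classical
  by_cases hδ : ∀ y ∈ Y, δ y.1
  swap
  · push Not at hδ
    obtain ⟨y, hy, hy2⟩ := hδ
    refine ⟨0, Nat.zero_le _, ?_⟩
    have : IsEmpty (S.Mid r n1 n2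
        (fun N2 => ∀ y ∈ Y, δ y.1 ∧ ∀ i ∈ P y.1, k y.1 i ∈ N2 y.2.succ i)) :=
      ⟨fun N => hy2 (N.2.2.2.2 y hy).1⟩
    rw [Nat.card_of_isEmpty (α := S.Mid r n1 n2 _)]
  obtain ⟨Z, hZ, hbij⟩ := low_closed S P δ k h r n1 h1
  have hbij' : Set.BijOn (fun (l : Pl B1 → Ln F) (t : Fin (r + 1)) (i : J1) =>
      famL (fun i => n1 i t) l i) Z (P4Low S r n1) := hbij
  set C : ℕ := Fintype.card (Σ i, B2 i) with hC
  have hn2 : ∀ y : J2 × Fin r, n2 y.1 y.2.castSucc ≤ C := by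
    intro y
    refine ((h2 y.1).le _).trans ?_
    rw [hC, Fintype.card_sigma]
    exact Finset.single_le_sum (f := fun i => Fintype.card (B2 i)) (fun _ _ => Nat.zero_le _)
      (Finset.mem_univ y.1)
  -- the subspaces
  set U : (Pl B1 → Ln F) → ∀ y : J2 × Fin r, Submodule F (B2 y.1 → F) := fun l y =>
    P4U S P k Y (fun t i => famL (fun i => n1 i t) l i) y.1 y.2.succ with hU
  set m : J2 × Fin r → ℕ := fun y =>
    if n2 y.1 y.2.castSucc = n2 y.1 y.2.succ then 1 else n2 y.1 y.2.castSucc with hm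
  set cond : (Pl B1 → Ln F) → (J2 × Fin r) → ℕ → Prop := fun l y s =>
    n2 y.1 y.2.castSucc = n2 y.1 y.2.succ ∨ finrank F (U l y) ≤ s with hcond
  have hfac : ∀ (l : Pl B1 → Ln F) (y : J2 × Fin r),
      (if n2 y.1 y.2.castSucc = n2 y.1 y.2.succ then 1
        else n2 y.1 y.2.castSucc - finrank F (U l y)) =
      ∑ s ∈ Finset.range (m y), if cond l y s then 1 else 0 := by
    intro l y
    simp only [hm, hcond]
    by_cases he : n2 y.1 y.2.castSucc = n2 y.1 y.2.succ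
    · simp [he]
    · simp only [he, if_false, false_or]
      exact p4_layer _ _
  have hprod : ∀ l : Pl B1 → Ln F, ∏ y : J2 × Fin r,
      (if n2 y.1 y.2.castSucc = n2 y.1 y.2.succ then 1
        else n2 y.1 y.2.castSucc - finrank F (U l y)) =
      ∑ σ ∈ Fintype.piFinset (fun y => Finset.range (m y)),
        if ∀ y, cond l y (σ y) then 1 else 0 := by
    intro l
    rw [Finset.prod_congr rfl fun y _ => hfac l y, Finset.prod_univ_sum]
    refine Finset.sum_congr rfl fun σ _ => ?_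
    rw [Finset.prod_ite_zero]
    simp only [Finset.prod_const_one, Finset.mem_univ, forall_true_left]
  -- the closed sets
  have hcl : ∀ σ : J2 × Fin r → ℕ, IsCl (Z ∩ {l | ∀ y, l ∈ {l | cond l y (σ y)}}) := by
    intro σ
    refine hZ.inter (IsCl.forall_finite fun y => ?_)
    simp only [hcond]
    by_cases he : n2 y.1 y.2.castSucc = n2 y.1 y.2.succ
    · refine p4_congr (IsCl.const True) fun l => ?_
      simp [he]
    · refine p4_congr (h.closed y.1 (fun i => n1 i y.2.succ) (P4Y Y y.2.succ) ?_ (σ y))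
        fun l => ?_
      · rintro z ⟨q, hq, -⟩
        exact hδ _ hq
      · simp only [Set.mem_ofPred_eq, he, false_or]
        rfl
  choose ν hν1 hν2 using fun σ => (hcl σ).count
  have hfinL : Finite (P4Low S r n1) := inferInstance
  have hfinZ : Finite Z := inferInstance
  have iL : Fintype (P4Low S r n1) := Fintype.ofFinite _
  have iZ : Fintype Z := Fintype.ofFinite _
  have hfs : ∀ i', Finite (Sq F (B2 i') r (n2 i')) := by
    intro i'
    unfold Sq
    infer_instance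
  refine ⟨∑ σ ∈ Fintype.piFinset (fun y => Finset.range (m y)), ν σ, ?_, ?_⟩
  · have e1 : ∑ σ ∈ Fintype.piFinset (fun y => Finset.range (m y)), ν σ ≤
        ∑ σ ∈ Fintype.piFinset (fun y => Finset.range (m y)), 2 ^ Fintype.card J1 :=
      Finset.sum_le_sum fun σ _ => (hν1 σ).trans
        (Nat.pow_le_pow_right (by omega) (Fintype.card_subtype_le _))
    refine e1.trans ?_
    rw [Finset.sum_const, smul_eq_mul, Fintype.card_piFinset]
    refine Nat.mul_le_mul_right _ ?_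
    have e2 : ∏ y, (Finset.range (m y)).card ≤ (C + 1) ^ (Finset.univ : Finset (J2 × Fin r)).card :=
      Finset.prod_le_pow_card _ _ _ fun y _ => by
        rw [Finset.card_range]
        have := hn2 y
        simp only [hm]
        split_ifs <;> omega
    rwa [Finset.card_univ, Fintype.card_prod, Fintype.card_fin] at e2
  · rw [Nat.card_congr (p4Equiv S P δ k r n1 n2 Y hδ), Nat.card_sigma]
    have e1 : ∀ N : P4Low S r n1, Nat.card (∀ i', {M : Sq F (B2 i') r (n2 i') //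
        ∀ t, P4U S P k Y N.1 i' t ≤ M.1 t}) ≡ ∏ y : J2 × Fin r,
          (if n2 y.1 y.2.castSucc = n2 y.1 y.2.succ then 1
            else n2 y.1 y.2.castSucc - finrank F (P4U S P k Y N.1 y.1 y.2.succ))
          [MOD Nat.card F - 1] := by
      intro N
      rw [Nat.card_pi, Fintype.prod_prod_type]
      exact Nat.ModEq.prod fun i' _ => sq_count F (B2 i') r (n2 i') (h2 i') _
        (p4U_antitone S P k Y N.2.1 i')
    refine (Nat.ModEq.sum fun N _ => e1 N).trans ?_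
    have e2 : ∑ N : P4Low S r n1, ∏ y : J2 × Fin r,
          (if n2 y.1 y.2.castSucc = n2 y.1 y.2.succ then 1
            else n2 y.1 y.2.castSucc - finrank F (P4U S P k Y N.1 y.1 y.2.succ)) =
        ∑ l : Z, ∏ y : J2 × Fin r,
          (if n2 y.1 y.2.castSucc = n2 y.1 y.2.succ then 1
            else n2 y.1 y.2.castSucc - finrank F (U l.1 y)) :=
      (Equiv.sum_comp (hbij'.equiv _) _).symm
    rw [e2, Finset.sum_congr rfl fun l _ => hprod l.1, Finset.sum_comm]
    refine Nat.ModEq.sum fun σ _ => ?_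
    refine Nat.ModEq.trans (congrArg (· % (Nat.card F - 1)) ?_) (hν2 σ)
    rw [← Finset.card_filter, ← Fintype.card_subtype, ← Nat.card_eq_fintype_card]
    exact Nat.card_congr
      { toFun := fun l => ⟨l.1.1, l.1.2, l.2⟩
        invFun := fun l => ⟨⟨l.1, l.2.1⟩, l.2.2⟩
        left_inv := fun _ => rfl
        right_inv := fun _ => rfl }

end

end Pos

end GradedTop
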