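import Pool.Agent.Lib.GradedPos.SqCount

/-!
# One dimension sequence with a positive number of filtrations
-/

namespace GradedTop

namespace Pos

open Submodule Module GradedTop.Four GradedTop.Flag

namespace O65

lemma prod_adm : ∀ (r m : ℕ) (n : Fin (r + 1) → ℕ), AdmDim m r n →
    ∏ t : Fin r, (if n t.castSucc = n t.succ then 1 else n t.castSucc) = m.factorial := by
  intro r
  induction r with
  | zero =>
    intro m n h
    have h1 := h.zero
    have h2 := h.last
    have : m = 0 := h1.symm.trans h2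
    subst this
    simp
  | succ r ih =>
    intro m n h
    rw [Fin.prod_univ_succ]
    have key : AdmDim (n 1) r (fun t => n t.succ) := by
      refine ⟨?_, ?_, ?_⟩
      · simp [Fin.succ_zero_eq_one]
      · have := h.last
        rw [← Fin.succ_last] at this
        exact this
      · intro t
        have := h.step t.succ
        simpa using this
    have h2 := ih (n 1) (fun t => n t.succ) key
    have h3 : ∏ i : Fin r, (if n (Fin.castSucc i.succ) = n (Fin.succ i.succ) then 1
        else n (Fin.castSucc i.succ)) = (n 1).factorial := by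
      rw [← h2]
      apply Finset.prod_congr rfl
      intro t _
      rw [← Fin.succ_castSucc]
    rw [h3]
    have h4 := h.step 0
    have h5 : n (Fin.castSucc 0) = m := by simpa using h.zero
    rw [h5] at h4 ⊢
    have h6 : (Fin.succ 0 : Fin (r + 2)) = 1 := by simp
    rw [h6] at h4 ⊢
    rcases h4 with h4 | h4
    · rw [if_pos h4, one_mul, ← h4]
    · rw [if_neg (by omega), h4, Nat.factorial_succ]

/-- number of complete filtrations of one space -/
lemma sq_card (F : Type) [Field F] [Finite F] (B : Type) [Fintype B] (r : ℕ)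
    (n : Fin (r + 1) → ℕ) (hn : AdmDim (Fintype.card B) r n) :
    Nat.card (Sq F B r n) ≡ (Fintype.card B).factorial [MOD Nat.card F - 1] := by
  have h := sq_count F B r n hn (fun _ => ⊥) (fun _ _ _ => le_rfl)
  have h1 : Nat.card {N : Sq F B r n // ∀ t, (⊥ : Submodule F (B → F)) ≤ N.1 t} =
      Nat.card (Sq F B r n) :=
    Nat.card_congr (Equiv.subtypeUnivEquiv fun N t => bot_le)
  rw [h1] at h
  have h2 : ∏ t : Fin r, (if n t.castSucc = n t.succ then 1
      else n t.castSucc - finrank F (⊥ : Submodule F (B → F))) = (Fintype.card B).factorial := by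
    rw [← prod_adm r _ n hn]
    apply Finset.prod_congr rfl
    intro t _
    rw [finrank_bot, Nat.sub_zero]
  rw [h2] at h
  exact h

lemma modEq_prod {ι : Type} (s : Finset ι) (f g : ι → ℕ) (M : ℕ)
    (h : ∀ i ∈ s, f i ≡ g i [MOD M]) : ∏ i ∈ s, f i ≡ ∏ i ∈ s, g i [MOD M] := by
  classical
  induction s using Finset.induction_on with
  | empty => simp [Nat.ModEq]
  | insert a s ha ih =>
    rw [Finset.prod_insert ha, Finset.prod_insert ha]
    exact (h a (Finset.mem_insert_self a s)).mul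
      (ih fun i hi => h i (Finset.mem_insert_of_mem hi))

/-- dimension sequence of one space with positions `g` -/
lemma adm_of_pos (B : Type) [Fintype B] (r : ℕ) (g : B → Fin r) (hg : Function.Injective g) :
    AdmDim (Fintype.card B) r (fun t => Nat.card {b : B // (t : ℕ) ≤ (g b : ℕ)}) := by
  classical
  refine ⟨?_, ?_, ?_⟩
  · have : Nat.card {b : B // ((0 : Fin (r + 1)) : ℕ) ≤ (g b : ℕ)} = Nat.card B :=
      Nat.card_congr (Equiv.subtypeUnivEquiv fun b => by simp)
    rw [this, Nat.card_eq_fintype_card]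
  · have : IsEmpty {b : B // ((Fin.last r : Fin (r + 1)) : ℕ) ≤ (g b : ℕ)} := by
      constructor
      rintro ⟨b, hb⟩
      have := (g b).2
      simp only [Fin.val_last] at hb
      omega
    exact Nat.card_of_isEmpty
  · intro t
    by_cases h : ∃ b, (g b : ℕ) = t
    · right
      obtain ⟨b, hb⟩ := h
      have e : {b' : B // ((t.castSucc : Fin (r + 1)) : ℕ) ≤ (g b' : ℕ)} ≃
          Option {b' : B // ((t.succ : Fin (r + 1)) : ℕ) ≤ (g b' : ℕ)} :=
        { toFun := fun x => if hx : ((t.succ : Fin (r + 1)) : ℕ) ≤ (g x.1 : ℕ) then some ⟨x.1, hx⟩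
            else none
          invFun := fun y => match y with
            | none => ⟨b, by simp [hb]⟩
            | some z => ⟨z.1, by
                have := z.2
                simp only [Fin.val_succ, Fin.val_castSucc] at this ⊢
                omega⟩
          left_inv := by
            rintro ⟨x, hx⟩
            by_cases h1 : ((t.succ : Fin (r + 1)) : ℕ) ≤ (g x : ℕ)
            · simp only [dif_pos h1]
            · simp only [dif_neg h1]
              apply Subtype.ext
              apply hg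
              apply Fin.ext
              simp only [Fin.val_succ, Fin.val_castSucc] at h1 hx
              simp only
              omega
          right_inv := by
            rintro (_ | ⟨z, hz⟩)
            · have h1 : ¬ (((t.succ : Fin (r + 1)) : ℕ) ≤ (g b : ℕ)) := by
                simp only [Fin.val_succ, hb]
                omega
              simp only [dif_neg h1]
            · simp only [dif_pos hz] }
      rw [Nat.card_congr e, Nat.card_eq_fintype_card, Fintype.card_option,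
        Nat.card_eq_fintype_card]
    · left
      refine Nat.card_congr (Equiv.subtypeEquivRight fun b => ?_)
      simp only [Fin.val_succ, Fin.val_castSucc]
      constructor
      · intro h1
        have : (g b : ℕ) ≠ t := fun h2 => h ⟨b, h2⟩
        omega
      · intro h1; omega

end O65

section

variable {F : Type} [Field F] [Finite F] {J1 J2 J3 : Type} [Fintype J1] [Fintype J2] [Fintype J3]
  {B1 : J1 → Type} {B2 : J2 → Type} {B3 : J3 → Type} [∀ i, Fintype (B1 i)]
  [∀ i, Fintype (B2 i)] [∀ i, Fintype (B3 i)]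

/-- An enumeration of all the basis vectors, compatible with a given order of the first block. -/
lemma O65.exists_enum (ord : J1 → ℕ) (hord : Function.Injective ord) (r : ℕ)
    (hr : r = Fintype.card (Σ i, B1 i) + Fintype.card (Σ i, B2 i) + Fintype.card (Σ i, B3 i)) :
    ∃ g : ((Σ i, B1 i) ⊕ (Σ i, B2 i) ⊕ (Σ i, B3 i)) ≃ Fin r,
      (∀ i i' b b', ord i < ord i' → g (Sum.inl ⟨i, b⟩) < g (Sum.inl ⟨i', b'⟩)) ∧
      (∀ i i' b b', g (Sum.inl ⟨i, b⟩) < g (Sum.inr (Sum.inl ⟨i', b'⟩))) ∧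
      (∀ i i' b b', g (Sum.inr (Sum.inl ⟨i, b⟩)) < g (Sum.inr (Sum.inr ⟨i', b'⟩))) := by
  classical
  let i1 : ∀ i, B1 i → ℕ := fun i b => (Fintype.equivFin (B1 i) b : ℕ)
  let i2 : (Σ i, B2 i) → ℕ := fun x => (Fintype.equivFin (Σ i, B2 i) x : ℕ)
  let i3 : (Σ i, B3 i) → ℕ := fun x => (Fintype.equivFin (Σ i, B3 i) x : ℕ)
  let key : ((Σ i, B1 i) ⊕ (Σ i, B2 i) ⊕ (Σ i, B3 i)) → ℕ ×ₗ (ℕ ×ₗ ℕ) := fun x =>
    match x with
    | Sum.inl x => toLex (0, toLex (ord x.1, i1 x.1 x.2))
    | Sum.inr (Sum.inl x) => toLex (1, toLex (0, i2 x))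
    | Sum.inr (Sum.inr x) => toLex (2, toLex (0, i3 x))
  have hkey : Function.Injective key := by
    rintro (⟨i, b⟩ | x | x) (⟨i', b'⟩ | y | y) h
    · simp only [key, EmbeddingLike.apply_eq_iff_eq, Prod.mk.injEq, true_and] at h
      obtain ⟨h1, h2⟩ := h
      have h3 := hord h1
      subst h3
      have h4 : b = b' := (Fintype.equivFin (B1 i)).injective (Fin.ext h2)
      rw [h4]
    · simp [key] at h
    · simp [key] at h
    · simp [key] at h
    · simp only [key, EmbeddingLike.apply_eq_iff_eq, Prod.mk.injEq, true_and] at h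
      rw [(Fintype.equivFin (Σ i, B2 i)).injective (Fin.ext h)]
    · simp [key] at h
    · simp [key] at h
    · simp [key] at h
    · simp only [key, EmbeddingLike.apply_eq_iff_eq, Prod.mk.injEq, true_and] at h
      rw [(Fintype.equivFin (Σ i, B3 i)).injective (Fin.ext h)]
  let _ : LinearOrder ((Σ i, B1 i) ⊕ (Σ i, B2 i) ⊕ (Σ i, B3 i)) := LinearOrder.lift' key hkey
  have hc : Fintype.card ((Σ i, B1 i) ⊕ (Σ i, B2 i) ⊕ (Σ i, B3 i)) = r := by
    rw [Fintype.card_sum, Fintype.card_sum, hr]; omega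
  let g := (Fintype.orderIsoFinOfCardEq _ hc).symm
  have hlt : ∀ x y, key x < key y → g x < g y := by
    intro x y h
    exact g.strictMono h
  refine ⟨g.toEquiv, ?_, ?_, ?_⟩
  · intro i i' b b' h
    apply hlt
    simp only [key]
    rw [Prod.Lex.toLex_lt_toLex]
    right
    refine ⟨rfl, ?_⟩
    simp only
    rw [Prod.Lex.toLex_lt_toLex]
    left
    exact h
  · intro i i' b b'
    apply hlt
    simp only [key]
    rw [Prod.Lex.toLex_lt_toLex]
    left
    simp
  · intro i i' b b'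
    apply hlt
    simp only [key]
    rw [Prod.Lex.toLex_lt_toLex]
    left
    simp

theorem exists_pos (S : S3 F B1 B2 B3) (P : J3 → Finset J2) (δ : J3 → Prop)
    (k : ∀ (_ : J3) (i : J2), B2 i → F) (h : S.Good P δ k) (r : ℕ)
    (hr : r = Fintype.card (Σ i, B1 i) + Fintype.card (Σ i, B2 i) + Fintype.card (Σ i, B3 i)) :
    ∃ (n1 : J1 → Fin (r + 1) → ℕ) (n2 : J2 → Fin (r + 1) → ℕ) (n3 : J3 → Fin (r + 1) → ℕ),
      (∀ i t, n1 i t ≤ r) ∧ (∀ i t, n2 i t ≤ r) ∧ (∀ i t, n3 i t ≤ r) ∧
      (∀ t : Fin (r + 1), ∑ i, n1 i t + ∑ i, n2 i t + ∑ i, n3 i t + (t : ℕ) = r) ∧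
      Nat.card (S.FlD r n1 n2 n3) ≡ (∏ i, (Fintype.card (B1 i)).factorial) *
        (∏ i, (Fintype.card (B2 i)).factorial) * ∏ i, (Fintype.card (B3 i)).factorial
        [MOD Nat.card F - 1] := by
  classical
  obtain ⟨ord, hord, ho⟩ := h.ord
  obtain ⟨g, g1, g2, g3⟩ := O65.exists_enum (B1 := B1) (B2 := B2) (B3 := B3) ord hord r hr
  let n1 : J1 → Fin (r + 1) → ℕ := fun i t =>
    Nat.card {b : B1 i // (t : ℕ) ≤ (g (Sum.inl ⟨i, b⟩) : ℕ)}
  let n2 : J2 → Fin (r + 1) → ℕ := fun i t =>
    Nat.card {b : B2 i // (t : ℕ) ≤ (g (Sum.inr (Sum.inl ⟨i, b⟩)) : ℕ)}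
  let n3 : J3 → Fin (r + 1) → ℕ := fun i t =>
    Nat.card {b : B3 i // (t : ℕ) ≤ (g (Sum.inr (Sum.inr ⟨i, b⟩)) : ℕ)}
  have a1 : ∀ i, AdmDim (Fintype.card (B1 i)) r (n1 i) := fun i =>
    O65.adm_of_pos (B1 i) r (fun b => g (Sum.inl ⟨i, b⟩)) (fun b b' hb => by
      have := g.injective hb
      simpa using this)
  have a2 : ∀ i, AdmDim (Fintype.card (B2 i)) r (n2 i) := fun i =>
    O65.adm_of_pos (B2 i) r (fun b => g (Sum.inr (Sum.inl ⟨i, b⟩))) (fun b b' hb => by
      have := g.injective hb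
      simpa using this)
  have a3 : ∀ i, AdmDim (Fintype.card (B3 i)) r (n3 i) := fun i =>
    O65.adm_of_pos (B3 i) r (fun b => g (Sum.inr (Sum.inr ⟨i, b⟩))) (fun b b' hb => by
      have := g.injective hb
      simpa using this)
  have hsum : ∀ t : Fin (r + 1), ∑ i, n1 i t + ∑ i, n2 i t + ∑ i, n3 i t + (t : ℕ) = r := by
    intro t
    have e1 : ∑ i, n1 i t = Fintype.card {x : Σ i, B1 i // (t : ℕ) ≤ (g (Sum.inl x) : ℕ)} := by
      rw [← Nat.card_eq_fintype_card, ← Finset.sum_congr rfl fun i _ => rfl]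
      rw [show (∑ i, n1 i t) = Nat.card (Σ i, {b : B1 i // (t : ℕ) ≤ (g (Sum.inl ⟨i, b⟩) : ℕ)}) by
        rw [Nat.card_sigma]]
      refine Nat.card_congr ⟨fun x => ⟨⟨x.1, x.2.1⟩, x.2.2⟩, fun x => ⟨x.1.1, ⟨x.1.2, x.2⟩⟩,
        fun _ => rfl, fun _ => rfl⟩
    have e2 : ∑ i, n2 i t =
        Fintype.card {x : Σ i, B2 i // (t : ℕ) ≤ (g (Sum.inr (Sum.inl x)) : ℕ)} := by
      rw [← Nat.card_eq_fintype_card]
      rw [show (∑ i, n2 i t) =
          Nat.card (Σ i, {b : B2 i // (t : ℕ) ≤ (g (Sum.inr (Sum.inl ⟨i, b⟩)) : ℕ)}) by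
        rw [Nat.card_sigma]]
      refine Nat.card_congr ⟨fun x => ⟨⟨x.1, x.2.1⟩, x.2.2⟩, fun x => ⟨x.1.1, ⟨x.1.2, x.2⟩⟩,
        fun _ => rfl, fun _ => rfl⟩
    have e3 : ∑ i, n3 i t =
        Fintype.card {x : Σ i, B3 i // (t : ℕ) ≤ (g (Sum.inr (Sum.inr x)) : ℕ)} := by
      rw [← Nat.card_eq_fintype_card]
      rw [show (∑ i, n3 i t) =
          Nat.card (Σ i, {b : B3 i // (t : ℕ) ≤ (g (Sum.inr (Sum.inr ⟨i, b⟩)) : ℕ)}) by
        rw [Nat.card_sigma]]
      refine Nat.card_congr ⟨fun x => ⟨⟨x.1, x.2.1⟩, x.2.2⟩, fun x => ⟨x.1.1, ⟨x.1.2, x.2⟩⟩,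
        fun _ => rfl, fun _ => rfl⟩
    have e4 : Fintype.card {x : (Σ i, B1 i) ⊕ (Σ i, B2 i) ⊕ (Σ i, B3 i) //
        (t : ℕ) ≤ (g x : ℕ)} = r - t := by
      rw [Fintype.card_congr (g.subtypeEquiv (q := fun y : Fin r => (t : ℕ) ≤ (y : ℕ))
        (fun x => Iff.rfl)), Fintype.card_subtype]
      have ht : (t : ℕ) ≤ r := Nat.lt_succ_iff.1 t.2
      have : (Finset.univ.filter fun y : Fin r => (t : ℕ) ≤ (y : ℕ)).card +
          (Finset.univ.filter fun y : Fin r => (y : ℕ) < (t : ℕ)).card = r := by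
        have h1 := Finset.card_filter_add_card_filter_not (s := (Finset.univ : Finset (Fin r)))
          (fun y : Fin r => (t : ℕ) ≤ (y : ℕ))
        simp only [not_le, Finset.card_univ, Fintype.card_fin] at h1
        exact h1
      have h2 : (Finset.univ.filter fun y : Fin r => (y : ℕ) < (t : ℕ)).card = t := by
        rw [Fin.card_filter_val_lt]
        omega
      omega
    have e5 : Fintype.card {x : (Σ i, B1 i) ⊕ (Σ i, B2 i) ⊕ (Σ i, B3 i) //
        (t : ℕ) ≤ (g x : ℕ)} = Fintype.card {x : Σ i, B1 i // (t : ℕ) ≤ (g (Sum.inl x) : ℕ)} +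
        (Fintype.card {x : Σ i, B2 i // (t : ℕ) ≤ (g (Sum.inr (Sum.inl x)) : ℕ)} +
          Fintype.card {x : Σ i, B3 i // (t : ℕ) ≤ (g (Sum.inr (Sum.inr x)) : ℕ)}) := by
      rw [Fintype.card_congr (Equiv.subtypeSum), Fintype.card_sum,
        Fintype.card_congr (Equiv.subtypeSum), Fintype.card_sum]
    have ht : (t : ℕ) ≤ r := Nat.lt_succ_iff.1 t.2
    rw [e1, e2, e3]
    omega
  have hle : ∀ t : Fin (r + 1), ∑ i, n1 i t ≤ r ∧ ∑ i, n2 i t ≤ r ∧ ∑ i, n3 i t ≤ r := by
    intro t
    have := hsum t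
    omega
  -- the stability conditions hold automatically
  have z1 : ∀ i i' t, ord i < ord i' → n1 i t = 0 ∨ n1 i' t = Fintype.card (B1 i') := by
    intro i i' t hi
    by_cases hb : ∃ b, (t : ℕ) ≤ (g (Sum.inl ⟨i, b⟩) : ℕ)
    · right
      obtain ⟨b, hb⟩ := hb
      rw [← Nat.card_eq_fintype_card]
      refine Nat.card_congr (Equiv.subtypeUnivEquiv fun b' => ?_)
      have := g1 i i' b b' hi
      exact hb.trans this.le
    · left
      have : IsEmpty {b : B1 i // (t : ℕ) ≤ (g (Sum.inl ⟨i, b⟩) : ℕ)} :=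
        ⟨fun x => hb ⟨x.1, x.2⟩⟩
      exact Nat.card_of_isEmpty
  have z2 : ∀ i i' t, n1 i t = 0 ∨ n2 i' t = Fintype.card (B2 i') := by
    intro i i' t
    by_cases hb : ∃ b, (t : ℕ) ≤ (g (Sum.inl ⟨i, b⟩) : ℕ)
    · right
      obtain ⟨b, hb⟩ := hb
      rw [← Nat.card_eq_fintype_card]
      refine Nat.card_congr (Equiv.subtypeUnivEquiv fun b' => ?_)
      have := g2 i i' b b'
      exact hb.trans this.le
    · left
      have : IsEmpty {b : B1 i // (t : ℕ) ≤ (g (Sum.inl ⟨i, b⟩) : ℕ)} :=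
        ⟨fun x => hb ⟨x.1, x.2⟩⟩
      exact Nat.card_of_isEmpty
  have z3 : ∀ i i' t, n2 i t = 0 ∨ n3 i' t = Fintype.card (B3 i') := by
    intro i i' t
    by_cases hb : ∃ b, (t : ℕ) ≤ (g (Sum.inr (Sum.inl ⟨i, b⟩)) : ℕ)
    · right
      obtain ⟨b, hb⟩ := hb
      rw [← Nat.card_eq_fintype_card]
      refine Nat.card_congr (Equiv.subtypeUnivEquiv fun b' => ?_)
      have := g3 i i' b b'
      exact hb.trans this.le
    · left
      have : IsEmpty {b : B2 i // (t : ℕ) ≤ (g (Sum.inr (Sum.inl ⟨i, b⟩)) : ℕ)} :=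
        ⟨fun x => hb ⟨x.1, x.2⟩⟩
      exact Nat.card_of_isEmpty
  have zz : ∀ (B B' : Type) [Fintype B] [Fintype B'] (f : (B → F) →ₗ[F] (B' → F))
      (N : Submodule F (B → F)) (N' : Submodule F (B' → F)),
      (finrank F N = 0 ∨ finrank F N' = Fintype.card B') → N.map f ≤ N' := by
    intro B B' _ _ f N N' hN
    rcases hN with hN | hN
    · rw [Submodule.finrank_eq_zero] at hN
      rw [hN, Submodule.map_bot]
      exact bot_le
    · have : N' = ⊤ := by
        apply Submodule.eq_top_of_finrank_eq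
        rw [hN, finrank_fintype_fun_eq_card]
      rw [this]
      exact le_top
  let e : S.FlD r n1 n2 n3 ≃ (∀ i, Sq F (B1 i) r (n1 i)) × (∀ i, Sq F (B2 i) r (n2 i)) ×
      (∀ i, Sq F (B3 i) r (n3 i)) :=
    { toFun := fun N => ⟨fun i => ⟨fun t => N.1.1 t i, fun s t hst => N.2.1.a1 hst i,
          fun t => N.2.2.1 t i⟩,
        fun i => ⟨fun t => N.1.2.1 t i, fun s t hst => N.2.1.a2 hst i,
          fun t => N.2.2.2.1 t i⟩,
        fun i => ⟨fun t => N.1.2.2 t i, fun s t hst => N.2.1.a3 hst i,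
          fun t => N.2.2.2.2 t i⟩⟩
      invFun := fun M => ⟨⟨fun t i => (M.1 i).1 t, fun t i => (M.2.1 i).1 t,
          fun t i => (M.2.2 i).1 t⟩,
        { a1 := fun s t hst i => (M.1 i).2.1 hst
          a2 := fun s t hst i => (M.2.1 i).2.1 hst
          a3 := fun s t hst i => (M.2.2 i).2.1 hst
          s11 := by
            intro t i i'
            by_cases hf : S.f11 i i' = 0
            · rw [hf, Submodule.map_zero]; exact bot_le
            · apply zz
              simp only [(M.1 i).2.2 t, (M.1 i').2.2 t]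
              exact z1 i i' t (ho i i' hf)
          s12 := by
            intro t i i'
            apply zz
            simp only [(M.1 i).2.2 t, (M.2.1 i').2.2 t]
            exact z2 i i' t
          s23 := by
            intro t i i'
            apply zz
            simp only [(M.2.1 i).2.2 t, (M.2.2 i').2.2 t]
            exact z3 i i' t },
        fun t i => (M.1 i).2.2 t, fun t i => (M.2.1 i).2.2 t, fun t i => (M.2.2 i).2.2 t⟩
      left_inv := fun _ => rfl
      right_inv := fun _ => rfl }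
  refine ⟨n1, n2, n3, ?_, ?_, ?_, hsum, ?_⟩
  · intro i t
    exact (Finset.single_le_sum (f := fun i => n1 i t) (fun _ _ => Nat.zero_le _)
      (Finset.mem_univ i)).trans (hle t).1
  · intro i t
    exact (Finset.single_le_sum (f := fun i => n2 i t) (fun _ _ => Nat.zero_le _)
      (Finset.mem_univ i)).trans (hle t).2.1
  · intro i t
    exact (Finset.single_le_sum (f := fun i => n3 i t) (fun _ _ => Nat.zero_le _)
      (Finset.mem_univ i)).trans (hle t).2.2
  · rw [Nat.card_congr e, Nat.card_prod, Nat.card_prod, Nat.card_pi, Nat.card_pi, Nat.card_pi,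
      ← mul_assoc]
    refine ((O65.modEq_prod _ _ _ _ fun i _ => ?_).mul
      (O65.modEq_prod _ _ _ _ fun i _ => ?_)).mul (O65.modEq_prod _ _ _ _ fun i _ => ?_)
    · exact O65.sq_card F (B1 i) r (n1 i) (a1 i)
    · exact O65.sq_card F (B2 i) r (n2 i) (a2 i)
    · exact O65.sq_card F (B3 i) r (n3 i) (a3 i)

end

end Pos

end GradedTop
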