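import Pool.Agent.Lib.GradedPos.Top
import Pool.Agent.Lib.GradedPos.Order
import Pool.Agent.Lib.GradedPos.Mid

/-!
# Positivity of the number of complete flags of multigraded ideals
-/

namespace GradedTop

namespace Pos

open Submodule Module GradedTop.Four GradedTop.Flag

section

variable {F : Type} [Field F] [Finite F] {J1 J2 J3 : Type} [Fintype J1] [Fintype J2] [Fintype J3]
  {B1 : J1 → Type} {B2 : J2 → Type} {B3 : J3 → Type} [∀ i, Fintype (B1 i)]
  [∀ i, Fintype (B2 i)] [∀ i, Fintype (B3 i)]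

/-- the bound, independent of the field -/
def bd (a b c m r : ℕ) : ℕ :=
  ((r + 1) ^ ((a + b + c) * (r + 1))) *
    ((2 ^ (c * r)) * ((m + 1) ^ (c * r) * ((m + 1) ^ (b * r) * 2 ^ a)) + (m.factorial) ^ (a + b + c))

/-- dimension functions with bounded values -/
abbrev P6T (J1 J2 J3 : Type) (r : ℕ) : Type :=
  (J1 → Fin (r + 1) → Fin (r + 1)) × (J2 → Fin (r + 1) → Fin (r + 1)) ×
    (J3 → Fin (r + 1) → Fin (r + 1))

/-- the total dimension drops by one in each step -/
def P6Cond {r : ℕ} (n : P6T J1 J2 J3 r) : Prop :=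
  ∀ t : Fin (r + 1), ∑ i, ((n.1 i t : Fin (r + 1)) : ℕ) + ∑ i, ((n.2.1 i t : Fin (r + 1)) : ℕ) +
    ∑ i, ((n.2.2 i t : Fin (r + 1)) : ℕ) + (t : ℕ) = r

lemma p6_card_T (r : ℕ) [DecidableEq J1] [DecidableEq J2] [DecidableEq J3] :
    Fintype.card (P6T J1 J2 J3 r) =
      (r + 1) ^ ((Fintype.card J1 + Fintype.card J2 + Fintype.card J3) * (r + 1)) := by
  simp only [Fintype.card_prod, Fintype.card_pi, Fintype.card_fin, Finset.prod_const,
    Finset.card_univ, ← pow_mul]
  rw [← pow_add, ← pow_add]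
  congr 1
  ring

/-- the flags with given dimensions -/
lemma p6_card_Fl (S : S3 F B1 B2 B3) (r : ℕ) :
    ∃ _ : Fintype {n : P6T J1 J2 J3 r // P6Cond n},
    Nat.card (S.Fl r) = ∑ n : {n : P6T J1 J2 J3 r // P6Cond n},
      Nat.card (S.FlD r (fun i t => (n.1.1 i t : ℕ)) (fun i t => (n.1.2.1 i t : ℕ))
        (fun i t => (n.1.2.2 i t : ℕ))) := by
  classical
  have hfin : Finite (S.Fl r) := by
    unfold S3.Fl
    infer_instance
  let f : S.Fl r → {n : P6T J1 J2 J3 r // P6Cond n} := fun N =>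
    ⟨(fun i t => ⟨finrank F (N.1.1 t i), by
        have h1 := N.2.2 t
        have h2 : finrank F (N.1.1 t i) ≤ ∑ i, finrank F (N.1.1 t i) :=
          Finset.single_le_sum (f := fun i => finrank F (N.1.1 t i))
          (fun _ _ => Nat.zero_le _) (Finset.mem_univ i)
        omega⟩,
      fun i t => ⟨finrank F (N.1.2.1 t i), by
        have h1 := N.2.2 t
        have h2 : finrank F (N.1.2.1 t i) ≤ ∑ i, finrank F (N.1.2.1 t i) :=
          Finset.single_le_sum (f := fun i => finrank F (N.1.2.1 t i))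
          (fun _ _ => Nat.zero_le _) (Finset.mem_univ i)
        omega⟩,
      fun i t => ⟨finrank F (N.1.2.2 t i), by
        have h1 := N.2.2 t
        have h2 : finrank F (N.1.2.2 t i) ≤ ∑ i, finrank F (N.1.2.2 t i) :=
          Finset.single_le_sum (f := fun i => finrank F (N.1.2.2 t i))
          (fun _ _ => Nat.zero_le _) (Finset.mem_univ i)
        omega⟩), fun t => N.2.2 t⟩
  refine ⟨inferInstance, ?_⟩
  rw [Nat.card_congr (Equiv.sigmaFiberEquiv f).symm, Nat.card_sigma]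
  refine Finset.sum_congr rfl fun n _ => Nat.card_congr ?_
  refine
    { toFun := fun N => ⟨N.1.1, N.1.2.1, fun t i => ?_, fun t i => ?_, fun t i => ?_⟩
      invFun := fun N => ⟨⟨N.1, N.2.1, fun t => ?_⟩, ?_⟩
      left_inv := fun N => rfl
      right_inv := fun N => rfl }
  · exact congrArg (fun x : {n : P6T J1 J2 J3 r // P6Cond n} => ((x.1.1 i t : Fin (r + 1)) : ℕ)) N.2
  · exact congrArg (fun x : {n : P6T J1 J2 J3 r // P6Cond n} => ((x.1.2.1 i t : Fin (r + 1)) : ℕ)) N.2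
  · exact congrArg (fun x : {n : P6T J1 J2 J3 r // P6Cond n} => ((x.1.2.2 i t : Fin (r + 1)) : ℕ)) N.2
  · have h1 := n.2 t
    simp only [N.2.2.1, N.2.2.2.1, N.2.2.2.2]
    exact h1
  · refine Subtype.ext (Prod.ext ?_ (Prod.ext ?_ ?_))
    · exact funext fun i => funext fun t => Fin.ext (N.2.2.1 t i)
    · exact funext fun i => funext fun t => Fin.ext (N.2.2.2.1 t i)
    · exact funext fun i => funext fun t => Fin.ext (N.2.2.2.2 t i)

/-- nonempty sets of filtrations have admissible dimensions -/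
lemma p6_adm (S : S3 F B1 B2 B3) (r : ℕ)
    (hr : r = Fintype.card (Σ i, B1 i) + Fintype.card (Σ i, B2 i) + Fintype.card (Σ i, B3 i))
    (n1 : J1 → Fin (r + 1) → ℕ) (n2 : J2 → Fin (r + 1) → ℕ) (n3 : J3 → Fin (r + 1) → ℕ)
    (hn : ∀ t : Fin (r + 1), ∑ i, n1 i t + ∑ i, n2 i t + ∑ i, n3 i t + (t : ℕ) = r)
    (hne : Nonempty (S.FlD r n1 n2 n3)) :
    (∀ i, AdmDim (Fintype.card (B1 i)) r (n1 i)) ∧ (∀ i, AdmDim (Fintype.card (B2 i)) r (n2 i)) ∧
      ∀ i, AdmDim (Fintype.card (B3 i)) r (n3 i) := by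
  classical
  obtain ⟨⟨⟨N1, N2, N3⟩, hf, h1, h2, h3⟩⟩ := hne
  simp only at hf h1 h2 h3
  -- bounds
  have b1 : ∀ i t, n1 i t ≤ Fintype.card (B1 i) := fun i t => by
    rw [← h1 t i, ← Module.finrank_fintype_fun_eq_card F]
    exact Submodule.finrank_le _
  have b2 : ∀ i t, n2 i t ≤ Fintype.card (B2 i) := fun i t => by
    rw [← h2 t i, ← Module.finrank_fintype_fun_eq_card F]
    exact Submodule.finrank_le _
  have b3 : ∀ i t, n3 i t ≤ Fintype.card (B3 i) := fun i t => by
    rw [← h3 t i, ← Module.finrank_fintype_fun_eq_card F]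
    exact Submodule.finrank_le _
  have a1 : ∀ i, Antitone (n1 i) := fun i s t hst => by
    rw [← h1 t i, ← h1 s i]
    exact Submodule.finrank_mono (hf.a1 hst i)
  have a2 : ∀ i, Antitone (n2 i) := fun i s t hst => by
    rw [← h2 t i, ← h2 s i]
    exact Submodule.finrank_mono (hf.a2 hst i)
  have a3 : ∀ i, Antitone (n3 i) := fun i s t hst => by
    rw [← h3 t i, ← h3 s i]
    exact Submodule.finrank_mono (hf.a3 hst i)
  have c1 : Fintype.card (Σ i, B1 i) = ∑ i, Fintype.card (B1 i) := Fintype.card_sigma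
  have c2 : Fintype.card (Σ i, B2 i) = ∑ i, Fintype.card (B2 i) := Fintype.card_sigma
  have c3 : Fintype.card (Σ i, B3 i) = ∑ i, Fintype.card (B3 i) := Fintype.card_sigma
  have s1 : ∀ t, ∑ i, n1 i t ≤ ∑ i, Fintype.card (B1 i) :=
    fun t => Finset.sum_le_sum fun i _ => b1 i t
  have s2 : ∀ t, ∑ i, n2 i t ≤ ∑ i, Fintype.card (B2 i) :=
    fun t => Finset.sum_le_sum fun i _ => b2 i t
  have s3 : ∀ t, ∑ i, n3 i t ≤ ∑ i, Fintype.card (B3 i) :=
    fun t => Finset.sum_le_sum fun i _ => b3 i t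
  -- time zero
  have z := hn 0
  have z1 : ∑ i, n1 i 0 = ∑ i, Fintype.card (B1 i) := by
    have := s1 0; have := s2 0; have := s3 0
    simp only [Fin.val_zero] at z
    omega
  have z2 : ∑ i, n2 i 0 = ∑ i, Fintype.card (B2 i) := by
    have := s1 0; have := s2 0; have := s3 0
    simp only [Fin.val_zero] at z
    omega
  have z3 : ∑ i, n3 i 0 = ∑ i, Fintype.card (B3 i) := by
    have := s1 0; have := s2 0; have := s3 0
    simp only [Fin.val_zero] at z
    omega
  have zz1 := (Finset.sum_eq_sum_iff_of_le (fun i _ => b1 i 0)).1 z1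
  have zz2 := (Finset.sum_eq_sum_iff_of_le (fun i _ => b2 i 0)).1 z2
  have zz3 := (Finset.sum_eq_sum_iff_of_le (fun i _ => b3 i 0)).1 z3
  -- last time
  have l := hn (Fin.last r)
  simp only [Fin.val_last] at l
  have l1 : ∑ i, n1 i (Fin.last r) = 0 := by omega
  have l2 : ∑ i, n2 i (Fin.last r) = 0 := by omega
  have l3 : ∑ i, n3 i (Fin.last r) = 0 := by omega
  rw [Finset.sum_eq_zero_iff] at l1 l2 l3
  -- steps
  have st : ∀ t : Fin r, ∑ i, (n1 i t.castSucc - n1 i t.succ) +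
      ∑ i, (n2 i t.castSucc - n2 i t.succ) + ∑ i, (n3 i t.castSucc - n3 i t.succ) = 1 := by
    intro t
    have hle : t.castSucc ≤ t.succ := Fin.castSucc_le_succ t
    have e1 : ∑ i, (n1 i t.castSucc - n1 i t.succ) + ∑ i, n1 i t.succ = ∑ i, n1 i t.castSucc := by
      rw [← Finset.sum_add_distrib]
      exact Finset.sum_congr rfl fun i _ => Nat.sub_add_cancel (a1 i hle)
    have e2 : ∑ i, (n2 i t.castSucc - n2 i t.succ) + ∑ i, n2 i t.succ = ∑ i, n2 i t.castSucc := by
      rw [← Finset.sum_add_distrib]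
      exact Finset.sum_congr rfl fun i _ => Nat.sub_add_cancel (a2 i hle)
    have e3 : ∑ i, (n3 i t.castSucc - n3 i t.succ) + ∑ i, n3 i t.succ = ∑ i, n3 i t.castSucc := by
      rw [← Finset.sum_add_distrib]
      exact Finset.sum_congr rfl fun i _ => Nat.sub_add_cancel (a3 i hle)
    have g1 := hn t.castSucc
    have g2 := hn t.succ
    simp only [Fin.val_castSucc, Fin.val_succ] at g1 g2
    omega
  refine ⟨fun i => ⟨zz1 i (Finset.mem_univ i), l1 i (Finset.mem_univ i), fun t => ?_⟩,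
    fun i => ⟨zz2 i (Finset.mem_univ i), l2 i (Finset.mem_univ i), fun t => ?_⟩,
    fun i => ⟨zz3 i (Finset.mem_univ i), l3 i (Finset.mem_univ i), fun t => ?_⟩⟩
  · have h : n1 i t.castSucc - n1 i t.succ ≤ ∑ i, (n1 i t.castSucc - n1 i t.succ) :=
      Finset.single_le_sum (f := fun i => n1 i t.castSucc - n1 i t.succ)
      (fun _ _ => Nat.zero_le _) (Finset.mem_univ i)
    have h' := st t
    have h'' := a1 i (Fin.castSucc_le_succ t)
    omega
  · have h : n2 i t.castSucc - n2 i t.succ ≤ ∑ i, (n2 i t.castSucc - n2 i t.succ) :=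
      Finset.single_le_sum (f := fun i => n2 i t.castSucc - n2 i t.succ)
      (fun _ _ => Nat.zero_le _) (Finset.mem_univ i)
    have h' := st t
    have h'' := a2 i (Fin.castSucc_le_succ t)
    omega
  · have h : n3 i t.castSucc - n3 i t.succ ≤ ∑ i, (n3 i t.castSucc - n3 i t.succ) :=
      Finset.single_le_sum (f := fun i => n3 i t.castSucc - n3 i t.succ)
      (fun _ _ => Nat.zero_le _) (Finset.mem_univ i)
    have h' := st t
    have h'' := a3 i (Fin.castSucc_le_succ t)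
    omega

lemma p6_mod_sum {ι : Type} (s : Finset ι) (f g : ι → ℕ) (q : ℕ)
    (h : ∀ i ∈ s, f i ≡ g i [MOD q]) : ∑ i ∈ s, f i ≡ ∑ i ∈ s, g i [MOD q] := by
  classical
  induction s using Finset.induction_on with
  | empty => exact Nat.ModEq.refl _
  | insert a s ha ih =>
    rw [Finset.sum_insert ha, Finset.sum_insert ha]
    exact (h a (Finset.mem_insert_self a s)).add
      (ih fun i hi => h i (Finset.mem_insert_of_mem hi))

/-- one dimension sequence -/
lemma p6_one (S : S3 F B1 B2 B3) (P : J3 → Finset J2) (δ : J3 → Prop)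
    (k : ∀ (_ : J3) (i : J2), B2 i → F) (h : S.Good P δ k) (r : ℕ)
    (hr : r = Fintype.card (Σ i, B1 i) + Fintype.card (Σ i, B2 i) + Fintype.card (Σ i, B3 i))
    (n1 : J1 → Fin (r + 1) → ℕ) (n2 : J2 → Fin (r + 1) → ℕ) (n3 : J3 → Fin (r + 1) → ℕ)
    (hn : ∀ t : Fin (r + 1), ∑ i, n1 i t + ∑ i, n2 i t + ∑ i, n3 i t + (t : ℕ) = r) :
    ∃ A : ℕ, A ≤ (2 ^ (Fintype.card J3 * r)) * ((r + 1) ^ (Fintype.card J3 * r) *
        ((r + 1) ^ (Fintype.card J2 * r) * 2 ^ Fintype.card J1)) ∧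
      Nat.card (S.FlD r n1 n2 n3) ≡ A [MOD Nat.card F - 1] := by
  classical
  rcases isEmpty_or_nonempty (S.FlD r n1 n2 n3) with he | hne
  · exact ⟨0, Nat.zero_le _, by rw [Nat.card_of_isEmpty (α := S.FlD r n1 n2 n3)]⟩
  obtain ⟨h1, h2, h3⟩ := p6_adm S r hr n1 n2 n3 hn hne
  obtain ⟨cf, hc, hcard⟩ := top_expand S P δ k h r n1 n2 n3 h3
  choose A hA hAc using mid_count S P δ k h r n1 n2 h1 h2
  refine ⟨∑ Y, cf Y * A Y, ?_, hcard.trans (p6_mod_sum _ _ _ _ fun Y _ =>
    Nat.ModEq.mul_left _ (hAc Y))⟩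
  have hb : ∀ Y ∈ (Finset.univ : Finset (Finset (J3 × Fin r))), cf Y * A Y ≤
      (r + 1) ^ (Fintype.card J3 * r) *
        ((r + 1) ^ (Fintype.card J2 * r) * 2 ^ Fintype.card J1) := by
    intro Y _
    refine Nat.mul_le_mul ((hc Y).trans ?_) ((hA Y).trans ?_)
    · exact Nat.pow_le_pow_left (by omega) _
    · exact Nat.mul_le_mul_right _ (Nat.pow_le_pow_left (by omega) _)
  refine (Finset.sum_le_card_nsmul _ _ _ hb).trans ?_
  rw [smul_eq_mul, Finset.card_univ, Fintype.card_finset, Fintype.card_prod, Fintype.card_fin]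

theorem fl_count (S : S3 F B1 B2 B3) (P : J3 → Finset J2) (δ : J3 → Prop)
    (k : ∀ (_ : J3) (i : J2), B2 i → F) (h : S.Good P δ k) (r : ℕ)
    (hr : r = Fintype.card (Σ i, B1 i) + Fintype.card (Σ i, B2 i) + Fintype.card (Σ i, B3 i)) :
    ∃ A : ℕ, 1 ≤ A ∧ A ≤ bd (Fintype.card J1) (Fintype.card J2) (Fintype.card J3) r r ∧
      Nat.card (S.Fl r) ≡ A [MOD Nat.card F - 1] := by
  classical
  obtain ⟨m1, m2, m3, l1, l2, l3, hm, hpos⟩ := exists_pos S P δ k h r hr
  obtain ⟨_, hcard⟩ := p6_card_Fl S r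
  set q := Nat.card F - 1 with hq
  -- the special point
  let n0 : {n : P6T J1 J2 J3 r // P6Cond n} :=
    ⟨(fun i t => ⟨m1 i t, Nat.lt_succ_of_le (l1 i t)⟩, fun i t => ⟨m2 i t, Nat.lt_succ_of_le (l2 i t)⟩,
      fun i t => ⟨m3 i t, Nat.lt_succ_of_le (l3 i t)⟩), hm⟩
  choose A hA hAc using fun n : {n : P6T J1 J2 J3 r // P6Cond n} =>
    p6_one S P δ k h r hr (fun i t => (n.1.1 i t : ℕ)) (fun i t => (n.1.2.1 i t : ℕ))
      (fun i t => (n.1.2.2 i t : ℕ)) n.2
  set G := (∏ i, (Fintype.card (B1 i)).factorial) * (∏ i, (Fintype.card (B2 i)).factorial) *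
    ∏ i, (Fintype.card (B3 i)).factorial with hG
  set M := (2 ^ (Fintype.card J3 * r)) * ((r + 1) ^ (Fintype.card J3 * r) *
        ((r + 1) ^ (Fintype.card J2 * r) * 2 ^ Fintype.card J1)) with hM
  have hG1 : 1 ≤ G := Nat.pos_of_ne_zero (by
    rw [hG]
    exact mul_ne_zero (mul_ne_zero (Finset.prod_ne_zero_iff.2 fun i _ => Nat.factorial_ne_zero _)
      (Finset.prod_ne_zero_iff.2 fun i _ => Nat.factorial_ne_zero _))
      (Finset.prod_ne_zero_iff.2 fun i _ => Nat.factorial_ne_zero _))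
  have hb1 : ∀ i, Fintype.card (B1 i) ≤ r := fun i => by
    have e1 : Fintype.card (B1 i) ≤ Fintype.card (Σ i, B1 i) :=
      Fintype.card_le_of_injective (fun b => (⟨i, b⟩ : Σ i, B1 i)) sigma_mk_injective
    omega
  have hb2 : ∀ i, Fintype.card (B2 i) ≤ r := fun i => by
    have e1 : Fintype.card (B2 i) ≤ Fintype.card (Σ i, B2 i) :=
      Fintype.card_le_of_injective (fun b => (⟨i, b⟩ : Σ i, B2 i)) sigma_mk_injective
    omega
  have hb3 : ∀ i, Fintype.card (B3 i) ≤ r := fun i => by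
    have e1 : Fintype.card (B3 i) ≤ Fintype.card (Σ i, B3 i) :=
      Fintype.card_le_of_injective (fun b => (⟨i, b⟩ : Σ i, B3 i)) sigma_mk_injective
    omega
  have hG2 : G ≤ r.factorial ^ (Fintype.card J1 + Fintype.card J2 + Fintype.card J3) := by
    rw [hG, pow_add, pow_add]
    refine Nat.mul_le_mul (Nat.mul_le_mul ?_ ?_) ?_
    · exact (Finset.prod_le_pow_card _ _ _ fun i _ => Nat.factorial_le (hb1 i)).trans
        (by rw [Finset.card_univ])
    · exact (Finset.prod_le_pow_card _ _ _ fun i _ => Nat.factorial_le (hb2 i)).trans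
        (by rw [Finset.card_univ])
    · exact (Finset.prod_le_pow_card _ _ _ fun i _ => Nat.factorial_le (hb3 i)).trans
        (by rw [Finset.card_univ])
  refine ⟨∑ n, (if n = n0 then G else A n), ?_, ?_, ?_⟩
  · refine hG1.trans ?_
    have e1 : (if n0 = n0 then G else A n0) ≤ ∑ n, (if n = n0 then G else A n) :=
      Finset.single_le_sum (f := fun n => if n = n0 then G else A n)
        (fun _ _ => Nat.zero_le _) (Finset.mem_univ n0)
    rwa [if_pos rfl] at e1
  · have e1 : ∀ n ∈ (Finset.univ : Finset {n : P6T J1 J2 J3 r // P6Cond n}),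
        (if n = n0 then G else A n) ≤
          M + r.factorial ^ (Fintype.card J1 + Fintype.card J2 + Fintype.card J3) := by
      intro n _
      split_ifs
      · exact hG2.trans (Nat.le_add_left _ _)
      · exact (hA n).trans (Nat.le_add_right _ _)
    refine (Finset.sum_le_card_nsmul _ _ _ e1).trans ?_
    rw [smul_eq_mul, Finset.card_univ]
    unfold bd
    refine Nat.mul_le_mul_right _ ?_
    rw [← p6_card_T (J1 := J1) (J2 := J2) (J3 := J3) r]
    exact Fintype.card_subtype_le _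
  · rw [hcard]
    refine p6_mod_sum _ _ _ _ fun n _ => ?_
    split_ifs with h0
    · subst h0
      exact hpos
    · exact hAc n

end

end Pos

end GradedTop
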