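import Pool.Agent.Lib.GradedPos.SqCount

/-!
# The last degree
-/

namespace GradedTop

namespace Pos

open Submodule Module GradedTop.Four GradedTop.Flag

section

variable {F : Type} [Field F] {J1 J2 J3 : Type} {B1 : J1 → Type} {B2 : J2 → Type}
  {B3 : J3 → Type}

/-- The subspaces generated by the block before the last one. -/
def P2U (S : S3 F B1 B2 B3) {r : ℕ} (N2 : Fin (r + 1) → ∀ i, Submodule F (B2 i → F)) (i' : J3)
    (t : Fin (r + 1)) : Submodule F (B3 i' → F) :=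
  ⨆ i, (N2 t i).map (S.f23 i i')

lemma p2U_antitone (S : S3 F B1 B2 B3) {r : ℕ}
    {N2 : Fin (r + 1) → ∀ i, Submodule F (B2 i → F)} (h : Antitone N2) (i' : J3) :
    Antitone (P2U S N2 i') :=
  fun _ _ hst => iSup_mono fun i => Submodule.map_mono (h hst i)

/-- Filtrations with prescribed dimensions are filtrations of the two lower blocks together with
filtrations of the spaces of the last block. -/
def p2FlEquiv (S : S3 F B1 B2 B3) (r : ℕ) (n1 : J1 → Fin (r + 1) → ℕ)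
    (n2 : J2 → Fin (r + 1) → ℕ) (n3 : J3 → Fin (r + 1) → ℕ) :
    S.FlD r n1 n2 n3 ≃ Σ N : S.Mid r n1 n2 (fun _ => True),
      ∀ i', {M : Sq F (B3 i') r (n3 i') // ∀ t, P2U S N.1.2 i' t ≤ M.1 t} where
  toFun N := ⟨⟨(N.1.1, N.1.2.1), ⟨N.2.1.a1, N.2.1.a2, N.2.1.s11, N.2.1.s12⟩, N.2.2.1, N.2.2.2.1,
    trivial⟩, fun i' => ⟨⟨fun t => N.1.2.2 t i', fun _ _ hst => N.2.1.a3 hst i',
      fun t => N.2.2.2.2 t i'⟩, fun t => iSup_le fun i => N.2.1.s23 t i i'⟩⟩
  invFun N := ⟨(N.1.1.1, N.1.1.2, fun t i' => (N.2 i').1.1 t),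
    ⟨N.1.2.1.1, N.1.2.1.2.1, fun _ _ hst i' => (N.2 i').1.2.1 hst, N.1.2.1.2.2.1, N.1.2.1.2.2.2,
      fun t i i' => (le_iSup (fun i => (N.1.1.2 t i).map (S.f23 i i')) i).trans ((N.2 i').2 t)⟩,
    N.1.2.2.1, N.1.2.2.2.1, fun t i' => (N.2 i').1.2.2 t⟩
  left_inv _ := rfl
  right_inv _ := rfl

/-- Conditions on the second block. -/
def p2MidEquiv (S : S3 F B1 B2 B3) (r : ℕ) (n1 : J1 → Fin (r + 1) → ℕ)
    (n2 : J2 → Fin (r + 1) → ℕ) (Z : (Fin (r + 1) → ∀ i, Submodule F (B2 i → F)) → Prop) :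
    S.Mid r n1 n2 Z ≃ {N : S.Mid r n1 n2 (fun _ => True) // Z N.1.2} where
  toFun N := ⟨⟨N.1, N.2.1, N.2.2.1, N.2.2.2.1, trivial⟩, N.2.2.2.2⟩
  invFun N := ⟨N.1.1, N.1.2.1, N.1.2.2.1, N.1.2.2.2.1, N.2⟩
  left_inv _ := rfl
  right_inv _ := rfl

end

/-- The factor of one step. -/
def p2A (n n' w : ℕ) : ℕ := if n = n' then 1 else n - w

/-- The factor of the condition. -/
def p2B (n n' w : ℕ) : ℕ := if n = n' then 0 else if w ≤ n then 1 else 0

lemma p2A_le (n n' w : ℕ) : p2A n n' w ≤ n + 1 := by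
  unfold p2A
  split_ifs <;> omega

lemma p2B_le (n n' w : ℕ) : p2B n n' w ≤ n + 1 := by
  unfold p2B
  split_ifs <;> omega

lemma p2_fac_eq (n n' w u : ℕ) (c : Prop) [Decidable c] (h0 : ¬ c → u = w) (h1 : c → u + 1 = w) :
    (if n = n' then 1 else n - u) = p2B n n' w * (if c then 1 else 0) + p2A n n' w := by
  unfold p2A p2B
  by_cases hc : c
  · have := h1 hc
    simp only [hc, if_true]
    split_ifs <;> omega
  · have := h0 hc
    simp only [hc, if_false]
    split_ifs <;> omega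

lemma p2_admDim_le {m r : ℕ} {n : Fin (r + 1) → ℕ} (h : AdmDim m r n) (t : Fin (r + 1)) :
    n t ≤ m := by
  have key : ∀ (k : ℕ) (hk : k < r + 1), n ⟨k, hk⟩ ≤ m := by
    intro k
    induction k with
    | zero => intro hk; exact h.zero.le
    | succ k ih =>
      intro hk
      have h1 := ih (by omega)
      have h2 := h.step ⟨k, by omega⟩
      have e1 : (⟨k, by omega⟩ : Fin r).castSucc = ⟨k, by omega⟩ := rfl
      have e2 : (⟨k, by omega⟩ : Fin r).succ = ⟨k + 1, hk⟩ := rfl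
      rw [e1, e2] at h2
      omega
  exact key t.1 t.2

section

variable {F : Type} [Field F] [Finite F] {J1 J2 J3 : Type} [Fintype J1] [Fintype J2] [Fintype J3]
  {B1 : J1 → Type} {B2 : J2 → Type} {B3 : J3 → Type} [∀ i, Fintype (B1 i)]
  [∀ i, Fintype (B2 i)] [∀ i, Fintype (B3 i)]

theorem p2_finite_mid (S : S3 F B1 B2 B3) (r : ℕ) (n1 : J1 → Fin (r + 1) → ℕ)
    (n2 : J2 → Fin (r + 1) → ℕ) (Z : (Fin (r + 1) → ∀ i, Submodule F (B2 i → F)) → Prop) :
    Finite (S.Mid r n1 n2 Z) := by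
  unfold S3.Mid
  infer_instance

theorem p2_finite_sq (B : Type) [Fintype B] (r : ℕ) (n : Fin (r + 1) → ℕ) : Finite (Sq F B r n) := by
  unfold Sq
  infer_instance

theorem top_expand (S : S3 F B1 B2 B3) (P : J3 → Finset J2) (δ : J3 → Prop)
    (k : ∀ (_ : J3) (i : J2), B2 i → F) (h : S.Good P δ k) (r : ℕ) (n1 : J1 → Fin (r + 1) → ℕ)
    (n2 : J2 → Fin (r + 1) → ℕ) (n3 : J3 → Fin (r + 1) → ℕ)
    (h3 : ∀ i, AdmDim (Fintype.card (B3 i)) r (n3 i)) :
    ∃ cf : Finset (J3 × Fin r) → ℕ,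
      (∀ Y, cf Y ≤ (Fintype.card (Σ i, B3 i) + 1) ^ (Fintype.card J3 * r)) ∧
      Nat.card (S.FlD r n1 n2 n3) ≡ ∑ Y, cf Y * Nat.card (S.Mid r n1 n2
        (fun N2 => ∀ y ∈ Y, δ y.1 ∧ ∀ i ∈ P y.1, k y.1 i ∈ N2 y.2.succ i))
        [MOD Nat.card F - 1] := by
  classical
  have inst1 : ∀ Z, Finite (S.Mid r n1 n2 Z) := p2_finite_mid S r n1 n2
  have inst2 : ∀ i', Finite (Sq F (B3 i') r (n3 i')) := fun i' => p2_finite_sq (B3 i') r (n3 i')
  set w : J3 × Fin r → ℕ := fun y => ∑ i ∈ P y.1, n2 i y.2.succ with hw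
  set A : J3 × Fin r → ℕ := fun y => p2A (n3 y.1 y.2.castSucc) (n3 y.1 y.2.succ) (w y) with hA
  set B : J3 × Fin r → ℕ := fun y => p2B (n3 y.1 y.2.castSucc) (n3 y.1 y.2.succ) (w y) with hB
  set C : ℕ := Fintype.card (Σ i, B3 i) with hC
  have hn3 : ∀ y : J3 × Fin r, n3 y.1 y.2.castSucc ≤ C := by
    intro y
    refine (p2_admDim_le (h3 y.1) _).trans ?_
    rw [hC, Fintype.card_sigma]
    exact Finset.single_le_sum (f := fun i => Fintype.card (B3 i)) (fun _ _ => Nat.zero_le _)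
      (Finset.mem_univ y.1)
  refine ⟨fun Y => (∏ y ∈ Y, B y) * ∏ y ∈ Finset.univ \ Y, A y, fun Y => ?_, ?_⟩
  · have e1 : ∏ y ∈ Y, B y ≤ (C + 1) ^ Y.card :=
      Finset.prod_le_pow_card _ _ _ fun y _ =>
        (p2B_le _ _ _).trans (Nat.add_le_add_right (hn3 y) 1)
    have e2 : ∏ y ∈ Finset.univ \ Y, A y ≤ (C + 1) ^ (Finset.univ \ Y).card :=
      Finset.prod_le_pow_card _ _ _ fun y _ =>
        (p2A_le _ _ _).trans (Nat.add_le_add_right (hn3 y) 1)
    refine (Nat.mul_le_mul e1 e2).trans ?_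
    rw [← pow_add]
    refine Nat.pow_le_pow_right (Nat.succ_pos _) (le_of_eq ?_)
    rw [← Finset.card_union_of_disjoint Finset.disjoint_sdiff,
      Finset.union_sdiff_of_subset (Finset.subset_univ Y), Finset.card_univ, Fintype.card_prod,
      Fintype.card_fin]
  · -- the conditions
    let cond : S.Mid r n1 n2 (fun _ => True) → J3 × Fin r → Prop := fun N y =>
      δ y.1 ∧ ∀ i ∈ P y.1, k y.1 i ∈ N.1.2 y.2.succ i
    have : Fintype (S.Mid r n1 n2 (fun _ => True)) := Fintype.ofFinite _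
    have hfin : ∀ N : S.Mid r n1 n2 (fun _ => True), Finite (∀ i', {M : Sq F (B3 i') r (n3 i') //
        ∀ t, P2U S N.1.2 i' t ≤ M.1 t}) := fun N => inferInstance
    -- the number of filtrations of the last block
    have e1 : ∀ N : S.Mid r n1 n2 (fun _ => True), Nat.card (∀ i', {M : Sq F (B3 i') r (n3 i') //
        ∀ t, P2U S N.1.2 i' t ≤ M.1 t}) ≡ ∏ y : J3 × Fin r,
          (B y * (if cond N y then 1 else 0) + A y) [MOD Nat.card F - 1] := by
      intro N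
      rw [Nat.card_pi, Fintype.prod_prod_type]
      refine Nat.ModEq.prod fun i' _ => ?_
      refine (sq_count F (B3 i') r (n3 i') (h3 i') (P2U S N.1.2 i')
        (p2U_antitone S N.2.1.2.1 i')).trans ?_
      refine Nat.ModEq.prod fun t _ => ?_
      have h4 := h.top i' (N.1.2 t.succ)
      have h5 : ∑ i ∈ P i', finrank F (N.1.2 t.succ i) = w (i', t) :=
        Finset.sum_congr rfl fun i _ => N.2.2.2.1 t.succ i
      rw [h5] at h4
      have h6 := p2_fac_eq (n3 i' t.castSucc) (n3 i' t.succ) (w (i', t))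
        (finrank F (P2U S N.1.2 i' t.succ)) (cond N (i', t)) h4.1 h4.2
      rw [h6]
    have e2 : ∀ N : S.Mid r n1 n2 (fun _ => True), ∏ y : J3 × Fin r,
          (B y * (if cond N y then 1 else 0) + A y) = ∑ Y : Finset (J3 × Fin r),
          ((∏ y ∈ Y, B y) * ∏ y ∈ Finset.univ \ Y, A y) * (if ∀ y ∈ Y, cond N y then 1 else 0) := by
      intro N
      rw [Finset.prod_add, Finset.powerset_univ]
      refine Finset.sum_congr rfl fun Y _ => ?_
      rw [Finset.prod_mul_distrib, Finset.prod_ite_zero]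
      simp only [Finset.prod_const_one]
      ring
    rw [Nat.card_congr (p2FlEquiv S r n1 n2 n3), Nat.card_sigma]
    refine (Nat.ModEq.sum fun N _ => (e1 N).trans (by rw [e2 N])).trans ?_
    rw [Finset.sum_comm]
    refine Nat.ModEq.sum fun Y _ => ?_
    have e3 : Nat.card (S.Mid r n1 n2
        (fun N2 => ∀ y ∈ Y, δ y.1 ∧ ∀ i ∈ P y.1, k y.1 i ∈ N2 y.2.succ i)) =
        ∑ N : S.Mid r n1 n2 (fun _ => True), if ∀ y ∈ Y, cond N y then 1 else 0 := by
      rw [Nat.card_congr (p2MidEquiv S r n1 n2 _), ← Finset.card_filter, ← Fintype.card_subtype]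
      exact Nat.card_eq_fintype_card
    rw [← Finset.mul_sum, e3]

end

end Pos

end GradedTop
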